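import Pool.Agent.W2helper8.AN.Trans

/-!
# The limit lines depend continuously on the representation
-/

set_option autoImplicit false

open InnerProductSpace ContinuousLinearMap Filter Topology

namespace Pool.Agent.W2helper8.AN

variable {Γ G : Type*} [Group Γ] [Group G] [TopologicalSpace G] {s : Setup Γ G}
variable {V : Type*} [NormedAddCommGroup V] [InnerProductSpace ℂ V]

lemma exists_generic {v v' : V} (hv : ‖v‖ = 1) (hv' : ‖v'‖ = 1) :
    ∃ x : V, ‖x‖ = 1 ∧ 1 / 3 ≤ ‖inner ℂ v x‖ ∧ 1 / 3 ≤ ‖inner ℂ v' x‖ := by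
  by_cases h : 1 / 3 ≤ ‖inner ℂ v v'‖
  · refine ⟨v', hv', h, ?_⟩
    rw [inner_self_eq_norm_sq_to_K, hv']; norm_num
  push Not at h
  have h' : ‖inner ℂ v' v‖ < 1 / 3 := by rwa [norm_inner_symm]
  set x := v + v' with hx
  have e1 : inner ℂ v x = 1 + inner ℂ v v' := by
    rw [hx, inner_add_right, inner_self_eq_norm_sq_to_K, hv]; norm_num
  have e2 : inner ℂ v' x = inner ℂ v' v + 1 := by
    rw [hx, inner_add_right, inner_self_eq_norm_sq_to_K, hv']; norm_num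
  have n1 : 2 / 3 ≤ ‖inner ℂ v x‖ := by
    rw [e1]
    have := norm_sub_le (1 + inner ℂ v v' : ℂ) (inner ℂ v v')
    rw [add_sub_cancel_right, norm_one] at this
    linarith
  have n2 : 2 / 3 ≤ ‖inner ℂ v' x‖ := by
    rw [e2]
    have := norm_sub_le (inner ℂ v' v + 1 : ℂ) (inner ℂ v' v)
    rw [add_sub_cancel_left, norm_one] at this
    linarith
  have hx2 : ‖x‖ ≤ 2 := by
    have := norm_add_le v v'
    rw [hv, hv'] at this; linarith
  have hx0 : 0 < ‖x‖ := by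
    have := norm_inner_le_norm (𝕜 := ℂ) v x
    rw [hv, one_mul] at this
    linarith
  have hinv : (1 : ℝ) / 2 ≤ ‖x‖⁻¹ := by
    rw [one_div]; exact inv_anti₀ hx0 hx2
  refine ⟨((‖x‖⁻¹ : ℝ) : ℂ) • x, ?_, ?_, ?_⟩
  · rw [norm_smul, Complex.norm_real, norm_inv, norm_norm, inv_mul_cancel₀ hx0.ne']
  · rw [inner_smul_right, norm_mul, Complex.norm_real, norm_inv, norm_norm]
    nlinarith
  · rw [inner_smul_right, norm_mul, Complex.norm_real, norm_inv, norm_norm]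
    nlinarith

/-- the products `T 0 * T 1 * ... * T k` -/
noncomputable def chain (T : ℕ → V →L[ℂ] V) : ℕ → V →L[ℂ] V
  | 0 => T 0
  | k + 1 => chain T k * T (k + 1)

/-- contraction of cones -/
lemma cone {T : ℕ → V →L[ℂ] V} {u v : ℕ → V} {r ε : ℝ} (hr : 0 < r) (hr1 : r ≤ 1)
    (hε : 0 ≤ ε) (hε' : ε ≤ r ^ 2 / 8) (hu : ∀ j, ‖u j‖ = 1)
    (hT : ∀ j, ‖T j - rankOne ℂ (u j) (v j)‖ ≤ ε)
    (huv : ∀ j, r ≤ ‖inner ℂ (v j) (u (j + 1))‖) (hv : ∀ j, ‖v j‖ = 1) (k : ℕ) :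
    ∀ x : V, x ≠ 0 → r / 2 * ‖x‖ ≤ ‖inner ℂ (v k) x‖ →
      chain T k x ≠ 0 ∧ ∃ c : ℂ, ‖chain T k x - c • u 0‖ ≤ 4 * ε / r * ‖chain T k x‖ := by
  have step : ∀ j (x : V), ‖T j x - inner ℂ (v j) x • u j‖ ≤ ε * ‖x‖ := by
    intro j x
    have := ContinuousLinearMap.le_of_opNorm_le _ (hT j) x
    simpa using this
  have lower : ∀ j (x : V), ‖inner ℂ (v j) x‖ - ε * ‖x‖ ≤ ‖T j x‖ := by
    intro j x
    have h1 := norm_sub_norm_le (inner ℂ (v j) x • u j) (T j x)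
    rw [norm_sub_rev, norm_smul, hu, mul_one] at h1
    linarith [step j x]
  have upper : ∀ j (x : V), ‖T j x‖ ≤ ‖inner ℂ (v j) x‖ + ε * ‖x‖ := by
    intro j x
    have h1 := norm_sub_norm_le (T j x) (inner ℂ (v j) x • u j)
    rw [norm_smul, hu, mul_one] at h1
    linarith [step j x]
  have nonzero : ∀ j (x : V), x ≠ 0 → r / 2 * ‖x‖ ≤ ‖inner ℂ (v j) x‖ → r / 4 * ‖x‖ ≤ ‖T j x‖ := by
    intro j x hx h
    have h0 : 0 < ‖x‖ := norm_pos_iff.2 hx
    have := lower j x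
    have h1 : ε ≤ r / 8 := by nlinarith
    have h2 : ε * ‖x‖ ≤ r / 8 * ‖x‖ := mul_le_mul_of_nonneg_right h1 h0.le
    nlinarith
  induction k with
  | zero =>
    intro x hx h
    have h0 : 0 < ‖x‖ := norm_pos_iff.2 hx
    have h1 := nonzero 0 x hx h
    refine ⟨fun h2 => ?_, inner ℂ (v 0) x, ?_⟩
    · change T 0 x = 0 at h2
      rw [h2, norm_zero] at h1
      nlinarith
    · change ‖T 0 x - _‖ ≤ _ * ‖T 0 x‖
      refine (step 0 x).trans ?_
      rw [div_mul_eq_mul_div, le_div_iff₀ hr]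
      nlinarith
  | succ k ih =>
    intro x hx h
    have h0 : 0 < ‖x‖ := norm_pos_iff.2 hx
    have h1 := nonzero (k + 1) x hx h
    have hy : T (k + 1) x ≠ 0 := by
      intro h2
      rw [h2, norm_zero] at h1
      nlinarith
    refine ih (T (k + 1) x) hy ?_
    set t := ‖inner ℂ (v (k + 1)) x‖ with ht
    have h2 := upper (k + 1) x
    have h3 := step (k + 1) x
    have h4 : r * t - ε * ‖x‖ ≤ ‖inner ℂ (v k) (T (k + 1) x)‖ := by
      have e : inner ℂ (v k) (T (k + 1) x) = inner ℂ (v (k + 1)) x * inner ℂ (v k) (u (k + 1)) +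
          inner ℂ (v k) (T (k + 1) x - inner ℂ (v (k + 1)) x • u (k + 1)) := by
        rw [inner_sub_right, inner_smul_right]; ring
      have h5 : ‖inner ℂ (v k) (T (k + 1) x - inner ℂ (v (k + 1)) x • u (k + 1))‖ ≤ ε * ‖x‖ := by
        refine (norm_inner_le_norm _ _).trans ?_
        rw [hv, one_mul]; exact h3
      have h6 := norm_sub_norm_le (inner ℂ (v (k + 1)) x * inner ℂ (v k) (u (k + 1)))
        (-(inner ℂ (v k) (T (k + 1) x - inner ℂ (v (k + 1)) x • u (k + 1))))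
      rw [sub_neg_eq_add, ← e, norm_neg, norm_mul] at h6
      have h7 : t * r ≤ t * ‖inner ℂ (v k) (u (k + 1))‖ :=
        mul_le_mul_of_nonneg_left (huv k) (norm_nonneg _)
      linarith
    have h5 : ε * ‖x‖ ≤ r ^ 2 / 8 * ‖x‖ := mul_le_mul_of_nonneg_right hε' h0.le
    have h6 : r / 2 * ‖T (k + 1) x‖ ≤ r / 2 * (t + ε * ‖x‖) :=
      mul_le_mul_of_nonneg_left h2 (by positivity)
    have h7 : r / 2 * (r / 2 * ‖x‖) ≤ r / 2 * t := mul_le_mul_of_nonneg_left h (by positivity)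
    have h8 : r / 2 * (ε * ‖x‖) ≤ 1 / 2 * (ε * ‖x‖) :=
      mul_le_mul_of_nonneg_right (by linarith) (by positivity)
    have h9 : 0 ≤ r ^ 2 * ‖x‖ := by positivity
    nlinarith

theorem close [FiniteDimensional ℂ V] [CompleteSpace V] [IsTopologicalGroup G]
    {ρ : Γ →* (V →L[ℂ] V)} (E : EData s ρ) (hcpt : IsCompact {g | s.L g ≤ s.B}) {η : ℝ}
    (hη : 0 < η) : ∃ R ε : ℝ, 0 < ε ∧ ∀ ρ' : Γ →* (V →L[ℂ] V),
      (∀ γ, s.L (s.φ γ) ≤ R → ‖ρ' γ - ρ γ‖ ≤ ε) → ∀ E' : EData s ρ', ∀ g, s.L g ≤ s.B →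
        ‖E'.P g - E.P g‖ ≤ η := by
  obtain ⟨D, hDu, hDc⟩ := E.exists_dual
  obtain ⟨r₀', hr₀', hr₀⟩ := transverse_uniform E D hDu hDc hcpt
  set r₀ := min r₀' 1 with hr₀def
  have hr₀pos : 0 < r₀ := lt_min hr₀' one_pos
  have hr₀1 : r₀ ≤ 1 := min_le_right _ _
  have hr₀le : ∀ g, s.L g ≤ s.B → r₀ ≤ ‖D.P g * E.P g‖ := fun g hg =>
    (min_le_left _ _).trans (hr₀ g hg)
  set r := r₀ / 2 with hr
  have hrpos : 0 < r := by positivity
  set ε₁ := min (r ^ 2 / 8) (r * η / 32) with hε₁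
  have hε₁pos : 0 < ε₁ := lt_min (by positivity) (by positivity)
  -- choose the time
  have hlim : ∀ K : ℝ, Tendsto (fun n : ℕ => K * Real.exp (-(E.c * n))) atTop (𝓝 0) := by
    intro K
    have := (Real.tendsto_exp_neg_atTop_nhds_zero.comp
      (tendsto_natCast_atTop_atTop.const_mul_atTop E.hc)).const_mul K
    simpa using this
  obtain ⟨N, ⟨hN1, hN2⟩, ⟨hN3, hN4⟩, hN5⟩ :=
    ((((tendsto_order.1 (hlim (D.C' * Real.exp (E.c * s.B)))).2 (r₀ / 4) (by positivity)).and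
      ((tendsto_order.1 (hlim (E.C' * Real.exp (E.c * s.B)))).2 (r₀ / 4) (by positivity))).and
      ((((tendsto_order.1 (hlim (E.C' * Real.exp (E.c * s.B)))).2 (η / 2) (by positivity)).and
      ((tendsto_order.1 (hlim (E.C * Real.exp (2 * (E.c * s.B))))).2 (ε₁ / 2)
        (by positivity))).and (eventually_ge_atTop 1))).exists
  refine ⟨2 * s.B + s.L (s.a ^ N), ε₁ / 2, by positivity, ?_⟩
  intro ρ' hρ' E' g hg
  -- the good elements
  choose w₁ hw₁ using s.exists_good' g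
  set w : ℕ → Γ := fun n => if n = 0 then 1 else w₁ n with hwdef
  have hw0 : w 0 = 1 := by simp [hwdef]
  have hw : ∀ n, s.good g n (w n) := by
    intro n
    by_cases h : n = 0
    · subst h
      rw [hw0]; unfold Setup.good; simpa using hg
    · simp only [hwdef, if_neg h]; exact hw₁ n
  set δ : ℕ → Γ := fun j => (w (j * N))⁻¹ * w ((j + 1) * N) with hδ
  set h : ℕ → G := fun j => s.φ (w (j * N))⁻¹ * (g * s.a ^ (j * N)) with hh
  have hLh : ∀ j, s.L (h j) ≤ s.B := by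
    intro j
    have := hw (j * N)
    unfold Setup.good at this
    rw [mul_assoc] at this
    rw [hh]; simpa using this
  have good1 : ∀ j, s.good (h j) N (δ j) := by
    intro j
    have := hw ((j + 1) * N)
    unfold Setup.good at *
    have e : (s.φ (δ j))⁻¹ * h j * s.a ^ N = (s.φ (w ((j + 1) * N)))⁻¹ * g * s.a ^ ((j + 1) * N) := by
      simp only [hh, hδ, add_mul, one_mul, pow_add, map_mul, map_inv]; group
    rw [e]; exact this
  have good2 : ∀ j, s.rev.good (h (j + 1)) N (δ j)⁻¹ := by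
    intro j
    have := hw (j * N)
    unfold Setup.good at *
    have e : (s.rev.φ (δ j)⁻¹)⁻¹ * h (j + 1) * s.rev.a ^ N =
        (s.φ (w (j * N)))⁻¹ * g * s.a ^ (j * N) := by
      change (s.φ (δ j)⁻¹)⁻¹ * (s.φ (w ((j + 1) * N))⁻¹ * (g * s.a ^ ((j + 1) * N))) * s.a⁻¹ ^ N = _
      simp only [hδ, add_mul, one_mul, pow_add, map_mul, map_inv]; group
    rw [e]; exact this
  have hδR : ∀ j, s.L (s.φ (δ j)) ≤ 2 * s.B + s.L (s.a ^ N) := by
    intro j
    have h1 := hw ((j + 1) * N)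
    rw [add_mul, one_mul] at h1
    have := s.good_diff (hw (j * N)) h1
    simpa only [hδ, add_mul, one_mul] using this
  set u : ℕ → V := fun j => E.u (δ j) with hu
  set v : ℕ → V := fun j => E.v (δ j) with hv
  have hu1 : ∀ j, ‖u j‖ = 1 := fun j => (E.gap _).hu
  have hv1 : ∀ j, ‖v j‖ = 1 := fun j => (E.gap _).hv
  have hκ : ∀ j, E.C * Real.exp (-(E.c * s.L (s.φ (δ j)))) ≤ ε₁ / 2 := by
    intro j
    refine le_trans ?_ hN4.le
    rw [mul_assoc, ← Real.exp_add]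
    refine mul_le_mul_of_nonneg_left (Real.exp_le_exp.2 ?_) E.hC.le
    have := s.good_len (good1 j)
    have := hLh j
    have := E.hc
    nlinarith
  have huP : ∀ j, ‖pr (u j) - E.P (h j)‖ ≤ E.C' * Real.exp (E.c * s.B) * Real.exp (-(E.c * N)) := by
    intro j
    refine (E.est (h j) N _ (good1 j)).trans ?_
    have := hLh j
    have := E.hC'
    have := E.hc
    gcongr
  have hvP : ∀ j, ‖pr (v j) - D.P (h (j + 1))‖ ≤
      D.C' * Real.exp (E.c * s.B) * Real.exp (-(E.c * N)) := by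
    intro j
    have := D.est (h (j + 1)) N _ (good2 j)
    rw [hDu, inv_inv, hDc] at this
    refine this.trans ?_
    have h1 : s.rev.L (h (j + 1)) ≤ s.B := hLh _
    have := D.hC'
    have := E.hc
    gcongr
  have huv : ∀ j, r ≤ ‖inner ℂ (v j) (u (j + 1))‖ := by
    intro j
    rw [← pr_mul_pr_norm (hv1 j) (hu1 (j + 1))]
    have e : D.P (h (j + 1)) * E.P (h (j + 1)) = pr (v j) * pr (u (j + 1)) -
        ((pr (v j) - D.P (h (j + 1))) * pr (u (j + 1)) +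
        D.P (h (j + 1)) * (pr (u (j + 1)) - E.P (h (j + 1)))) := by
      noncomm_ring
    have h1 := hr₀le _ (hLh (j + 1))
    rw [e] at h1
    have h2 : ‖(pr (v j) - D.P (h (j + 1))) * pr (u (j + 1))‖ ≤ r₀ / 4 := by
      refine (norm_mul_le _ _).trans ?_
      rw [pr_norm (hu1 _), mul_one]
      exact (hvP j).trans hN1.le
    have h3 : ‖D.P (h (j + 1)) * (pr (u (j + 1)) - E.P (h (j + 1)))‖ ≤ r₀ / 4 := by
      refine (norm_mul_le _ _).trans ?_
      rw [D.norm_P_le, one_mul]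
      exact (huP (j + 1)).trans hN2.le
    have h4 := norm_sub_le (pr (v j) * pr (u (j + 1)))
      ((pr (v j) - D.P (h (j + 1))) * pr (u (j + 1)) +
        D.P (h (j + 1)) * (pr (u (j + 1)) - E.P (h (j + 1))))
    have h5 := norm_add_le_of_le h2 h3
    linarith
  set T : ℕ → V →L[ℂ] V := fun j => ((‖ρ (δ j)‖⁻¹ : ℝ) : ℂ) • ρ' (δ j) with hT
  have hpos : ∀ j, 0 < ‖ρ (δ j)‖ := fun j => lt_of_lt_of_le one_pos (E.one_le _)
  have hTr : ∀ j, ‖T j - rankOne ℂ (u j) (v j)‖ ≤ ε₁ := by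
    intro j
    have e : T j - rankOne ℂ (u j) (v j) = ((‖ρ (δ j)‖⁻¹ : ℝ) : ℂ) • ((ρ' (δ j) - ρ (δ j)) +
        (ρ (δ j) - (‖ρ (δ j)‖ : ℂ) • rankOne ℂ (u j) (v j))) := by
      have : (‖ρ (δ j)‖ : ℂ) ≠ 0 := by exact_mod_cast (hpos j).ne'
      simp only [hT]
      rw [sub_add_sub_cancel, smul_sub, smul_smul]
      push_cast
      rw [inv_mul_cancel₀ this, one_smul]
    rw [e, norm_smul, Complex.norm_real, norm_inv, norm_norm, inv_mul_le_iff₀ (hpos j)]
    have h1 := hρ' _ (hδR j)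
    have h2 := (E.gap (δ j)).bd
    have h3 : ε₁ / 2 ≤ ‖ρ (δ j)‖ * (ε₁ / 2) := by
      have := E.one_le (δ j)
      nlinarith
    have h4 : E.C * Real.exp (-(E.c * s.L (s.φ (δ j)))) * ‖ρ (δ j)‖ ≤ ‖ρ (δ j)‖ * (ε₁ / 2) := by
      rw [mul_comm]
      exact mul_le_mul_of_nonneg_left (hκ j) (norm_nonneg _)
    refine (norm_add_le_of_le (h1.trans h3) (h2.trans h4)).trans (le_of_eq ?_)
    ring
  have hchain : ∀ k, ∃ l : ℂ, l ≠ 0 ∧ chain T k = l • ρ' (w ((k + 1) * N)) := by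
    intro k
    induction k with
    | zero =>
      refine ⟨((‖ρ (δ 0)‖⁻¹ : ℝ) : ℂ), ?_, ?_⟩
      · exact_mod_cast (inv_pos.2 (hpos 0)).ne'
      · change T 0 = _
        simp [hT, hδ, hw0]
    | succ k ih =>
      obtain ⟨l, hl, hk⟩ := ih
      refine ⟨l * ((‖ρ (δ (k + 1))‖⁻¹ : ℝ) : ℂ), mul_ne_zero hl ?_, ?_⟩
      · exact_mod_cast (inv_pos.2 (hpos (k + 1))).ne'
      · change chain T k * T (k + 1) = _
        rw [hk]
        simp only [hT]
        rw [smul_mul_smul_comm, ← map_mul]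
        congr 2
        simp only [hδ]
        group
  -- the key estimate
  have key : ∀ k : ℕ, ‖pr (E'.u (w ((k + 1) * N))) - pr (u 0)‖ ≤
      4 * (3 * (E'.C * Real.exp (-(E'.c * s.L (s.φ (w ((k + 1) * N)))))) +
        (1 + 3 * (E'.C * Real.exp (-(E'.c * s.L (s.φ (w ((k + 1) * N))))))) * (4 * ε₁ / r)) := by
    intro k
    set κ := E'.C * Real.exp (-(E'.c * s.L (s.φ (w ((k + 1) * N))))) with hκdef
    have hκ0 : 0 ≤ κ := by have := E'.hC; positivity
    have g' := E'.gap (w ((k + 1) * N))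
    rw [← hκdef] at g'
    obtain ⟨x, hx, hx1, hx2⟩ := exists_generic (hv1 k) g'.hv
    obtain ⟨l, hl, hk⟩ := hchain k
    have hr1 : r ≤ 1 := by linarith
    obtain ⟨hy0, c, hc⟩ := cone (T := T) (u := u) (v := v) hrpos hr1 hε₁pos.le (min_le_left _ _)
      hu1 hTr huv hv1 k x (by intro h0; rw [h0, norm_zero] at hx; exact zero_ne_one hx)
      (by rw [hx]; linarith)
    set y := chain T k x with hy
    set A := ρ' (w ((k + 1) * N)) with hA
    have hApos : 0 < ‖A‖ := lt_of_lt_of_le one_pos (E'.one_le _)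
    have e1 : A x = l⁻¹ • y := by
      rw [hy, hk, _root_.smul_apply, smul_smul, inv_mul_cancel₀ hl, one_smul]
    have h1 := g'.apply_le x
    rw [hx, mul_one] at h1
    set q : ℂ := (‖A‖ : ℂ) * inner ℂ (E'.v (w ((k + 1) * N))) x with hq
    have hqn : ‖A‖ * (1 / 3) ≤ ‖q‖ := by
      rw [hq, norm_mul, Complex.norm_real, norm_norm]
      exact mul_le_mul_of_nonneg_left hx2 hApos.le
    have hq0 : 0 < ‖q‖ := by nlinarith
    have hq0' : q ≠ 0 := norm_pos_iff.1 hq0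
    have h2 : ‖E'.u (w ((k + 1) * N)) - (q⁻¹ * l⁻¹) • y‖ ≤ 3 * κ := by
      have e : E'.u (w ((k + 1) * N)) - (q⁻¹ * l⁻¹) • y = -(q⁻¹ • (A x - q • E'.u (w ((k + 1) * N)))) := by
        rw [e1, smul_sub, smul_smul, smul_smul, inv_mul_cancel₀ hq0', one_smul]; abel
      rw [e, norm_neg, norm_smul, norm_inv, inv_mul_le_iff₀ hq0]
      refine h1.trans ?_
      nlinarith
    have h3 : ‖(q⁻¹ * l⁻¹) • y‖ ≤ 1 + 3 * κ := by
      have := norm_sub_norm_le ((q⁻¹ * l⁻¹) • y) (E'.u (w ((k + 1) * N)))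
      rw [norm_sub_rev, g'.hu] at this
      linarith
    have h4 : ‖E'.u (w ((k + 1) * N)) - (q⁻¹ * l⁻¹ * c) • u 0‖ ≤
        3 * κ + (1 + 3 * κ) * (4 * ε₁ / r) := by
      have e : E'.u (w ((k + 1) * N)) - (q⁻¹ * l⁻¹ * c) • u 0 =
          (E'.u (w ((k + 1) * N)) - (q⁻¹ * l⁻¹) • y) + (q⁻¹ * l⁻¹) • (y - c • u 0) := by
        rw [smul_sub, smul_smul]; abel
      rw [e]
      refine norm_add_le_of_le h2 ?_
      rw [norm_smul] at h3 ⊢
      have h5 : ‖q⁻¹ * l⁻¹‖ * ‖y - c • u 0‖ ≤ ‖q⁻¹ * l⁻¹‖ * (4 * ε₁ / r * ‖y‖) :=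
        mul_le_mul_of_nonneg_left hc (norm_nonneg _)
      have h6 : 0 ≤ 4 * ε₁ / r := by positivity
      refine h5.trans ?_
      nlinarith
    have hu00 : u 0 ≠ 0 := by
      intro h0
      have := hu1 0
      rw [h0, norm_zero] at this
      exact zero_ne_one this
    exact (pr_sub_le g'.hu hu00 _).trans (mul_le_mul_of_nonneg_left h4 (by norm_num))
  have hsub : Tendsto (fun k : ℕ => (k + 1) * N) atTop atTop := by
    refine tendsto_atTop_mono (fun k => ?_) tendsto_id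
    have : k + 1 ≤ (k + 1) * N := Nat.le_mul_of_pos_right _ (by omega)
    simp only [id]
    omega
  have t1 : Tendsto (fun k : ℕ => ‖pr (E'.u (w ((k + 1) * N))) - pr (u 0)‖) atTop
      (𝓝 ‖E'.P g - pr (u 0)‖) :=
    (((E'.tendsto_of_good hw).comp hsub).sub_const _).norm
  have t2 : Tendsto (fun k : ℕ => 4 * (3 * (E'.C * Real.exp (-(E'.c * s.L (s.φ (w ((k + 1) * N)))))) +
        (1 + 3 * (E'.C * Real.exp (-(E'.c * s.L (s.φ (w ((k + 1) * N))))))) * (4 * ε₁ / r))) atTop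
      (𝓝 (4 * (3 * 0 + (1 + 3 * 0) * (4 * ε₁ / r)))) := by
    have t3 := (E'.kappa_tendsto hw).comp hsub
    have t4 := ((t3.const_mul 3).add (((t3.const_mul 3).const_add 1).mul_const
      (4 * ε₁ / r))).const_mul 4
    exact t4
  have h1 := le_of_tendsto_of_tendsto' t1 t2 key
  have h2 : 4 * (3 * 0 + (1 + 3 * 0) * (4 * ε₁ / r)) ≤ η / 2 := by
    have : ε₁ ≤ r * η / 32 := min_le_right _ _
    rw [mul_zero, zero_add, add_zero, one_mul, ← mul_div_assoc, div_le_iff₀ hrpos]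
    linarith
  have h3 : ‖pr (u 0) - E.P g‖ ≤ η / 2 := by
    have h4 := E.est g N (δ 0) (by
      have := hw ((0 + 1) * N)
      rw [zero_add, one_mul] at this
      simpa [hδ, hw0] using this)
    refine h4.trans (le_trans ?_ hN3.le)
    have := E.hC'
    have := E.hc
    gcongr
  calc ‖E'.P g - E.P g‖ ≤ ‖E'.P g - pr (u 0)‖ + ‖pr (u 0) - E.P g‖ :=
        norm_sub_le_norm_sub_add_norm_sub _ _ _
    _ ≤ η / 2 + η / 2 := add_le_add (h1.trans h2) h3
    _ = η := by ring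

end Pool.Agent.W2helper8.AN
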