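import Mathlib

/-!
# Anosov representations into `SL(3, ℂ)` and two Fuchsian points: definitions
-/

set_option autoImplicit false

open Matrix MatrixGroups

namespace Pool.Agent.W2helper8.AN

/-- the second symmetric power, in the basis `e², √2 e f, f²` -/
noncomputable def rho3 : SL(2, ℝ) →* SpecialLinearGroup (Fin 3) ℂ where
  toFun g := ⟨!![(g 0 0 : ℂ) ^ 2, (√2 : ℂ) * g 0 0 * g 0 1, (g 0 1 : ℂ) ^ 2;
      (√2 : ℂ) * g 0 0 * g 1 0, (g 0 0 : ℂ) * g 1 1 + g 0 1 * g 1 0, (√2 : ℂ) * g 0 1 * g 1 1;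
      (g 1 0 : ℂ) ^ 2, (√2 : ℂ) * g 1 0 * g 1 1, (g 1 1 : ℂ) ^ 2], by
    have hd := Matrix.SpecialLinearGroup.det_coe g
    rw [Matrix.det_fin_two] at hd
    have hd' : (g 0 0 : ℂ) * g 1 1 - g 0 1 * g 1 0 = 1 := by exact_mod_cast hd
    have h2 : (√2 : ℂ) ^ 2 = 2 := by exact_mod_cast Real.sq_sqrt (by norm_num : (0 : ℝ) ≤ 2)
    rw [Matrix.det_fin_three]
    simp
    set a : ℂ := (g 0 0 : ℂ)
    set b : ℂ := (g 0 1 : ℂ)
    set c : ℂ := (g 1 0 : ℂ)
    set d : ℂ := (g 1 1 : ℂ)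
    linear_combination (-(a ^ 2 * b * d ^ 2 * c) + a * b ^ 2 * c ^ 2 * d + b ^ 2 * c ^ 2 * a * d -
      a ^ 2 * b * c * d ^ 2) * h2 +
      ((a * d - b * c) ^ 2 + (a * d - b * c) + 1) * hd'⟩
  map_one' := by
    ext i j
    fin_cases i <;> fin_cases j <;> simp
  map_mul' g h := by
    have h2 : (√2 : ℂ) ^ 2 = 2 := by exact_mod_cast Real.sq_sqrt (by norm_num : (0 : ℝ) ≤ 2)
    have h3 : (√2 : ℂ) * √2 = 2 := by rw [← h2]; ring
    ext i j
    fin_cases i <;> fin_cases j <;>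
      simp [Matrix.mul_apply, Fin.sum_univ_two, Fin.sum_univ_three]
    · linear_combination (-(g 0 0 : ℂ) * g 0 1 * h 0 0 * h 1 0) * h2
    · ring
    · linear_combination (-(g 0 0 : ℂ) * g 0 1 * h 0 1 * h 1 1) * h2
    · ring
    · linear_combination (-(g 0 0 : ℂ) * g 1 0 * h 0 0 * h 0 1 - g 0 1 * g 1 1 * h 1 0 * h 1 1) * h2
    · ring
    · linear_combination (-(g 1 0 : ℂ) * g 1 1 * h 0 0 * h 1 0) * h2
    · ring
    · linear_combination (-(g 1 0 : ℂ) * g 1 1 * h 0 1 * h 1 1) * h2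

/-- the sum of the standard representation and the trivial one -/
noncomputable def rho21 : SL(2, ℝ) →* SpecialLinearGroup (Fin 3) ℂ where
  toFun g := ⟨!![(g 0 0 : ℂ), g 0 1, 0; (g 1 0 : ℂ), g 1 1, 0; 0, 0, 1], by
    have hd := Matrix.SpecialLinearGroup.det_coe g
    rw [Matrix.det_fin_two] at hd
    have hd' : (g 0 0 : ℂ) * g 1 1 - g 0 1 * g 1 0 = 1 := by exact_mod_cast hd
    rw [Matrix.det_fin_three]
    simp
    linear_combination hd'⟩
  map_one' := by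
    ext i j
    fin_cases i <;> fin_cases j <;> simp
  map_mul' g h := by
    ext i j
    fin_cases i <;> fin_cases j <;>
      simp [Matrix.mul_apply, Fin.sum_univ_two, Fin.sum_univ_three]

/-- The word length of `γ` with respect to `S`: the least length of a word in the elements of `S`
and their inverses with product `γ`. -/
noncomputable def wordLength {Γ : Type*} [Group Γ] (S : Set Γ) (γ : Γ) : ℕ :=
  sInf {n | ∃ l : List Γ, l.length = n ∧ (∀ x ∈ l, x ∈ S ∨ x⁻¹ ∈ S) ∧ l.prod = γ}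

/-- The singular value `σ_{k+1}(A)` of `A`, for the standard Hermitian form of `ℂ³`. -/
noncomputable def sigma (k : ℕ) (A : SpecialLinearGroup (Fin 3) ℂ) : ℝ :=
  (Matrix.toEuclideanLin (A : Matrix (Fin 3) (Fin 3) ℂ)).singularValues k

/-- `ρ` is `{1, 2}`-Anosov: there are `C, c > 0` with
`σ_k(ρ γ) / σ_{k+1}(ρ γ) ≥ C exp (c |γ|)` for all `γ` and `k = 1, 2`. (With `sigma` indexed from
`0`, the two ratios are `sigma 0 / sigma 1` and `sigma 1 / sigma 2`.) -/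
def IsAnosov {Γ : Type*} [Group Γ] (S : Set Γ) (ρ : Γ →* SpecialLinearGroup (Fin 3) ℂ) : Prop :=
  ∃ C c : ℝ, 0 < C ∧ 0 < c ∧ ∀ γ : Γ,
    C * Real.exp (c * wordLength S γ) ≤ sigma 0 (ρ γ) / sigma 1 (ρ γ) ∧
    C * Real.exp (c * wordLength S γ) ≤ sigma 1 (ρ γ) / sigma 2 (ρ γ)

/-- The `{1, 2}`-Anosov representations, as a subset of the space of all maps `Γ → SL(3, ℂ)` with
the topology of pointwise convergence. -/
def anosovLocus {Γ : Type*} [Group Γ] (S : Set Γ) : Set (Γ → SpecialLinearGroup (Fin 3) ℂ) :=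
  {f | ∃ ρ : Γ →* SpecialLinearGroup (Fin 3) ℂ, IsAnosov S ρ ∧ f = ρ}

end Pool.Agent.W2helper8.AN
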