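import Pool.Agent.W2helper8.AN.Lin

/-!
# Limit lines along a flow
-/

set_option autoImplicit false

open InnerProductSpace ContinuousLinearMap Filter Topology

namespace Pool.Agent.W2helper8.AN

/-- A discrete group `Γ` acting cocompactly on the left of `G`, with a length function `L` on `G`
and a flow on the right, given by the powers of `a`. -/
structure Setup (Γ G : Type*) [Group Γ] [Group G] [TopologicalSpace G] where
  φ : Γ →* G
  L : G → ℝ
  a : G
  L_nonneg : ∀ g, 0 ≤ L g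
  L_mul : ∀ g h, L (g * h) ≤ L g + L h
  L_inv : ∀ g, L g⁻¹ = L g
  L_cont : Continuous L
  fin : ∀ R : ℝ, {γ : Γ | L (φ γ) ≤ R}.Finite
  B : ℝ
  cov : ∀ g, ∃ γ, L ((φ γ)⁻¹ * g) ≤ B - 1
  a_len : ∀ n : ℕ, (n : ℝ) ≤ L (a ^ n)

variable {Γ G : Type*} [Group Γ] [Group G] [TopologicalSpace G] (s : Setup Γ G)

namespace Setup

/-- the reversed flow -/
def rev : Setup Γ G where
  φ := s.φ
  L := s.L
  a := s.a⁻¹
  L_nonneg := s.L_nonneg
  L_mul := s.L_mul
  L_inv := s.L_inv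
  L_cont := s.L_cont
  fin := s.fin
  B := s.B
  cov := s.cov
  a_len := fun n => by rw [inv_pow, s.L_inv]; exact s.a_len n

/-- `φ γ` is close to `g * a ^ n` -/
def good (g : G) (n : ℕ) (γ : Γ) : Prop := s.L ((s.φ γ)⁻¹ * g * s.a ^ n) ≤ s.B

lemma exists_good (g : G) (n : ℕ) : ∃ γ, s.L ((s.φ γ)⁻¹ * g * s.a ^ n) ≤ s.B - 1 := by
  obtain ⟨γ, h⟩ := s.cov (g * s.a ^ n)
  exact ⟨γ, by rwa [← mul_assoc] at h⟩

lemma exists_good' (g : G) (n : ℕ) : ∃ γ, s.good g n γ := by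
  obtain ⟨γ, h⟩ := s.exists_good g n
  exact ⟨γ, h.trans (by linarith)⟩

lemma B_pos : 1 ≤ s.B := by
  obtain ⟨γ, h⟩ := s.cov 1
  linarith [s.L_nonneg ((s.φ γ)⁻¹ * 1)]

lemma good_mul {g : G} {n : ℕ} {γ : Γ} (h : s.good g n γ) (δ : Γ) :
    s.good (s.φ δ * g) n (δ * γ) := by
  unfold good at *
  rw [map_mul]
  have : (s.φ δ * s.φ γ)⁻¹ * (s.φ δ * g) * s.a ^ n = (s.φ γ)⁻¹ * g * s.a ^ n := by group
  rwa [this]

lemma good_len {g : G} {n : ℕ} {γ : Γ} (h : s.good g n γ) :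
    (n : ℝ) - s.L g - s.B ≤ s.L (s.φ γ) := by
  have h1 : s.a ^ n = g⁻¹ * (s.φ γ * ((s.φ γ)⁻¹ * g * s.a ^ n)) := by group
  have h2 := s.a_len n
  rw [h1] at h2
  have h3 := s.L_mul g⁻¹ (s.φ γ * ((s.φ γ)⁻¹ * g * s.a ^ n))
  have h4 := s.L_mul (s.φ γ) ((s.φ γ)⁻¹ * g * s.a ^ n)
  have h5 := s.L_inv g
  unfold good at h
  linarith

lemma good_shift {g : G} {m n : ℕ} {γ : Γ} (h : s.good g (m + n) γ) :
    s.good (g * s.a ^ m) n γ := by
  unfold good at *
  rwa [pow_add, ← mul_assoc, mul_assoc _ g] at h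

lemma good_shift' {g : G} {m n : ℕ} {γ : Γ} (h : s.good (g * s.a ^ m) n γ) :
    s.good g (m + n) γ := by
  unfold good at *
  rwa [pow_add, ← mul_assoc, mul_assoc _ g]

lemma good_diff {g : G} {n k : ℕ} {γ γ' : Γ} (h : s.good g n γ) (h' : s.good g (n + k) γ') :
    s.L (s.φ (γ⁻¹ * γ')) ≤ 2 * s.B + s.L (s.a ^ k) := by
  unfold good at *
  have h1 : s.φ (γ⁻¹ * γ') = ((s.φ γ)⁻¹ * g * s.a ^ n) * (s.a ^ k *
      ((s.φ γ')⁻¹ * g * s.a ^ (n + k))⁻¹) := by
    rw [pow_add, map_mul, map_inv]; group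
  rw [h1]
  have h2 := s.L_mul ((s.φ γ)⁻¹ * g * s.a ^ n) (s.a ^ k * ((s.φ γ')⁻¹ * g * s.a ^ (n + k))⁻¹)
  have h3 := s.L_mul (s.a ^ k) ((s.φ γ')⁻¹ * g * s.a ^ (n + k))⁻¹
  have h4 := s.L_inv ((s.φ γ')⁻¹ * g * s.a ^ (n + k))
  linarith

lemma L_pow_le (k : ℕ) : s.L (s.a ^ k) ≤ (k + 1) * (s.L s.a + s.L 1) := by
  induction k with
  | zero => simp; exact s.L_nonneg _
  | succ k ih =>
    rw [pow_succ]
    have := s.L_mul (s.a ^ k) s.a
    push_cast
    nlinarith [s.L_nonneg 1, s.L_nonneg s.a]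

end Setup

variable {V : Type*} [NormedAddCommGroup V] [InnerProductSpace ℂ V]

/-- a bound for the norms of `ρ γ`, `L (φ γ) ≤ R` -/
lemma exists_bound (ρ : Γ →* (V →L[ℂ] V)) (R : ℝ) :
    ∃ K : ℝ, 1 ≤ K ∧ ∀ γ, s.L (s.φ γ) ≤ R → ‖ρ γ‖ ≤ K ∧ ‖ρ γ⁻¹‖ ≤ K := by
  obtain ⟨K, hK⟩ := ((s.fin R).image fun γ => ‖ρ γ‖ + ‖ρ γ⁻¹‖).bddAbove
  refine ⟨max K 1, le_max_right _ _, fun γ hγ => ?_⟩
  have : ‖ρ γ‖ + ‖ρ γ⁻¹‖ ≤ K := hK ⟨γ, hγ, rfl⟩
  have h1 := norm_nonneg (ρ γ)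
  have h2 := norm_nonneg (ρ γ⁻¹)
  have h3 := le_max_left K 1
  constructor <;> linarith

lemma rho_inv_mul (ρ : Γ →* (V →L[ℂ] V)) (γ : Γ) : ρ γ⁻¹ * ρ γ = 1 := by
  rw [← map_mul, inv_mul_cancel, map_one]

lemma rho_mul_inv (ρ : Γ →* (V →L[ℂ] V)) (γ : Γ) : ρ γ * ρ γ⁻¹ = 1 := by
  rw [← map_mul, mul_inv_cancel, map_one]

/-- the data of a uniform gap together with the limit lines -/
structure EData (ρ : Γ →* (V →L[ℂ] V)) where
  C : ℝ
  c : ℝ
  hC : 0 < C
  hc : 0 < c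
  one_le : ∀ γ, 1 ≤ ‖ρ γ‖
  u : Γ → V
  v : Γ → V
  gap : ∀ γ, Gap (ρ γ) (C * Real.exp (-(c * s.L (s.φ γ)))) (u γ) (v γ)
  P : G → V →L[ℂ] V
  C' : ℝ
  hC' : 0 < C'
  est : ∀ g n γ, s.good g n γ →
    ‖pr (u γ) - P g‖ ≤ C' * Real.exp (c * s.L g) * Real.exp (-(c * n))

/-- a representation with a uniform gap has limit lines -/
theorem exists_EData' (ρ : Γ →* (V →L[ℂ] V)) [CompleteSpace V] {C c : ℝ} (hC : 0 < C) (hc : 0 < c)
    (one_le : ∀ γ, 1 ≤ ‖ρ γ‖) (u v : Γ → V)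
    (huv : ∀ γ, Gap (ρ γ) (C * Real.exp (-(c * s.L (s.φ γ)))) (u γ) (v γ)) :
    ∃ E : EData s ρ, E.u = u ∧ E.v = v ∧ E.C = C ∧ E.c = c := by
  obtain ⟨K, hK1, hK⟩ := exists_bound s ρ (2 * s.B + s.L s.a)
  have hB := s.B_pos
  have hκ : ∀ g n γ, s.good g n γ → C * Real.exp (-(c * s.L (s.φ γ))) ≤
      C * Real.exp (c * s.B) * (Real.exp (c * s.L g) * Real.exp (-(c * n))) := by
    intro g n γ h
    rw [mul_assoc, ← Real.exp_add, ← Real.exp_add]
    refine mul_le_mul_of_nonneg_left (Real.exp_le_exp.2 ?_) hC.le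
    have := s.good_len h
    nlinarith
  have cmp : ∀ g n m γ γ', s.good g n γ → s.good g m γ' → n ≤ m → m ≤ n + 1 →
      ‖pr (u γ) - pr (u γ')‖ ≤ 4 * (1 + K ^ 2) * (C * Real.exp (c * s.B)) *
        (Real.exp (c * s.L g) * Real.exp (-(c * n))) := by
    intro g n m γ γ' h h' hnm hmn
    have hR : s.L (s.φ (γ⁻¹ * γ')) ≤ 2 * s.B + s.L s.a := by
      rcases Nat.lt_or_ge n m with hlt | hge
      · have : m = n + 1 := by omega
        subst this
        have := s.good_diff h h'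
        rwa [pow_one] at this
      · have : m = n + 0 := by omega
        rw [this] at h'
        have h1 := s.good_diff (k := 0) h h'
        -- use the two good elements directly
        have h2 : s.φ (γ⁻¹ * γ') = ((s.φ γ)⁻¹ * g * s.a ^ n) *
            ((s.φ γ')⁻¹ * g * s.a ^ (n + 0))⁻¹ := by
          rw [add_zero, map_mul, map_inv]; group
        have h3 := s.L_mul ((s.φ γ)⁻¹ * g * s.a ^ n) ((s.φ γ')⁻¹ * g * s.a ^ (n + 0))⁻¹
        have h4 := s.L_inv ((s.φ γ')⁻¹ * g * s.a ^ (n + 0))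
        unfold Setup.good at h h'
        rw [h2]
        linarith [s.L_nonneg s.a]
    obtain ⟨k1, k2⟩ := hK _ hR
    have e1 : ρ γ' = 1 * ρ γ * ρ (γ⁻¹ * γ') := by
      rw [one_mul, ← map_mul, mul_inv_cancel_left]
    have g1 := huv γ
    have g2 := huv γ'
    rw [e1] at g2
    have hpos : 0 < ‖1 * ρ γ * ρ (γ⁻¹ * γ')‖ := by
      rw [← e1]; exact lt_of_lt_of_le one_pos (one_le γ')
    have key := g1.mul_left (B := 1) (Bi := 1) (C := ρ (γ⁻¹ * γ')) (Ci := ρ (γ⁻¹ * γ')⁻¹)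
      (by simp) (rho_mul_inv ρ _) (by positivity) hpos g2
    have hone : ‖(1 : V →L[ℂ] V)‖ * ‖(1 : V →L[ℂ] V)‖ ≤ 1 := by
      have : ‖(1 : V →L[ℂ] V)‖ ≤ 1 := ContinuousLinearMap.norm_id_le
      nlinarith [norm_nonneg (1 : V →L[ℂ] V)]
    rw [norm_sub_rev]
    refine key.trans ?_
    have e2 := hκ g n γ h
    have e3 : C * Real.exp (-(c * s.L (s.φ γ'))) ≤
        C * Real.exp (c * s.B) * (Real.exp (c * s.L g) * Real.exp (-(c * n))) := by
      refine (hκ g m γ' h').trans ?_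
      refine mul_le_mul_of_nonneg_left ?_ (by positivity)
      refine mul_le_mul_of_nonneg_left (Real.exp_le_exp.2 ?_) (by positivity)
      have : (n : ℝ) ≤ m := by exact_mod_cast hnm
      nlinarith
    have e4 : C * Real.exp (-(c * s.L (s.φ γ))) * (‖(1 : V →L[ℂ] V)‖ * ‖(1 : V →L[ℂ] V)‖) *
        (‖ρ (γ⁻¹ * γ')‖ * ‖ρ (γ⁻¹ * γ')⁻¹‖) ≤
        C * Real.exp (c * s.B) * (Real.exp (c * s.L g) * Real.exp (-(c * n))) * 1 * (K * K) := by
      gcongr
    calc _ ≤ 4 * (C * Real.exp (c * s.B) * (Real.exp (c * s.L g) * Real.exp (-(c * n))) +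
        C * Real.exp (c * s.B) * (Real.exp (c * s.L g) * Real.exp (-(c * n))) * 1 * (K * K)) := by
          gcongr
      _ = _ := by ring
  choose w hw using s.exists_good'
  set D : ℝ := 4 * (1 + K ^ 2) * (C * Real.exp (c * s.B)) with hD
  have hDpos : 0 < D := by positivity
  have hr : Real.exp (-c) < 1 := by rw [Real.exp_lt_one_iff]; linarith
  have hdist : ∀ g n, dist (pr (u (w g n))) (pr (u (w g (n + 1)))) ≤
      (D * Real.exp (c * s.L g)) * Real.exp (-c) ^ n := by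
    intro g n
    rw [dist_eq_norm, ← Real.exp_nat_mul]
    have := cmp g n (n + 1) _ _ (hw g n) (hw g (n + 1)) (by omega) le_rfl
    refine this.trans (le_of_eq ?_)
    rw [show (n : ℝ) * -c = -(c * n) by ring]
    ring
  have hcau : ∀ g, CauchySeq fun n => pr (u (w g n)) := fun g =>
    cauchySeq_of_le_geometric _ _ hr (hdist g)
  choose P hP using fun g => cauchySeq_tendsto_of_complete (hcau g)
  have hlim : ∀ g n, ‖pr (u (w g n)) - P g‖ ≤
      D / (1 - Real.exp (-c)) * Real.exp (c * s.L g) * Real.exp (-(c * n)) := by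
    intro g n
    have := dist_le_of_le_geometric_of_tendsto _ _ hr (hdist g) (hP g) n
    rw [dist_eq_norm, ← Real.exp_nat_mul] at this
    refine this.trans (le_of_eq ?_)
    rw [show (n : ℝ) * -c = -(c * n) by ring]
    ring
  refine ⟨⟨C, c, hC, hc, one_le, u, v, huv, P, D + D / (1 - Real.exp (-c)), ?_, ?_⟩,
    rfl, rfl, rfl, rfl⟩
  · have : 0 < 1 - Real.exp (-c) := by linarith
    positivity
  · intro g n γ h
    have e1 := cmp g n n γ (w g n) h (hw g n) le_rfl (by omega)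
    have e2 := hlim g n
    calc ‖pr (u γ) - P g‖ ≤ ‖pr (u γ) - pr (u (w g n))‖ + ‖pr (u (w g n)) - P g‖ :=
          norm_sub_le_norm_sub_add_norm_sub _ _ _
      _ ≤ _ := add_le_add e1 e2
      _ = _ := by ring

theorem exists_EData (ρ : Γ →* (V →L[ℂ] V)) [CompleteSpace V] {C c : ℝ} (hC : 0 < C) (hc : 0 < c)
    (one_le : ∀ γ, 1 ≤ ‖ρ γ‖)
    (gap : ∀ γ, ∃ u v, Gap (ρ γ) (C * Real.exp (-(c * s.L (s.φ γ)))) u v) :
    Nonempty (EData s ρ) := by
  choose u v huv using gap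
  obtain ⟨E, -⟩ := exists_EData' s ρ hC hc one_le u v huv
  exact ⟨E⟩

namespace EData

variable {s} {ρ : Γ →* (V →L[ℂ] V)} (E : EData s ρ)

lemma tendsto_of_good {g : G} {γ : ℕ → Γ} (h : ∀ n, s.good g n (γ n)) :
    Tendsto (fun n => pr (E.u (γ n))) atTop (𝓝 (E.P g)) := by
  rw [tendsto_iff_norm_sub_tendsto_zero]
  have h1 : Tendsto (fun n : ℕ => E.C' * Real.exp (E.c * s.L g) * Real.exp (-(E.c * n))) atTop
      (𝓝 (E.C' * Real.exp (E.c * s.L g) * 0)) := by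
    refine Tendsto.const_mul _ ?_
    refine Real.tendsto_exp_neg_atTop_nhds_zero.comp ?_
    exact tendsto_natCast_atTop_atTop.const_mul_atTop E.hc
  rw [mul_zero] at h1
  exact squeeze_zero (fun _ => norm_nonneg _) (fun n => E.est g n _ (h n)) h1

lemma exists_unit [FiniteDimensional ℂ V] (g : G) : ∃ x : V, ‖x‖ = 1 ∧ E.P g = pr x := by
  choose w hw using s.exists_good' g
  exact exists_pr_of_tendsto (fun n => (E.gap (w n)).hu) (E.tendsto_of_good hw)

lemma kappa_tendsto {g : G} {γ : ℕ → Γ} (h : ∀ n, s.good g n (γ n)) :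
    Tendsto (fun n => E.C * Real.exp (-(E.c * s.L (s.φ (γ n))))) atTop (𝓝 0) := by
  have h1 : Tendsto (fun n => s.L (s.φ (γ n))) atTop atTop := by
    refine tendsto_atTop_mono (fun n => s.good_len (h n)) ?_
    refine tendsto_atTop_add_const_right _ _ ?_
    refine tendsto_atTop_add_const_right _ _ ?_
    exact tendsto_natCast_atTop_atTop
  have h2 := (Real.tendsto_exp_neg_atTop_nhds_zero.comp (h1.const_mul_atTop E.hc)).const_mul E.C
  simpa using h2

/-- the limit lines are equivariant -/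
lemma equivariant [FiniteDimensional ℂ V] (g : G) (δ : Γ) {x : V} (hx : ‖x‖ = 1)
    (hP : E.P g = pr x) : E.P (s.φ δ * g) = pr (ρ δ x) := by
  have : CompleteSpace V := FiniteDimensional.complete ℂ V
  choose w hw using s.exists_good' g
  have h1 : Tendsto (fun n => pr (E.u (δ * w n))) atTop (𝓝 (E.P (s.φ δ * g))) :=
    E.tendsto_of_good fun n => s.good_mul (hw n) δ
  have h2 := E.tendsto_of_good hw
  have hρx : ρ δ x ≠ 0 := by
    intro h0
    have : (ρ δ⁻¹ * ρ δ) x = x := by rw [rho_inv_mul]; rfl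
    rw [mul_apply_eq_comp, h0, map_zero] at this
    rw [← this, norm_zero] at hx
    exact zero_ne_one hx
  have h3 : Tendsto (fun n => act (ρ δ) (pr (E.u (w n)))) atTop (𝓝 (act (ρ δ) (E.P g))) := by
    refine act_sub_tendsto h2 ?_
    rw [hP]
    intro h0
    have := comp_pr_norm (B := ρ δ) hx
    rw [h0, norm_zero] at this
    exact hρx (norm_eq_zero.1 this.symm)
  rw [hP, act_pr _ hx] at h3
  have h4 : Tendsto (fun n => ‖pr (E.u (δ * w n)) - act (ρ δ) (pr (E.u (w n)))‖) atTop (𝓝 0) := by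
    have e1 := (E.kappa_tendsto (fun n => s.good_mul (hw n) δ)).add
      (((E.kappa_tendsto hw).mul_const (‖ρ δ‖ * ‖ρ δ⁻¹‖)).mul_const
        (‖(1 : V →L[ℂ] V)‖ * ‖(1 : V →L[ℂ] V)‖))
    have e2 := e1.const_mul 4
    simp only [zero_mul, add_zero, mul_zero] at e2
    refine squeeze_zero (fun _ => norm_nonneg _) (fun n => ?_) e2
    rw [act_pr _ (E.gap (w n)).hu]
    have hmul : ρ (δ * w n) = ρ δ * ρ (w n) * 1 := by rw [mul_one, map_mul]
    have g2 := E.gap (δ * w n)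
    rw [hmul] at g2
    refine (E.gap (w n)).mul_left (rho_inv_mul ρ δ) (by simp) ?_ ?_ g2
    · have := E.hC; positivity
    · rw [← hmul]; exact lt_of_lt_of_le one_pos (E.one_le _)
  have h5 := tendsto_nhds_unique (h1.sub h3) (tendsto_zero_iff_norm_tendsto_zero.2 h4)
  exact sub_eq_zero.1 h5

/-- the limit lines do not depend on choices -/
lemma unique (E' : EData s ρ) : E.P = E'.P := by
  funext g
  choose w hw using s.exists_good' g
  have h1 := E.tendsto_of_good hw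
  have h2 := E'.tendsto_of_good hw
  have h4 : Tendsto (fun n => ‖pr (E.u (w n)) - pr (E'.u (w n))‖) atTop (𝓝 0) := by
    have e1 := (E.kappa_tendsto hw).add
      (((E'.kappa_tendsto hw).mul_const (‖(1 : V →L[ℂ] V)‖ * ‖(1 : V →L[ℂ] V)‖)).mul_const
        (‖(1 : V →L[ℂ] V)‖ * ‖(1 : V →L[ℂ] V)‖))
    have e2 := e1.const_mul 4
    simp only [zero_mul, add_zero, mul_zero] at e2
    refine squeeze_zero (fun _ => norm_nonneg _) (fun n => ?_) e2
    have hmul : ρ (w n) = 1 * ρ (w n) * 1 := by rw [mul_one, one_mul]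
    have g2 := E.gap (w n)
    rw [hmul] at g2
    refine (E'.gap (w n)).mul_left (B := 1) (Bi := 1) (C := 1) (Ci := 1) (by simp) (by simp)
      ?_ ?_ g2
    · have := E'.hC; positivity
    · rw [← hmul]; exact lt_of_lt_of_le one_pos (E.one_le _)
  have h5 := tendsto_nhds_unique (h1.sub h2) (tendsto_zero_iff_norm_tendsto_zero.2 h4)
  exact sub_eq_zero.1 h5

/-- the limit lines do not change along the flow -/
lemma flow_inv (g : G) (m : ℕ) : E.P (g * s.a ^ m) = E.P g := by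
  choose w hw using s.exists_good' g
  have h1 : Tendsto (fun n => pr (E.u (w (m + n)))) atTop (𝓝 (E.P (g * s.a ^ m))) :=
    E.tendsto_of_good fun n => s.good_shift (hw (m + n))
  have h2 : Tendsto (fun n => pr (E.u (w (m + n)))) atTop (𝓝 (E.P g)) := by
    refine (E.tendsto_of_good hw).comp ?_
    exact tendsto_atTop_mono (fun n => Nat.le_add_left n m) tendsto_id
  exact tendsto_nhds_unique h1 h2

/-- invariance under elements of length zero in the centre -/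
lemma central_inv {z : G} (hz : ∀ g, z * g = g * z) (hL : ∀ g, s.L (z * g) = s.L g) (g : G) :
    E.P (z * g) = E.P g := by
  choose w hw using s.exists_good' g
  refine tendsto_nhds_unique (E.tendsto_of_good (γ := w) fun n => ?_) (E.tendsto_of_good hw)
  have h := hw n
  unfold Setup.good at *
  have : (s.φ (w n))⁻¹ * (z * g) * s.a ^ n = z * ((s.φ (w n))⁻¹ * g * s.a ^ n) := by
    rw [← mul_assoc (s.φ (w n))⁻¹, ← hz]; simp only [mul_assoc]
  rwa [this, hL]

lemma continuous [IsTopologicalGroup G] : Continuous E.P := by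
  rw [continuous_iff_continuousAt]
  intro g
  rw [ContinuousAt, tendsto_iff_norm_sub_tendsto_zero, Metric.tendsto_nhds]
  intro ε hε
  -- choose `n` with a small error at distance at most `L g + 1`
  have h1 : Tendsto (fun n : ℕ => E.C' * Real.exp (E.c * (s.L g + 1)) * Real.exp (-(E.c * n)))
      atTop (𝓝 (E.C' * Real.exp (E.c * (s.L g + 1)) * 0)) := by
    refine Tendsto.const_mul _ ?_
    refine Real.tendsto_exp_neg_atTop_nhds_zero.comp ?_
    exact tendsto_natCast_atTop_atTop.const_mul_atTop E.hc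
  rw [mul_zero] at h1
  obtain ⟨n, hn⟩ := ((tendsto_order.1 h1).2 (ε / 2) (by positivity)).exists
  obtain ⟨γ, hγ⟩ := s.exists_good g n
  have h2 : ∀ᶠ g' in 𝓝 g, s.L g' < s.L g + 1 :=
    (s.L_cont.tendsto g).eventually_lt_const (by linarith)
  have h3 : ∀ᶠ g' in 𝓝 g, s.L ((s.φ γ)⁻¹ * g' * s.a ^ n) < s.B := by
    have hc : Continuous fun g' => s.L ((s.φ γ)⁻¹ * g' * s.a ^ n) :=
      s.L_cont.comp (by fun_prop)
    exact (hc.tendsto g).eventually_lt_const (by linarith)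
  filter_upwards [h2, h3] with g' hg1 hg2
  have est : ∀ g'', s.L g'' ≤ s.L g + 1 → s.good g'' n γ → ‖pr (E.u γ) - E.P g''‖ < ε / 2 := by
    intro g'' h h'
    refine lt_of_le_of_lt (E.est g'' n γ h') (lt_of_le_of_lt ?_ hn)
    have := E.hC'
    have := E.hc
    gcongr
  have e1 := est g (by linarith) (hγ.trans (by linarith))
  have e2 := est g' hg1.le hg2.le
  rw [Real.dist_eq, sub_zero, abs_of_nonneg (norm_nonneg _)]
  calc ‖E.P g' - E.P g‖ ≤ ‖E.P g' - pr (E.u γ)‖ + ‖pr (E.u γ) - E.P g‖ :=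
        norm_sub_le_norm_sub_add_norm_sub _ _ _
    _ < ε / 2 + ε / 2 := add_lt_add (by rwa [norm_sub_rev]) e1
    _ = ε := by ring

end EData

end Pool.Agent.W2helper8.AN
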