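import Pool.Agent.W2helper8.AN.Sec

/-!
# An average over the quotient, and a topological obstruction
-/

set_option autoImplicit false

open MeasureTheory Filter Topology Function

namespace Pool.Agent.W2helper8.AN

variable {Γ G : Type*} [Group Γ] [Group G] [TopologicalSpace G] {s : Setup Γ G}

/-- the sum of the translates of the bump function -/
noncomputable def tot (s : Setup Γ G) (g : G) : ℝ := ∑ᶠ γ, bump s ((s.φ γ)⁻¹ * g)

/-- the normalized bump function -/
noncomputable def wt (s : Setup Γ G) (g : G) : ℝ := bump s g / tot s g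

lemma tot_support (g : G) : (support fun γ => bump s ((s.φ γ)⁻¹ * g)).Finite :=
  (s.fin (s.L g + s.B)).subset fun _ hγ => len_of_bump hγ

lemma tot_cont [IsTopologicalGroup G] : Continuous (tot s) := by
  refine continuous_finsum (fun γ => bump_cont.comp (by fun_prop)) ?_
  intro g
  refine ⟨{g' | s.L g' < s.L g + 1}, ?_, ?_⟩
  · exact (s.L_cont.tendsto g).eventually_lt_const (by linarith)
  · refine (s.fin (s.L g + 1 + s.B)).subset ?_
    rintro γ ⟨g', h1, h2⟩
    have := len_of_bump h1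
    simp only [Set.mem_ofPred_eq] at h2 ⊢
    linarith

lemma tot_pos (g : G) : 0 < tot s g := by
  obtain ⟨γ, hγ⟩ := s.cov g
  have h1 : 0 < bump s ((s.φ γ)⁻¹ * g) := bump_pos (by linarith)
  exact finsum_pos' (fun _ => bump_nonneg _) ⟨γ, h1⟩ (tot_support g)

lemma tot_inv (δ : Γ) (g : G) : tot s (s.φ δ * g) = tot s g := by
  unfold tot
  have e2 := finsum_comp_equiv (Equiv.mulLeft δ) (f := fun γ => bump s ((s.φ γ)⁻¹ * (s.φ δ * g)))
  rw [← e2]
  congr 1
  funext γ
  congr 1
  rw [Equiv.coe_mulLeft, map_mul]; group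

lemma wt_cont [IsTopologicalGroup G] : Continuous (wt s) :=
  bump_cont.div tot_cont fun g => (tot_pos g).ne'

lemma wt_nonneg (g : G) : 0 ≤ wt s g := div_nonneg (bump_nonneg _) (tot_pos g).le

lemma wt_ne {g : G} (h : wt s g ≠ 0) : s.L g < s.B := by
  refine bump_ne fun h0 => h ?_
  rw [wt, h0, zero_div]

lemma wt_len {g : G} {γ : Γ} (h : wt s ((s.φ γ)⁻¹ * g) ≠ 0) : s.L (s.φ γ) ≤ s.L g + s.B := by
  refine len_of_bump fun h0 => h ?_
  rw [wt, h0, zero_div]

/-- the translates of the weight sum to one -/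
lemma wt_sum (g : G) (S : Finset Γ) (hS : ∀ γ, s.L (s.φ γ) ≤ s.L g + s.B → γ ∈ S) :
    ∑ γ ∈ S, wt s ((s.φ γ)⁻¹ * g) = 1 := by
  have h1 : ∀ γ, wt s ((s.φ γ)⁻¹ * g) = bump s ((s.φ γ)⁻¹ * g) / tot s g := by
    intro γ
    rw [wt, ← map_inv s.φ, tot_inv]
  simp only [h1]
  rw [← Finset.sum_div, div_eq_one_iff_eq (tot_pos g).ne', tot]
  exact (finsum_eq_sum_of_support_subset _ fun γ hγ => hS γ (len_of_bump hγ)).symm

lemma hasCompactSupport_wt [IsTopologicalGroup G] (hcpt : ∀ R, IsCompact {g | s.L g ≤ R})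
    (F : G → ℝ) : HasCompactSupport fun g => wt s g * F g := by
  refine HasCompactSupport.intro (hcpt s.B) fun g hg => ?_
  simp only [Set.mem_ofPred_eq, not_le] at hg
  have : wt s g = 0 := by
    by_contra h
    exact absurd (wt_ne h) (by linarith)
  rw [this, zero_mul]

section
variable [MeasurableSpace G] [BorelSpace G] (μ : Measure G)

/-- the average of an invariant function -/
noncomputable def avg (s : Setup Γ G) (μ : Measure G) (D : G → ℝ) : ℝ := ∫ g, wt s g * D g ∂μ

variable [IsTopologicalGroup G] [LocallyCompactSpace G] [μ.IsHaarMeasure]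

lemma exists_factor (h : G) : ∃ c : ℝ, ∀ F : G → ℝ, Continuous F → HasCompactSupport F →
    ∫ g, F (g * h) ∂μ = c * ∫ g, F g ∂μ := by
  refine ⟨Measure.haarScalarFactor (Measure.map (· * h) μ) μ, fun F hF hF' => ?_⟩
  have e1 : ∫ g, F (g * h) ∂μ = ∫ g, F g ∂(Measure.map (· * h) μ) :=
    (integral_map (AEMeasurable.mul_const aemeasurable_id' _)
      (Continuous.aestronglyMeasurable hF)).symm
  rw [e1, Measure.integral_isMulLeftInvariant_eq_smul_of_hasCompactSupport _ μ hF hF',
    integral_smul_nnreal_measure]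
  rfl

lemma avg_int (hcpt : ∀ R, IsCompact {g | s.L g ≤ R}) {D : G → ℝ} (hD : Continuous D) :
    Integrable (fun g => wt s g * D g) μ :=
  (wt_cont.mul hD).integrable_of_hasCompactSupport (hasCompactSupport_wt hcpt D)

/-- up to a factor which does not depend on the function, the average is right invariant -/
lemma avg_right (hcpt : ∀ R, IsCompact {g | s.L g ≤ R}) (h : G) : ∃ c : ℝ, ∀ D : G → ℝ,
    Continuous D → (∀ δ g, D (s.φ δ * g) = D g) → avg s μ (fun g => D (g * h)) = c * avg s μ D := by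
  obtain ⟨c, hc⟩ := exists_factor μ h
  refine ⟨c, fun D hD hDi => ?_⟩
  have e1 : avg s μ (fun g => D (g * h)) = c * ∫ g, wt s (g * h⁻¹) * D g ∂μ := by
    have hF : Continuous fun g => wt s (g * h⁻¹) * D g := (wt_cont.comp (by fun_prop)).mul hD
    have hF' : HasCompactSupport fun g => wt s (g * h⁻¹) * D g := by
      refine HasCompactSupport.intro (hcpt (s.B + s.L h)) fun g hg => ?_
      simp only [Set.mem_ofPred_eq, not_le] at hg
      have : wt s (g * h⁻¹) = 0 := by
        by_contra h0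
        have h1 := wt_ne h0
        have h2 := s.L_mul (g * h⁻¹) h
        rw [inv_mul_cancel_right] at h2
        linarith
      rw [this, zero_mul]
    rw [← hc _ hF hF']
    unfold avg
    congr 1
    funext g
    rw [mul_inv_cancel_right]
  rw [e1]
  congr 1
  -- insert the partition of unity
  set S : Finset Γ := (s.fin (2 * s.B + s.L h)).toFinset with hS
  have hmem : ∀ γ, γ ∈ S ↔ s.L (s.φ γ) ≤ 2 * s.B + s.L h := by
    intro γ
    rw [hS, Set.Finite.mem_toFinset]; rfl
  have e2 : ∀ g, wt s (g * h⁻¹) * D g =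
      ∑ γ ∈ S, wt s ((s.φ γ)⁻¹ * g) * (wt s (g * h⁻¹) * D g) := by
    intro g
    by_cases h0 : wt s (g * h⁻¹) = 0
    · simp [h0]
    · have h1 := wt_ne h0
      have h2 := s.L_mul (g * h⁻¹) h
      rw [inv_mul_cancel_right] at h2
      rw [← Finset.sum_mul, wt_sum g S, one_mul]
      intro γ hγ
      rw [hmem]
      linarith
  have e3 : ∀ g, wt s g * D g = ∑ γ ∈ S, wt s g * (wt s (s.φ γ * g * h⁻¹) * D (s.φ γ * g)) := by
    intro g
    by_cases h0 : wt s g = 0
    · simp [h0]
    · have h1 := wt_ne h0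
      have h2 := s.L_mul g h⁻¹
      rw [s.L_inv] at h2
      have h3 : ∑ γ ∈ S, wt s ((s.φ γ)⁻¹ * (g * h⁻¹)) = 1 := by
        refine wt_sum (g * h⁻¹) S fun γ hγ => ?_
        rw [hmem]; linarith
      have h4 : ∑ γ ∈ S, wt s (s.φ γ * g * h⁻¹) = 1 := by
        rw [← h3]
        refine Finset.sum_bij' (fun γ _ => γ⁻¹) (fun γ _ => γ⁻¹) ?_ ?_ ?_ ?_ ?_
        · intro γ hγ
          rw [hmem] at hγ ⊢
          rwa [map_inv, s.L_inv]
        · intro γ hγ
          rw [hmem] at hγ ⊢
          rwa [map_inv, s.L_inv]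
        · intro γ _; rw [inv_inv]
        · intro γ _; rw [inv_inv]
        · intro γ _; rw [map_inv, inv_inv, mul_assoc]
      simp only [hDi]
      rw [← Finset.mul_sum, ← Finset.sum_mul, h4, one_mul]
  have hint : ∀ γ, Integrable (fun g => wt s ((s.φ γ)⁻¹ * g) * (wt s (g * h⁻¹) * D g)) μ := by
    intro γ
    refine Continuous.integrable_of_hasCompactSupport ?_ ?_
    · exact (wt_cont.comp (by fun_prop)).mul ((wt_cont.comp (by fun_prop)).mul hD)
    · refine HasCompactSupport.intro (hcpt (s.B + s.L (s.φ γ))) fun g hg => ?_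
      simp only [Set.mem_ofPred_eq, not_le] at hg
      have : wt s ((s.φ γ)⁻¹ * g) = 0 := by
        by_contra h0
        have h1 := wt_ne h0
        have h2 := s.L_mul (s.φ γ) ((s.φ γ)⁻¹ * g)
        rw [mul_inv_cancel_left] at h2
        linarith
      rw [this, zero_mul]
  have hint2 : ∀ γ, Integrable (fun g => wt s g * (wt s (s.φ γ * g * h⁻¹) * D (s.φ γ * g))) μ := by
    intro γ
    refine avg_int μ hcpt ?_
    exact (wt_cont.comp (by fun_prop)).mul (hD.comp (by fun_prop))
  unfold avg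
  have e5 : (fun g => wt s (g * h⁻¹) * D g) = fun g => ∑ γ ∈ S, wt s ((s.φ γ)⁻¹ * g) *
      (wt s (g * h⁻¹) * D g) := funext e2
  rw [e5, integral_finset_sum _ fun γ _ => hint γ]
  have e4 : (fun g => wt s g * D g) = fun g => ∑ γ ∈ S, wt s g *
      (wt s (s.φ γ * g * h⁻¹) * D (s.φ γ * g)) := funext e3
  rw [e4, integral_finset_sum _ fun γ _ => hint2 γ]
  refine Finset.sum_congr rfl fun γ _ => ?_
  rw [← integral_mul_left_eq_self _ (s.φ γ)]
  congr 1
  funext g
  rw [inv_mul_cancel_left]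

lemma avg_one_pos (hcpt : ∀ R, IsCompact {g | s.L g ≤ R}) : 0 < avg s μ fun _ => 1 := by
  unfold avg
  simp only [mul_one]
  have hc : HasCompactSupport (wt s) := by
    have := hasCompactSupport_wt hcpt (fun _ => (1 : ℝ)) (s := s)
    simpa using this
  obtain ⟨γ, hγ⟩ := s.cov 1
  refine wt_cont.integral_pos_of_hasCompactSupport_nonneg_nonzero hc (fun g => wt_nonneg g)
    (x := (s.φ γ)⁻¹ * 1) ?_
  have h1 : 0 < bump s ((s.φ γ)⁻¹ * 1) := bump_pos (by linarith)
  exact (div_pos h1 (tot_pos _)).ne'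

/-- the average is right invariant -/
lemma avg_right_inv (hcpt : ∀ R, IsCompact {g | s.L g ≤ R}) (h : G) {D : G → ℝ}
    (hD : Continuous D) (hDi : ∀ δ g, D (s.φ δ * g) = D g) :
    avg s μ (fun g => D (g * h)) = avg s μ D := by
  obtain ⟨c, hc⟩ := avg_right μ hcpt h (s := s)
  have h1 := hc (fun _ => 1) continuous_const (fun _ _ => rfl)
  have h2 := avg_one_pos μ hcpt (s := s)
  have h3 : c = 1 := by
    have : (c - 1) * avg s μ (fun _ => 1) = 0 := by linarith
    rcases mul_eq_zero.1 this with h | h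
    · linarith
    · exact absurd h h2.ne'
  rw [hc D hD hDi, h3, one_mul]

lemma avg_add (hcpt : ∀ R, IsCompact {g | s.L g ≤ R}) {D D' : G → ℝ}
    (hD : Continuous D) (hD' : Continuous D') :
    avg s μ (fun g => D g + D' g) = avg s μ D + avg s μ D' := by
  unfold avg
  rw [← integral_add (avg_int μ hcpt hD) (avg_int μ hcpt hD')]
  congr 1
  funext g
  ring

end

end Pool.Agent.W2helper8.AN
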