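import Mathlib

/-!
# Operators close to rank one
-/

set_option autoImplicit false

open InnerProductSpace ContinuousLinearMap

namespace Pool.Agent.W2helper8.AN

variable {V : Type*} [NormedAddCommGroup V] [InnerProductSpace ℂ V]

/-- the orthogonal projection to the line of `x` -/
noncomputable def pr (x : V) : V →L[ℂ] V := (((‖x‖ ^ 2)⁻¹ : ℝ) : ℂ) • rankOne ℂ x x

lemma pr_apply (x w : V) : pr x w = ((((‖x‖ ^ 2)⁻¹ : ℝ) : ℂ) * inner ℂ x w) • x := by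
  simp [pr, smul_smul]

lemma pr_smul {c : ℂ} (hc : c ≠ 0) (x : V) : pr (c • x) = pr x := by
  ext w
  rw [pr_apply, pr_apply, inner_smul_left, norm_smul, smul_smul]
  congr 1
  by_cases hx : x = 0
  · simp [hx]
  have h1 : (‖x‖ : ℂ) ≠ 0 := by simpa using hx
  have h2 : (‖c‖ : ℂ) ≠ 0 := by simpa using hc
  have h3 : (starRingEnd ℂ) c * c = (‖c‖ : ℂ) ^ 2 := by
    rw [mul_comm, Complex.mul_conj, Complex.normSq_eq_norm_sq]; push_cast; ring
  push_cast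
  field_simp
  linear_combination (inner ℂ x w) * h3

lemma pr_unit {x : V} (hx : ‖x‖ = 1) : pr x = rankOne ℂ x x := by
  simp [pr, hx]

lemma pr_unit_apply {x : V} (hx : ‖x‖ = 1) (w : V) : pr x w = inner ℂ x w • x := by
  rw [pr_unit hx, rankOne_apply]

lemma pr_self (x : V) : pr x x = x := by
  by_cases hx : x = 0
  · simp [hx]
  rw [pr_apply, inner_self_eq_norm_sq_to_K]
  have h1 : (‖x‖ : ℂ) ≠ 0 := by simpa using hx
  have : (((‖x‖ ^ 2)⁻¹ : ℝ) : ℂ) * ((‖x‖ : ℂ)) ^ 2 = 1 := by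
    push_cast; field_simp
  simp only [Complex.coe_algebraMap] at *
  rw [this, one_smul]

lemma norm_pr_apply_le (x w : V) : ‖pr x w‖ ≤ ‖w‖ := by
  by_cases hx : x = 0
  · simp [hx, pr]
  have h1 : 0 < ‖x‖ := norm_pos_iff.2 hx
  rw [pr_apply, norm_smul, norm_mul, Complex.norm_real, Real.norm_of_nonneg (by positivity)]
  have := norm_inner_le_norm (𝕜 := ℂ) x w
  calc (‖x‖ ^ 2)⁻¹ * ‖inner ℂ x w‖ * ‖x‖ ≤ (‖x‖ ^ 2)⁻¹ * (‖x‖ * ‖w‖) * ‖x‖ := by gcongr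
    _ = ‖w‖ := by field_simp

lemma pr_normalize {x : V} (hx : x ≠ 0) : ∃ y : V, ‖y‖ = 1 ∧ pr y = pr x ∧ y = ((‖x‖⁻¹ : ℝ) : ℂ) • x := by
  have h1 : ‖x‖ ≠ 0 := by simpa using hx
  refine ⟨((‖x‖⁻¹ : ℝ) : ℂ) • x, ?_, pr_smul ?_ x, rfl⟩
  · rw [norm_smul, Complex.norm_real, norm_inv, norm_norm]; field_simp
  · simpa using hx

/-- two unit vectors which are close up to a scalar have close projections -/
lemma pr_sub_le_unit {x y : V} (hx : ‖x‖ = 1) (hy : ‖y‖ = 1) (c : ℂ) :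
    ‖pr x - pr y‖ ≤ 4 * ‖x - c • y‖ := by
  set a : ℂ := inner ℂ y x with ha
  set z : V := x - a • y with hz
  have hyz : inner ℂ y z = 0 := by
    rw [hz, inner_sub_right, inner_smul_right, inner_self_eq_norm_sq_to_K, hy]; simp [ha]
  have hxz : x = a • y + z := by rw [hz]; abel
  have e1 : ‖x‖ ^ 2 = ‖a‖ ^ 2 + ‖z‖ ^ 2 := by
    have := norm_add_sq_eq_norm_sq_add_norm_sq_of_inner_eq_zero (a • y) z
      (𝕜 := ℂ) (by rw [inner_smul_left, hyz, mul_zero])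
    rw [← hxz, norm_smul, hy] at this
    nlinarith
  have e2 : ‖z‖ ≤ ‖x - c • y‖ := by
    have h3 : x - c • y = (a - c) • y + z := by rw [hz, sub_smul]; abel
    have := norm_add_sq_eq_norm_sq_add_norm_sq_of_inner_eq_zero ((a - c) • y) z
      (𝕜 := ℂ) (by rw [inner_smul_left, hyz, mul_zero])
    rw [← h3] at this
    have h4 : ‖z‖ ^ 2 ≤ ‖x - c • y‖ ^ 2 := by nlinarith [sq_nonneg ‖(a - c) • y‖]
    exact le_of_sq_le_sq h4 (norm_nonneg _)
  have hz1 : ‖z‖ ≤ 1 := by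
    rw [hx] at e1
    nlinarith [sq_nonneg ‖a‖, norm_nonneg z]
  have ha1 : ‖a‖ ≤ 1 := by
    rw [hx] at e1
    nlinarith [sq_nonneg ‖z‖, norm_nonneg a]
  refine le_trans ?_ (mul_le_mul_of_nonneg_left e2 (by norm_num : (0 : ℝ) ≤ 4))
  refine ContinuousLinearMap.opNorm_le_bound _ (by positivity) fun w => ?_
  rw [_root_.sub_apply, pr_unit_apply hx, pr_unit_apply hy]
  have h5 : inner ℂ x w = (starRingEnd ℂ) a * inner ℂ y w + inner ℂ z w := by
    conv_lhs => rw [hxz]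
    rw [inner_add_left, inner_smul_left]
  have h6 : inner ℂ x w • x - inner ℂ y w • y =
      (-((‖z‖ : ℂ) ^ 2) * inner ℂ y w) • y + ((starRingEnd ℂ) a * inner ℂ y w) • z +
        inner ℂ z w • x := by
    have h7 : (starRingEnd ℂ) a * a = 1 - (‖z‖ : ℂ) ^ 2 := by
      rw [mul_comm, Complex.mul_conj, Complex.normSq_eq_norm_sq]
      rw [hx] at e1
      have : ‖a‖ ^ 2 = 1 - ‖z‖ ^ 2 := by linarith
      rw [this]; push_cast; ring
    rw [h5, add_smul]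
    have : ((starRingEnd ℂ) a * inner ℂ y w) • x =
        (inner ℂ y w * ((starRingEnd ℂ) a * a)) • y + ((starRingEnd ℂ) a * inner ℂ y w) • z := by
      conv_lhs => rw [hxz]
      rw [smul_add, smul_smul]
      congr 2
      ring
    rw [this, h7]
    module
  rw [h6]
  have b1 : ‖(-((‖z‖ : ℂ) ^ 2) * inner ℂ y w) • y‖ ≤ ‖z‖ * ‖w‖ := by
    rw [norm_smul, norm_mul, hy, norm_neg, norm_pow, Complex.norm_real, norm_norm, mul_one]
    have := norm_inner_le_norm (𝕜 := ℂ) y w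
    rw [hy, one_mul] at this
    have h8 : ‖z‖ ^ 2 ≤ ‖z‖ := by nlinarith [norm_nonneg z]
    exact mul_le_mul h8 this (norm_nonneg _) (norm_nonneg _)
  have b2 : ‖((starRingEnd ℂ) a * inner ℂ y w) • z‖ ≤ ‖z‖ * ‖w‖ := by
    rw [norm_smul, norm_mul, RCLike.norm_conj]
    have := norm_inner_le_norm (𝕜 := ℂ) y w
    rw [hy, one_mul] at this
    calc ‖a‖ * ‖inner ℂ y w‖ * ‖z‖ ≤ 1 * ‖w‖ * ‖z‖ := by gcongr
      _ = ‖z‖ * ‖w‖ := by ring
  have b3 : ‖inner ℂ z w • x‖ ≤ ‖z‖ * ‖w‖ := by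
    rw [norm_smul, hx, mul_one]
    exact norm_inner_le_norm z w
  refine (norm_add_le_of_le (norm_add_le_of_le b1 b2) b3).trans ?_
  nlinarith [mul_nonneg (norm_nonneg z) (norm_nonneg w)]

lemma pr_sub_le {x y : V} (hx : ‖x‖ = 1) (hy : y ≠ 0) (c : ℂ) :
    ‖pr x - pr y‖ ≤ 4 * ‖x - c • y‖ := by
  obtain ⟨y', h1, h2, h3⟩ := pr_normalize hy
  rw [← h2]
  have h4 : y = (‖y‖ : ℂ) • y' := by
    rw [h3, smul_smul]
    have : (‖y‖ : ℂ) ≠ 0 := by simpa using hy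
    push_cast
    rw [mul_inv_cancel₀ this, one_smul]
  have := pr_sub_le_unit hx h1 (c * ‖y‖)
  rwa [mul_smul, ← h4] at this

/-- `A` is, up to the relative error `κ`, a multiple of the rank one operator `⟪v, ·⟫ u` -/
structure Gap (A : V →L[ℂ] V) (κ : ℝ) (u v : V) : Prop where
  hu : ‖u‖ = 1
  hv : ‖v‖ = 1
  bd : ‖A - (‖A‖ : ℂ) • rankOne ℂ u v‖ ≤ κ * ‖A‖

lemma Gap.mono {A : V →L[ℂ] V} {κ κ' : ℝ} {u v : V} (h : Gap A κ u v) (hκ : κ ≤ κ') :
    Gap A κ' u v :=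
  ⟨h.hu, h.hv, h.bd.trans (mul_le_mul_of_nonneg_right hκ (norm_nonneg _))⟩

lemma Gap.apply_le {A : V →L[ℂ] V} {κ : ℝ} {u v : V} (h : Gap A κ u v) (x : V) :
    ‖A x - ((‖A‖ : ℂ) * inner ℂ v x) • u‖ ≤ κ * ‖A‖ * ‖x‖ := by
  have := ContinuousLinearMap.le_of_opNorm_le _ h.bd x
  rw [mul_smul]
  simpa using this

lemma Gap.adjoint [CompleteSpace V] {A : V →L[ℂ] V} {κ : ℝ} {u v : V} (h : Gap A κ u v) :
    Gap (ContinuousLinearMap.adjoint A) κ v u := by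
  refine ⟨h.hv, h.hu, ?_⟩
  have e : ContinuousLinearMap.adjoint A - (‖ContinuousLinearMap.adjoint A‖ : ℂ) • rankOne ℂ v u =
      ContinuousLinearMap.adjoint (A - (‖A‖ : ℂ) • rankOne ℂ u v) := by
    rw [map_sub, LinearIsometryEquiv.norm_map, LinearIsometryEquiv.map_smulₛₗ, adjoint_rankOne]
    simp
  rw [e, LinearIsometryEquiv.norm_map, LinearIsometryEquiv.norm_map]
  exact h.bd

/-- the image of the line of the left singular vector -/
lemma Gap.mul_left {A B C Bi Ci : V →L[ℂ] V} {κ κ' : ℝ} {u v u' v' : V} (h : Gap A κ u v)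
    (hB : Bi * B = 1) (hC : C * Ci = 1) (hκ : 0 ≤ κ) (hpos : 0 < ‖B * A * C‖)
    (h' : Gap (B * A * C) κ' u' v') :
    ‖pr u' - pr (B u)‖ ≤ 4 * (κ' + κ * (‖B‖ * ‖Bi‖) * (‖C‖ * ‖Ci‖)) := by
  have hBu : B u ≠ 0 := by
    intro h0
    have : u = 0 := by
      have : (Bi * B) u = u := by rw [hB]; rfl
      rw [← this, mul_apply_eq_comp, h0, map_zero]
    have h1 := h.hu
    rw [this, norm_zero] at h1
    exact zero_ne_one h1
  set N := ‖B * A * C‖ with hN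
  have hA : ‖A‖ ≤ ‖Bi‖ * N * ‖Ci‖ := by
    have : A = Bi * (B * A * C) * Ci := by
      calc A = (Bi * B) * A * (C * Ci) := by rw [hB, hC]; simp
        _ = _ := by simp only [mul_assoc]
    calc ‖A‖ = ‖Bi * (B * A * C) * Ci‖ := by rw [← this]
      _ ≤ ‖Bi * (B * A * C)‖ * ‖Ci‖ := norm_mul_le _ _
      _ ≤ ‖Bi‖ * N * ‖Ci‖ := by gcongr; exact norm_mul_le _ _
  refine (pr_sub_le h'.hu hBu ((N : ℂ)⁻¹ * ((‖A‖ : ℂ) * inner ℂ v (C v')))).trans ?_
  refine mul_le_mul_of_nonneg_left ?_ (by norm_num)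
  have e1 := h'.apply_le v'
  rw [← hN, inner_self_eq_norm_sq_to_K, h'.hv] at e1
  have e2 := h.apply_le (C v')
  have e3 : ‖(B * A * C) v' - ((‖A‖ : ℂ) * inner ℂ v (C v')) • B u‖ ≤
      ‖B‖ * (κ * ‖A‖ * ‖C‖) := by
    have : (B * A * C) v' - ((‖A‖ : ℂ) * inner ℂ v (C v')) • B u =
        B (A (C v') - ((‖A‖ : ℂ) * inner ℂ v (C v')) • u) := by
      rw [map_sub, map_smul]; rfl
    rw [this]
    refine (B.le_opNorm _).trans ?_
    refine mul_le_mul_of_nonneg_left (e2.trans ?_) (norm_nonneg _)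
    have : ‖C v'‖ ≤ ‖C‖ := by
      have := C.le_opNorm v'
      rwa [h'.hv, mul_one] at this
    gcongr
  have hN' : (N : ℂ) ≠ 0 := by exact_mod_cast hpos.ne'
  have e4 : u' - ((N : ℂ)⁻¹ * ((‖A‖ : ℂ) * inner ℂ v (C v'))) • B u =
      (N : ℂ)⁻¹ • (((B * A * C) v' - ((‖A‖ : ℂ) * inner ℂ v (C v')) • B u) -
        ((B * A * C) v' - ((N : ℂ) * ((1 : ℝ) : ℂ) ^ 2) • u')) := by
    rw [sub_sub_sub_cancel_left, smul_sub, smul_smul, smul_smul]
    simp [hN']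
  rw [e4, norm_smul, norm_inv, Complex.norm_real, Real.norm_of_nonneg hpos.le]
  rw [inv_mul_le_iff₀ hpos]
  refine (norm_sub_le _ _).trans ?_
  rw [mul_one] at e1
  calc _ ≤ ‖B‖ * (κ * ‖A‖ * ‖C‖) + κ' * N := add_le_add e3 (by simpa using e1)
    _ ≤ ‖B‖ * (κ * (‖Bi‖ * N * ‖Ci‖) * ‖C‖) + κ' * N := by gcongr
    _ = _ := by ring

/-- the action of an operator on lines, in terms of projections -/
noncomputable def act [CompleteSpace V] (B P : V →L[ℂ] V) : V →L[ℂ] V :=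
  (((‖B * P‖ ^ 2)⁻¹ : ℝ) : ℂ) • (B * P * ContinuousLinearMap.adjoint B)

lemma comp_pr_norm {B : V →L[ℂ] V} {x : V} (hx : ‖x‖ = 1) : ‖B * pr x‖ = ‖B x‖ := by
  rw [pr_unit hx]
  have : B * rankOne ℂ x x = rankOne ℂ (B x) x := comp_rankOne x x B
  rw [this, norm_rankOne, hx, mul_one]

lemma act_pr [CompleteSpace V] (B : V →L[ℂ] V) {x : V} (hx : ‖x‖ = 1) :
    act B (pr x) = pr (B x) := by
  rw [act, comp_pr_norm hx, pr_unit hx, pr]
  congr 1
  have : B * rankOne ℂ x x = rankOne ℂ (B x) x := comp_rankOne x x B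
  rw [this]
  ext w
  simp [ContinuousLinearMap.adjoint_inner_right]

lemma pr_mul_pr_norm {x y : V} (hx : ‖x‖ = 1) (hy : ‖y‖ = 1) : ‖pr x * pr y‖ = ‖inner ℂ x y‖ := by
  rw [comp_pr_norm hy, pr_unit_apply hx, norm_smul, hx, mul_one]

lemma pr_norm {x : V} (hx : ‖x‖ = 1) : ‖pr x‖ = 1 := by
  rw [pr_unit hx, norm_rankOne, hx, mul_one]

/-- the set of the projections to lines is closed -/
lemma exists_pr_of_tendsto [FiniteDimensional ℂ V] {u : ℕ → V} (hu : ∀ n, ‖u n‖ = 1)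
    {P : V →L[ℂ] V} (h : Filter.Tendsto (fun n => pr (u n)) Filter.atTop (nhds P)) :
    ∃ x : V, ‖x‖ = 1 ∧ P = pr x := by
  have hc : IsCompact (Metric.sphere (0 : V) 1) := isCompact_sphere _ _
  obtain ⟨x, hx, ψ, hψ, hlim⟩ := hc.tendsto_subseq (x := u) (fun n => by simpa using hu n)
  have hx1 : ‖x‖ = 1 := by simpa using hx
  refine ⟨x, hx1, ?_⟩
  have h1 : Filter.Tendsto (fun n => pr (u (ψ n))) Filter.atTop (nhds P) :=
    h.comp hψ.tendsto_atTop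
  have h2 : Filter.Tendsto (fun n => pr (u (ψ n))) Filter.atTop (nhds (pr x)) := by
    rw [tendsto_iff_norm_sub_tendsto_zero]
    have h3 : Filter.Tendsto (fun n => 4 * ‖u (ψ n) - x‖) Filter.atTop (nhds 0) := by
      have := (tendsto_iff_norm_sub_tendsto_zero.1 hlim).const_mul 4
      simpa using this
    refine squeeze_zero (fun _ => norm_nonneg _) (fun n => ?_) h3
    have := pr_sub_le_unit (hu (ψ n)) hx1 1
    simpa using this
  exact tendsto_nhds_unique h1 h2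

lemma eq_smul_of_pr_eq {x y : V} (hx : ‖x‖ = 1) (h : pr x = pr y) :
    ∃ c : ℂ, x = c • y := by
  have h1 := pr_self x
  rw [h, pr_apply] at h1
  exact ⟨_, h1.symm⟩

lemma act_sub_tendsto [CompleteSpace V] {B : V →L[ℂ] V} {P : V →L[ℂ] V} {Q : ℕ → V →L[ℂ] V}
    (h : Filter.Tendsto Q Filter.atTop (nhds P)) (hBP : B * P ≠ 0) :
    Filter.Tendsto (fun n => act B (Q n)) Filter.atTop (nhds (act B P)) := by
  have h1 : Filter.Tendsto (fun n => B * Q n) Filter.atTop (nhds (B * P)) := h.const_mul B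
  have h2 : Filter.Tendsto (fun n => (((‖B * Q n‖ ^ 2)⁻¹ : ℝ) : ℂ)) Filter.atTop
      (nhds (((‖B * P‖ ^ 2)⁻¹ : ℝ) : ℂ)) := by
    refine (Complex.continuous_ofReal.tendsto _).comp ?_
    refine Filter.Tendsto.inv₀ (h1.norm.pow 2) ?_
    have : 0 < ‖B * P‖ := norm_pos_iff.2 hBP
    positivity
  exact h2.smul (h1.mul_const _)

end Pool.Agent.W2helper8.AN
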