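import Pool.Agent.W2helper8.AN.SLTwo

/-!
# Word length and displacement
-/

set_option autoImplicit false

open Filter Topology Function Matrix MatrixGroups

namespace Pool.Agent.W2helper8.AN

open Pool.Agent.R787.Oper (dg wordLen exists_generating IsCocompact finite_disp)

variable {Γ : Type*} [Group Γ]

lemma exists_word {S : Set Γ} (hS : Subgroup.closure S = ⊤) (γ : Γ) :
    ∃ l : List Γ, l.length = wordLen S γ ∧ (∀ x ∈ l, x ∈ S ∨ x⁻¹ ∈ S) ∧ l.prod = γ := by
  have hne : {n | ∃ l : List Γ, l.length = n ∧ (∀ x ∈ l, x ∈ S ∨ x⁻¹ ∈ S) ∧ l.prod = γ}.Nonempty := by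
    have : γ ∈ Submonoid.closure (S ∪ S⁻¹) := by
      rw [← Subgroup.closure_toSubmonoid, hS]; trivial
    obtain ⟨l, h1, h2⟩ := Submonoid.exists_list_of_mem_closure this
    refine ⟨l.length, l, rfl, fun x hx => ?_, h2⟩
    rcases h1 x hx with h | h
    · exact Or.inl h
    · exact Or.inr (Set.mem_inv.1 h)
  exact Nat.sInf_mem hne

lemma wordLen_le {S : Set Γ} {l : List Γ} (h : ∀ x ∈ l, x ∈ S ∨ x⁻¹ ∈ S) :
    wordLen S l.prod ≤ l.length := Nat.sInf_le ⟨l, rfl, h, rfl⟩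

lemma wordLen_mul_le {S : Set Γ} (hS : Subgroup.closure S = ⊤) (γ δ : Γ) :
    wordLen S (γ * δ) ≤ wordLen S γ + wordLen S δ := by
  obtain ⟨l, h1, h2, h3⟩ := exists_word hS γ
  obtain ⟨l', h1', h2', h3'⟩ := exists_word hS δ
  rw [← h1, ← h1', ← List.length_append]
  conv_lhs => rw [← h3, ← h3', ← List.prod_append]
  refine wordLen_le fun x hx => ?_
  rcases List.mem_append.1 hx with hx | hx
  · exact h2 x hx
  · exact h2' x hx

lemma wordLen_inv_le {S : Set Γ} (hS : Subgroup.closure S = ⊤) (γ : Γ) :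
    wordLen S γ⁻¹ ≤ wordLen S γ := by
  obtain ⟨l, h1, h2, h3⟩ := exists_word hS γ
  have e : γ⁻¹ = (l.map fun x => x⁻¹).reverse.prod := by rw [← h3, List.prod_inv_reverse]
  rw [e, ← h1]
  refine (wordLen_le fun x hx => ?_).trans (by simp)
  rw [List.mem_reverse, List.mem_map] at hx
  obtain ⟨y, hy, rfl⟩ := hx
  rw [inv_inv]
  exact (h2 y hy).symm

lemma wordLen_one (S : Set Γ) : wordLen S (1 : Γ) = 0 := by
  have := wordLen_le (S := S) (l := []) (by simp)
  simpa using this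

lemma wordLen_list_le {S : Set Γ} (hS : Subgroup.closure S = ⊤) {A : ℕ} (l : List Γ)
    (hl : ∀ x ∈ l, wordLen S x ≤ A) : wordLen S l.prod ≤ A * l.length := by
  induction l with
  | nil => simp [wordLen_one]
  | cons x l ih =>
    rw [List.prod_cons, List.length_cons]
    have h1 := ih fun y hy => hl y (List.mem_cons_of_mem _ hy)
    have h2 := hl x List.mem_cons_self
    have h3 := wordLen_mul_le hS x l.prod
    calc wordLen S (x * l.prod) ≤ A + A * l.length := by omega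
      _ = A * (l.length + 1) := by ring

/-- the displacement is at most linear in the word length -/
lemma disp_le_wordLen {S : Set Γ} (hfin : S.Finite) (hS : Subgroup.closure S = ⊤)
    (φ : Γ →* SL(2, ℝ)) : ∃ M : ℝ, 1 ≤ M ∧ ∀ γ, disp (φ γ) ≤ M * wordLen S γ := by
  obtain ⟨K, hK⟩ := (hfin.image fun γ => disp (φ γ)).bddAbove
  refine ⟨max K 1, le_max_right _ _, fun γ => ?_⟩
  obtain ⟨l, h1, h2, h3⟩ := exists_word hS γ
  rw [← h1, ← h3]
  clear h1 h3
  induction l with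
  | nil =>
    simp only [List.prod_nil, map_one, List.length_nil, Nat.cast_zero, mul_zero]
    unfold disp; simp
  | cons x l ih =>
    rw [List.prod_cons, map_mul, List.length_cons]
    have h1 := ih fun y hy => h2 y (List.mem_cons_of_mem _ hy)
    have h4 : disp (φ x) ≤ max K 1 := by
      rcases h2 x List.mem_cons_self with h | h
      · exact (hK ⟨x, h, rfl⟩).trans (le_max_left _ _)
      · have : disp (φ x⁻¹) ≤ K := hK ⟨x⁻¹, h, rfl⟩
        rw [map_inv, disp_inv] at this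
        exact this.trans (le_max_left _ _)
    have h5 := disp_mul (φ x) (φ l.prod)
    push_cast
    linarith

/-- the word length is at most linear in the displacement -/
lemma wordLen_le_disp {S : Set Γ} (hS : Subgroup.closure S = ⊤)
    (φ : Γ →* SL(2, ℝ)) (hinj : Injective φ) [DiscreteTopology φ.range]
    (hco : IsCocompact φ.range) : ∃ A : ℕ, ∀ γ, (wordLen S γ : ℝ) ≤ A * (disp (φ γ) + 2) := by
  obtain ⟨S', hS'fin, hS'gen, hS'⟩ := exists_generating φ.range hco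
  set e : Γ ≃* φ.range := MonoidHom.ofInjective hinj with he
  obtain ⟨A, hA⟩ := (hS'fin.image fun g => wordLen S (e.symm g)).bddAbove
  refine ⟨A, fun γ => ?_⟩
  obtain ⟨l, h1, h2, h3⟩ := exists_word hS'gen (e γ)
  have h4 : γ = (l.map e.symm).prod := by
    rw [← map_list_prod, h3, e.symm_apply_apply]
  have h5 : wordLen S γ ≤ A * (l.map e.symm).length := by
    conv_lhs => rw [h4]
    refine wordLen_list_le hS _ fun x hx => ?_
    obtain ⟨y, hy, rfl⟩ := List.mem_map.1 hx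
    rcases h2 y hy with h | h
    · exact hA ⟨y, h, rfl⟩
    · have h6 : wordLen S (e.symm y⁻¹) ≤ A := hA ⟨y⁻¹, h, rfl⟩
      have h7 := wordLen_inv_le hS (e.symm y⁻¹)
      rw [map_inv, inv_inv] at h7
      rw [map_inv] at h6
      exact h7.trans h6
  rw [List.length_map, h1] at h5
  have h6 := hS' (e γ)
  have h7 : ((e γ : φ.range) : SL(2, ℝ)) = φ γ := rfl
  rw [h7] at h6
  calc (wordLen S γ : ℝ) ≤ ((A * wordLen S' (e γ) : ℕ) : ℝ) := by exact_mod_cast h5
    _ = A * (wordLen S' (e γ) : ℝ) := by push_cast; rfl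
    _ ≤ A * (disp (φ γ) + 2) := mul_le_mul_of_nonneg_left h6 (Nat.cast_nonneg _)

lemma finite_disp_le (φ : Γ →* SL(2, ℝ)) (hinj : Injective φ) [DiscreteTopology φ.range] (R : ℝ) :
    {γ : Γ | disp (φ γ) ≤ R}.Finite := by
  have h := finite_disp φ.range R
  refine (h.preimage (f := fun γ => (⟨φ γ, ⟨γ, rfl⟩⟩ : φ.range)) ?_)
  intro x _ y _ hxy
  exact hinj (congrArg Subtype.val hxy)

/-- every point is within bounded distance of the group -/
lemma exists_cover (φ : Γ →* SL(2, ℝ)) [CompactSpace (SL(2, ℝ) ⧸ φ.range)] :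
    ∃ B : ℝ, ∀ g, ∃ γ, disp ((φ γ)⁻¹ * g) ≤ B - 1 := by
  set U : ℕ → Set (SL(2, ℝ) ⧸ φ.range) := fun n =>
    (QuotientGroup.mk : SL(2, ℝ) → SL(2, ℝ) ⧸ φ.range) '' {g | disp g < n} with hU
  have hopen : ∀ n, IsOpen (U n) := fun n =>
    QuotientGroup.isOpenMap_coe _ (isOpen_lt continuous_disp continuous_const)
  have hcov : (Set.univ : Set (SL(2, ℝ) ⧸ φ.range)) ⊆ ⋃ n, U n := by
    intro x _
    obtain ⟨g, rfl⟩ := QuotientGroup.mk_surjective x
    obtain ⟨n, hn⟩ := exists_nat_gt (disp g)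
    exact Set.mem_iUnion.2 ⟨n, g, hn, rfl⟩
  obtain ⟨t, ht⟩ := isCompact_univ.elim_finite_subcover U hopen hcov
  obtain ⟨N, hN⟩ := t.bddAbove
  refine ⟨N + 1, fun g => ?_⟩
  have h1 : (QuotientGroup.mk g⁻¹ : SL(2, ℝ) ⧸ φ.range) ∈ ⋃ i ∈ t, U i := ht (Set.mem_univ _)
  simp only [Set.mem_iUnion] at h1
  obtain ⟨n, hn, h, hh, heq⟩ := h1
  have h2 : h⁻¹ * g⁻¹ ∈ φ.range := QuotientGroup.eq.1 heq
  obtain ⟨γ, hγ⟩ := h2
  refine ⟨γ⁻¹, ?_⟩
  rw [map_inv, inv_inv, hγ, inv_mul_cancel_right, disp_inv]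
  have h3 : n ≤ N := hN hn
  have h4 : (n : ℝ) ≤ N := by exact_mod_cast h3
  simp only [Set.mem_ofPred_eq] at hh
  linarith

lemma isCocompact_range (φ : Γ →* SL(2, ℝ)) [CompactSpace (SL(2, ℝ) ⧸ φ.range)] :
    IsCocompact φ.range := by
  obtain ⟨B, hB⟩ := exists_cover φ
  refine ⟨Metric.closedBall UpperHalfPlane.I (B - 1), isCompact_closedBall _ _, fun z => ?_⟩
  obtain ⟨g, rfl⟩ := MulAction.exists_smul_eq SL(2, ℝ) UpperHalfPlane.I z
  obtain ⟨γ, hγ⟩ := hB g
  refine ⟨(φ γ)⁻¹, ⟨γ⁻¹, map_inv _ _⟩, ?_⟩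
  rw [Metric.mem_closedBall, dist_comm, ← mul_smul]
  exact hγ

end Pool.Agent.W2helper8.AN
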