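import Pool.Agent.W2helper8.AN.Rep
import Pool.Agent.W2helper8.AN.Word

/-!
# The two Fuchsian points lie in different components
-/

set_option autoImplicit false

open Filter Topology Function Matrix MatrixGroups InnerProductSpace

namespace Pool.Agent.W2helper8.AN

open Pool.Agent.R787.Oper (dg)

variable {Γ : Type*} [Group Γ]

lemma det_toE (A : SpecialLinearGroup (Fin 3) ℂ) :
    (Matrix.toEuclideanLin (A : Matrix (Fin 3) (Fin 3) ℂ)).det = 1 := by
  rw [Matrix.toEuclideanLin_eq_toLin_orthonormal, LinearMap.det_toLin,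
    Matrix.SpecialLinearGroup.det_coe]

lemma toE_lin (A : SpecialLinearGroup (Fin 3) ℂ) : ((toE A : E3 →L[ℂ] E3) : E3 →ₗ[ℂ] E3) =
    Matrix.toEuclideanLin (A : Matrix (Fin 3) (Fin 3) ℂ) := rfl

lemma prod_sigma (A : SpecialLinearGroup (Fin 3) ℂ) : sigma 0 A * sigma 1 A * sigma 2 A = 1 := by
  have h1 := (Matrix.toEuclideanLin (A : Matrix (Fin 3) (Fin 3) ℂ)).normDet_eq_prod_singularValues
  rw [LinearMap.normDet_eq_norm_det, det_toE, norm_one] at h1
  have h2 : Module.finrank ℂ E3 = 3 := by simp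
  rw [h2, Finset.prod_range_succ, Finset.prod_range_succ, Finset.prod_range_succ,
    Finset.prod_range_zero, one_mul] at h1
  exact h1.symm

lemma sigma_nonneg (k : ℕ) (A : SpecialLinearGroup (Fin 3) ℂ) : 0 ≤ sigma k A :=
  LinearMap.singularValues_nonneg _ _

lemma sigma_anti (A : SpecialLinearGroup (Fin 3) ℂ) {i j : ℕ} (h : i ≤ j) : sigma j A ≤ sigma i A :=
  LinearMap.singularValues_antitone _ h

lemma one_le_sigma (A : SpecialLinearGroup (Fin 3) ℂ) : 1 ≤ sigma 0 A := by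
  by_contra hcon
  push Not at hcon
  have h0 := sigma_nonneg 0 A
  have h1 := sigma_nonneg 1 A
  have h2 := sigma_nonneg 2 A
  have h01 : sigma 1 A ≤ sigma 0 A := sigma_anti A (by norm_num)
  have h02 : sigma 2 A ≤ sigma 0 A := sigma_anti A (by norm_num)
  have h3 := prod_sigma A
  have h4 : sigma 0 A * sigma 1 A ≤ sigma 0 A * 1 := mul_le_mul_of_nonneg_left (by linarith) h0
  have h5 : sigma 0 A * sigma 1 A * sigma 2 A ≤ 1 * sigma 2 A :=
    mul_le_mul_of_nonneg_right (by linarith) h2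
  linarith

lemma sigma_pos (A : SpecialLinearGroup (Fin 3) ℂ) {k : ℕ} (hk : k < 3) : 0 < sigma k A := by
  have h2 : 0 < sigma 2 A := by
    rcases (sigma_nonneg 2 A).lt_or_eq with h | h
    · exact h
    · have := prod_sigma A
      rw [← h, mul_zero] at this
      exact absurd this zero_ne_one
  exact lt_of_lt_of_le h2 (sigma_anti A (by omega))

lemma norm_toE (A : SpecialLinearGroup (Fin 3) ℂ) : ‖toE A‖ = sigma 0 A :=
  (gap_of_singularValues (toE A) (n := 3) (by simp) (by norm_num)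
    (lt_of_lt_of_le one_pos (one_le_sigma A))).1

lemma gap_toE (A : SpecialLinearGroup (Fin 3) ℂ) : ∃ u v, Gap (toE A) (sigma 1 A / sigma 0 A) u v :=
  (gap_of_singularValues (toE A) (n := 3) (by simp) (by norm_num)
    (lt_of_lt_of_le one_pos (one_le_sigma A))).2

lemma wordLength_eq (S : Set Γ) (γ : Γ) : wordLength S γ = Pool.Agent.R787.Oper.wordLen S γ := rfl

section
variable (φ : Γ →* SL(2, ℝ)) (hfin : ∀ R : ℝ, {γ : Γ | disp (φ γ) ≤ R}.Finite) (B : ℝ)
  (hcov : ∀ g, ∃ γ, disp ((φ γ)⁻¹ * g) ≤ B - 1)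

/-- an Anosov representation has limit lines -/
lemma exists_EData_of_anosov {S : Set Γ} (hSfin : S.Finite) (hS : Subgroup.closure S = ⊤)
    (ρ : Γ →* SpecialLinearGroup (Fin 3) ℂ) (hρ : IsAnosov S ρ) :
    Nonempty (EData (mkSetup φ hfin B hcov) (toE.comp ρ)) := by
  obtain ⟨C, c, hC, hc, h⟩ := hρ
  obtain ⟨M, hM, hdisp⟩ := disp_le_wordLen hSfin hS φ
  refine exists_EData _ _ (C := C⁻¹) (c := c / M) (by positivity) (by positivity)
    (fun γ => ?_) (fun γ => ?_)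
  · change 1 ≤ ‖toE (ρ γ)‖
    rw [norm_toE]; exact one_le_sigma _
  · obtain ⟨u, v, huv⟩ := gap_toE (ρ γ)
    refine ⟨u, v, huv.mono ?_⟩
    have h1 := (h γ).1
    have s0 := sigma_pos (ρ γ) (k := 0) (by norm_num)
    have s1 := sigma_pos (ρ γ) (k := 1) (by norm_num)
    have h2 : sigma 1 (ρ γ) / sigma 0 (ρ γ) = (sigma 0 (ρ γ) / sigma 1 (ρ γ))⁻¹ := by
      rw [inv_div]
    rw [h2, Real.exp_neg, ← mul_inv]
    refine inv_anti₀ (by positivity) (le_trans ?_ h1)
    refine mul_le_mul_of_nonneg_left (Real.exp_le_exp.2 ?_) hC.le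
    change c / M * disp (φ γ) ≤ c * wordLength S γ
    rw [div_mul_eq_mul_div, div_le_iff₀ (by positivity), wordLength_eq]
    have := hdisp γ
    nlinarith

/-- the limit lines of a representation which extends to `SL(2, ℝ)` -/
lemma P_eq {T : SL(2, ℝ) →* SpecialLinearGroup (Fin 3) ℂ} (hT : Continuous T)
    (E : EData (mkSetup φ hfin B hcov) (toE.comp (T.comp φ))) {e : E3} (he : ‖e‖ = 1) {q : ℕ → ℝ}
    (hq0 : ∀ n, 0 ≤ q n) (hq : Tendsto q atTop (𝓝 0))
    (hgap : ∀ n : ℕ, Gap (toE (T (dg n))) (q n) e e) (g : SL(2, ℝ)) :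
    E.P g = pr (toE (T g) e) := by
  choose w hw using (mkSetup φ hfin B hcov).exists_good' g
  have h1 := E.tendsto_of_good hw
  set F : SL(2, ℝ) → ℝ := fun r => ‖toE (T r)‖ * ‖toE (T r⁻¹)‖ with hF
  have hFc : Continuous F := by
    have a1 : Continuous fun r => toE (T r) := continuous_toE.comp hT
    exact a1.norm.mul (a1.comp continuous_inv).norm
  obtain ⟨K, hK⟩ := (isCompact_disp B).bddAbove_image hFc.continuousOn
  have hinv : ∀ h : SL(2, ℝ), toE (T h⁻¹) * toE (T h) = 1 := by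
    intro h
    rw [← map_mul, ← map_mul, inv_mul_cancel, map_one, map_one]
  have hinv' : ∀ h : SL(2, ℝ), toE (T h) * toE (T h⁻¹) = 1 := by
    intro h
    rw [← map_mul, ← map_mul, mul_inv_cancel, map_one, map_one]
  have h2 : Tendsto (fun n => pr (E.u (w n))) atTop (𝓝 (pr (toE (T g) e))) := by
    rw [tendsto_iff_norm_sub_tendsto_zero]
    have e1 := (E.kappa_tendsto hw).add
      ((hq.mul_const (‖toE (T g)‖ * ‖toE (T g⁻¹)‖)).mul_const K)
    have e2 := e1.const_mul 4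
    simp only [zero_mul, add_zero, mul_zero] at e2
    refine squeeze_zero (fun _ => norm_nonneg _) (fun n => ?_) e2
    set r : SL(2, ℝ) := ((φ (w n))⁻¹ * g * dg n)⁻¹ with hr
    have hrB : disp r ≤ B := by
      rw [hr, disp_inv]
      have := hw n
      unfold Setup.good at this
      have ha : (mkSetup φ hfin B hcov).a ^ n = dg n := dg_nat n
      rw [ha] at this
      exact this
    have hmul : (toE.comp (T.comp φ)) (w n) = toE (T g) * toE (T (dg n)) * toE (T r) := by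
      rw [← map_mul, ← map_mul, ← map_mul, ← map_mul]
      change toE (T (φ (w n))) = _
      congr 2
      rw [hr]; group
    have g2 := E.gap (w n)
    rw [hmul] at g2
    have hpos : 0 < ‖toE (T g) * toE (T (dg n)) * toE (T r)‖ := by
      rw [← hmul]; exact lt_of_lt_of_le one_pos (E.one_le _)
    refine ((hgap n).mul_left (hinv g) (hinv' r) (hq0 n) hpos g2).trans ?_
    have hFr : ‖toE (T r)‖ * ‖toE (T r⁻¹)‖ ≤ K := hK ⟨r, hrB, rfl⟩
    have hqn := hq0 n
    gcongr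
  exact tendsto_nhds_unique h1 h2

end

/-- the first basis vector -/
noncomputable def e0 : E3 := EuclideanSpace.single 0 1

lemma norm_e0 : ‖e0‖ = 1 := by simp [e0]

/-- the gap of a diagonal matrix -/
lemma gap_diag {d : Fin 3 → ℝ} (h0 : 0 < d 0) (h1 : |d 1| ≤ d 0) (h2 : |d 2| ≤ d 0) {r : ℝ}
    (h1' : |d 1| ≤ r) (h2' : |d 2| ≤ r) :
    Gap (Matrix.toEuclideanCLM (n := Fin 3) (𝕜 := ℂ) (Matrix.diagonal fun j => (d j : ℂ)))
      (r / d 0) e0 e0 := by
  set D := Matrix.toEuclideanCLM (n := Fin 3) (𝕜 := ℂ) (Matrix.diagonal fun j => (d j : ℂ)) with hD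
  have hr : 0 ≤ r := (abs_nonneg _).trans h1'
  have q1 : d 1 ^ 2 ≤ d 0 ^ 2 := sq_le_sq' (by linarith [(abs_le.1 h1).1]) (abs_le.1 h1).2
  have q2 : d 2 ^ 2 ≤ d 0 ^ 2 := sq_le_sq' (by linarith [(abs_le.1 h2).1]) (abs_le.1 h2).2
  have q1' : d 1 ^ 2 ≤ r ^ 2 := sq_le_sq' (by linarith [(abs_le.1 h1').1]) (abs_le.1 h1').2
  have q2' : d 2 ^ 2 ≤ r ^ 2 := sq_le_sq' (by linarith [(abs_le.1 h2').1]) (abs_le.1 h2').2
  have hx : ∀ x : E3, ‖x‖ ^ 2 = ‖x 0‖ ^ 2 + ‖x 1‖ ^ 2 + ‖x 2‖ ^ 2 := by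
    intro x
    rw [EuclideanSpace.norm_sq_eq, Fin.sum_univ_three]
  have hDx : ∀ x : E3, ‖D x‖ ^ 2 = d 0 ^ 2 * ‖x 0‖ ^ 2 + d 1 ^ 2 * ‖x 1‖ ^ 2 + d 2 ^ 2 * ‖x 2‖ ^ 2 := by
    intro x
    rw [hD, norm_sq_diag, Fin.sum_univ_three]
  have hnorm : ‖D‖ = d 0 := by
    refine le_antisymm (D.opNorm_le_bound h0.le fun x => ?_) ?_
    · refine le_of_sq_le_sq ?_ (by positivity)
      rw [hDx, mul_pow, hx]
      nlinarith [sq_nonneg ‖x 0‖, sq_nonneg ‖x 1‖, sq_nonneg ‖x 2‖]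
    · have h3 := D.le_opNorm e0
      rw [norm_e0, mul_one] at h3
      have h4 : ‖D e0‖ ^ 2 = d 0 ^ 2 := by
        rw [hDx]; simp [e0]
      rw [sq_eq_sq₀ (norm_nonneg _) h0.le] at h4
      rwa [h4] at h3
  refine ⟨norm_e0, norm_e0, ?_⟩
  rw [hnorm, div_mul_cancel₀ _ h0.ne']
  refine ContinuousLinearMap.opNorm_le_bound _ hr fun x => ?_
  refine le_of_sq_le_sq ?_ (by positivity)
  have e1 : (D - (d 0 : ℂ) • rankOne ℂ e0 e0) x = D x - ((d 0 : ℂ) * x 0) • e0 := by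
    rw [_root_.sub_apply, _root_.smul_apply, rankOne_apply, smul_smul]
    congr 3
    simp [e0, EuclideanSpace.inner_single_left]
  rw [e1, hx, mul_pow, hx]
  have e2 : ∀ i, (D x - ((d 0 : ℂ) * x 0) • e0) i = (d i : ℂ) * x i - (d 0 : ℂ) * x 0 * e0 i := by
    intro i
    rw [PiLp.sub_apply, PiLp.smul_apply, hD, diag_apply, smul_eq_mul]
  rw [e2, e2, e2]
  have v0 : e0 0 = 1 := by simp [e0]
  have v1 : e0 1 = 0 := by simp [e0]
  have v2 : e0 2 = 0 := by simp [e0]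
  rw [v0, v1, v2]
  simp only [mul_one, sub_self, norm_zero, mul_zero, sub_zero, norm_mul, Complex.norm_real,
    Real.norm_eq_abs, mul_pow, sq_abs]
  nlinarith [sq_nonneg ‖x 0‖, sq_nonneg ‖x 1‖, sq_nonneg ‖x 2‖, sq_nonneg r,
    mul_nonneg (sq_nonneg r) (sq_nonneg ‖x 0‖)]

lemma gap_rho3 (n : ℕ) : Gap (toE (rho3 (dg n))) (Real.exp (-(n : ℝ))) e0 e0 := by
  have h := gap_diag (d := ![Real.exp (n : ℝ), 1, Real.exp (-(n : ℝ))]) (r := 1)
    (by simpa using Real.exp_pos _) (by simp) (by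
      simp only [Matrix.cons_val_zero, Matrix.cons_val]
      rw [abs_of_pos (Real.exp_pos _), Real.exp_le_exp]
      have : (0 : ℝ) ≤ n := Nat.cast_nonneg n
      linarith) (by simp) (by
      simp only [Matrix.cons_val]
      rw [abs_of_pos (Real.exp_pos _), Real.exp_le_one_iff]
      have : (0 : ℝ) ≤ n := Nat.cast_nonneg n
      linarith)
  rw [← diag_eq, ← rho3_dg] at h
  have e : 1 / ![Real.exp (n : ℝ), 1, Real.exp (-(n : ℝ))] 0 = Real.exp (-(n : ℝ)) := by
    simp [Real.exp_neg]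
  rw [e] at h
  exact h

lemma gap_rho21 (n : ℕ) : Gap (toE (rho21 (dg n))) (Real.exp (-((n : ℝ) / 2))) e0 e0 := by
  have hn : (0 : ℝ) ≤ n := Nat.cast_nonneg n
  have h := gap_diag (d := ![Real.exp ((n : ℝ) / 2), Real.exp (-((n : ℝ) / 2)), 1]) (r := 1)
    (by simpa using Real.exp_pos _) (by
      simp only [Matrix.cons_val_zero, Matrix.cons_val]
      rw [abs_of_pos (Real.exp_pos _), Real.exp_le_exp]
      linarith) (by
      simp only [Matrix.cons_val_zero, Matrix.cons_val]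
      rw [abs_one, Real.one_le_exp_iff]
      linarith) (by
      simp only [Matrix.cons_val]
      rw [abs_of_pos (Real.exp_pos _), Real.exp_le_one_iff]
      linarith) (by simp)
  rw [← diag_eq, ← rho21_dg] at h
  have e : 1 / ![Real.exp ((n : ℝ) / 2), Real.exp (-((n : ℝ) / 2)), 1] 0 =
      Real.exp (-((n : ℝ) / 2)) := by
    simp [Real.exp_neg]
  rw [e] at h
  exact h

lemma neg_one_central (g : SL(2, ℝ)) : (-1) * g = g * (-1) := by simp

lemma rho3_neg (g : SL(2, ℝ)) : rho3 (-1 * g) = rho3 g := by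
  have : rho3 (-1) = 1 := by
    ext i j
    fin_cases i <;> fin_cases j <;> simp [rho3]
  rw [map_mul, this, one_mul]

lemma rho21_neg (g : SL(2, ℝ)) : toE (rho21 (-1 * g)) e0 = -toE (rho21 g) e0 := by
  have : toE (rho21 (-1)) e0 = -e0 := by
    ext i
    fin_cases i <;> simp [toE, rho21, e0, Matrix.mulVec, dotProduct]
  have e : rho21 (-1 * g) = rho21 g * rho21 (-1) := by rw [neg_one_central, map_mul]
  rw [e, map_mul, mul_apply_eq_comp, this, map_neg]

section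
variable (φ : Γ →* SL(2, ℝ)) (hfin : ∀ R : ℝ, {γ : Γ | disp (φ γ) ≤ R}.Finite) (B : ℝ)
  (hcov : ∀ g, ∃ γ, disp ((φ γ)⁻¹ * g) ≤ B - 1)

lemma exp_tendsto {c : ℝ} (hc : 0 < c) : Tendsto (fun n : ℕ => Real.exp (-(c * n))) atTop (𝓝 0) :=
  Real.tendsto_exp_neg_atTop_nhds_zero.comp (tendsto_natCast_atTop_atTop.const_mul_atTop hc)

lemma hasSec_rho3 (E : EData (mkSetup φ hfin B hcov) (toE.comp (rho3.comp φ))) :
    HasSec (mkSetup φ hfin B hcov) (-1) (toE.comp (rho3.comp φ)) E.P := by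
  have hP := P_eq φ hfin B hcov continuous_rho3 E norm_e0 (fun n => (Real.exp_pos _).le)
    (by simpa using exp_tendsto one_pos) gap_rho3
  refine ⟨fun g => ContinuousLinearMap.adjoint (toE (rho3 g⁻¹)) e0, ?_, ?_, ?_, ?_⟩
  · have h1 : Continuous fun g : SL(2, ℝ) => ContinuousLinearMap.adjoint (toE (rho3 g⁻¹)) :=
      ContinuousLinearMap.adjoint.continuous.comp
        (continuous_toE.comp (continuous_rho3.comp continuous_inv))
    exact h1.clm_apply continuous_const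
  · intro δ g
    change ContinuousLinearMap.adjoint (toE (rho3 (φ δ * g)⁻¹)) e0 =
      ContinuousLinearMap.adjoint (toE (rho3 (φ δ⁻¹))) (ContinuousLinearMap.adjoint
        (toE (rho3 g⁻¹)) e0)
    rw [_root_.mul_inv_rev, map_mul, map_mul, map_inv φ]
    have := ContinuousLinearMap.adjoint_comp (toE (rho3 g⁻¹)) (toE (rho3 (φ δ)⁻¹))
    change ContinuousLinearMap.adjoint (toE (rho3 g⁻¹) * toE (rho3 (φ δ)⁻¹)) = _ at this
    rw [this]
    rfl
  · intro g
    have : (-1 * g)⁻¹ = -1 * g⁻¹ := by simp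
    change ContinuousLinearMap.adjoint (toE (rho3 (-1 * g)⁻¹)) e0 =
      ContinuousLinearMap.adjoint (toE (rho3 g⁻¹)) e0
    rw [this, rho3_neg]
  · intro g
    have he : e0 ≠ 0 := by intro h; have := norm_e0; rw [h, norm_zero] at this; exact zero_ne_one this
    have h1 : toE (rho3 g⁻¹) * toE (rho3 g) = 1 := by
      rw [← map_mul, ← map_mul, inv_mul_cancel, map_one, map_one]
    have h2 : toE (rho3 g⁻¹) (toE (rho3 g) e0) = e0 := by
      rw [← mul_apply_eq_comp, h1, one_apply_eq_self]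
    have h3 : toE (rho3 g) e0 ≠ 0 := by
      intro h; rw [h, map_zero] at h2; exact he h2.symm
    rw [hP, pr_apply_ne_zero h3, ContinuousLinearMap.adjoint_inner_right, h2,
      inner_self_eq_norm_sq_to_K, norm_e0]
    norm_num

lemma not_hasSec_rho21 (E : EData (mkSetup φ hfin B hcov) (toE.comp (rho21.comp φ))) :
    ¬ HasSec (mkSetup φ hfin B hcov) (-1) (toE.comp (rho21.comp φ)) E.P := by
  rintro ⟨σ, hσc, hσe, hσz, hσ0⟩
  have hP := P_eq φ hfin B hcov continuous_rho21 E norm_e0 (fun n => (Real.exp_pos _).le)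
    (q := fun n => Real.exp (-((n : ℝ) / 2)))
    (by
      have := exp_tendsto (c := 1 / 2) (by norm_num)
      refine this.congr fun n => ?_
      congr 1; ring) gap_rho21
  have he : e0 ≠ 0 := by intro h; have := norm_e0; rw [h, norm_zero] at this; exact zero_ne_one this
  have h3 : ∀ g, toE (rho21 g) e0 ≠ 0 := by
    intro g h
    have h1 : toE (rho21 g⁻¹) * toE (rho21 g) = 1 := by
      rw [← map_mul, ← map_mul, inv_mul_cancel, map_one, map_one]
    have h2 : toE (rho21 g⁻¹) (toE (rho21 g) e0) = e0 := by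
      rw [← mul_apply_eq_comp, h1, one_apply_eq_self]
    rw [h, map_zero] at h2
    exact he h2.symm
  have := preconnectedSL
  have := locallyCompactSL
  refine no_odd (s := mkSetup φ hfin B hcov) isCompact_disp (z := -1) neg_one_central
    root_neg_one (f := fun g => inner ℂ (toE (rho21 g) e0) (σ g)) ?_ ?_ ?_ ?_
  · have h1 : Continuous fun g : SL(2, ℝ) => toE (rho21 g) e0 :=
      (continuous_toE.comp continuous_rho21).clm_apply continuous_const
    exact h1.inner hσc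
  · intro g
    have := hσ0 g
    rwa [hP, pr_apply_ne_zero (h3 g)] at this
  · intro δ g
    have h1 := hσe δ g
    change σ (φ δ * g) = _ at h1
    change inner ℂ (toE (rho21 (φ δ * g)) e0) (σ (φ δ * g)) = _
    rw [h1, map_mul, map_mul, mul_apply_eq_comp]
    exact inner_dual (toE.comp (rho21.comp φ)) δ _ _
  · intro g
    rw [hσz, rho21_neg, inner_neg_left]

end

/-- membership -/
lemma rho3_anosov (φ : Γ →* SL(2, ℝ)) {S : Set Γ} {A : ℕ}
    (hA : ∀ γ, (wordLength S γ : ℝ) ≤ A * (disp (φ γ) + 2)) : IsAnosov S (rho3.comp φ) := by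
  refine ⟨Real.exp (-2), 1 / (A + 1), Real.exp_pos _, by positivity, fun γ => ?_⟩
  have h0 : sigma 0 (rho3 (φ γ)) = Real.exp (disp (φ γ)) := by
    have := sing_rho3 (φ γ) 0
    simpa [sigma] using this
  have h1 : sigma 1 (rho3 (φ γ)) = 1 := by
    have := sing_rho3 (φ γ) 1
    simpa [sigma] using this
  have h2 : sigma 2 (rho3 (φ γ)) = Real.exp (-disp (φ γ)) := by
    have := sing_rho3 (φ γ) 2
    have e : (1 - (((2 : Fin 3) : ℕ) : ℝ)) * disp (φ γ) = -disp (φ γ) := by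
      norm_num
    rw [e] at this
    exact this
  have key : Real.exp (-2) * Real.exp (1 / (A + 1) * wordLength S γ) ≤ Real.exp (disp (φ γ)) := by
    rw [← Real.exp_add, Real.exp_le_exp]
    have h3 := hA γ
    have hd : 0 ≤ disp (φ γ) := dist_nonneg
    have h4 : 1 / ((A : ℝ) + 1) * wordLength S γ ≤ disp (φ γ) + 2 := by
      rw [one_div, inv_mul_le_iff₀ (by positivity)]
      nlinarith
    linarith
  change _ ≤ sigma 0 (rho3 (φ γ)) / sigma 1 (rho3 (φ γ)) ∧
    _ ≤ sigma 1 (rho3 (φ γ)) / sigma 2 (rho3 (φ γ))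
  have e1 : 1 / Real.exp (-disp (φ γ)) = Real.exp (disp (φ γ)) := by
    rw [Real.exp_neg, one_div, inv_inv]
  rw [h0, h1, h2, div_one, e1]
  exact ⟨key, key⟩

lemma rho21_anosov (φ : Γ →* SL(2, ℝ)) {S : Set Γ} {A : ℕ}
    (hA : ∀ γ, (wordLength S γ : ℝ) ≤ A * (disp (φ γ) + 2)) : IsAnosov S (rho21.comp φ) := by
  refine ⟨Real.exp (-1), 1 / (2 * (A + 1)), Real.exp_pos _, by positivity, fun γ => ?_⟩
  have h0 : sigma 0 (rho21 (φ γ)) = Real.exp (disp (φ γ) / 2) := by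
    have := sing_rho21 (φ γ) 0
    simpa [sigma] using this
  have h1 : sigma 1 (rho21 (φ γ)) = 1 := by
    have := sing_rho21 (φ γ) 1
    simpa [sigma] using this
  have h2 : sigma 2 (rho21 (φ γ)) = Real.exp (-(disp (φ γ) / 2)) := by
    have := sing_rho21 (φ γ) 2
    have e : (1 - (((2 : Fin 3) : ℕ) : ℝ)) * (disp (φ γ) / 2) = -(disp (φ γ) / 2) := by
      norm_num
    rw [e] at this
    exact this
  have key : Real.exp (-1) * Real.exp (1 / (2 * (A + 1)) * wordLength S γ) ≤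
      Real.exp (disp (φ γ) / 2) := by
    rw [← Real.exp_add, Real.exp_le_exp]
    have h3 := hA γ
    have hd : 0 ≤ disp (φ γ) := dist_nonneg
    have h4 : 1 / (2 * ((A : ℝ) + 1)) * wordLength S γ ≤ disp (φ γ) / 2 + 1 := by
      rw [one_div, inv_mul_le_iff₀ (by positivity)]
      nlinarith
    linarith
  change _ ≤ sigma 0 (rho21 (φ γ)) / sigma 1 (rho21 (φ γ)) ∧
    _ ≤ sigma 1 (rho21 (φ γ)) / sigma 2 (rho21 (φ γ))
  have e1 : 1 / Real.exp (-(disp (φ γ) / 2)) = Real.exp (disp (φ γ) / 2) := by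
    rw [Real.exp_neg, one_div, inv_inv]
  rw [h0, h1, h2, div_one, e1]
  exact ⟨key, key⟩

/-- the main theorem -/
theorem main (φ : Γ →* SL(2, ℝ)) (hinj : Injective φ) [DiscreteTopology φ.range]
    [CompactSpace (SL(2, ℝ) ⧸ φ.range)] (S : Set Γ) (hSfin : S.Finite)
    (hS : Subgroup.closure S = ⊤) :
    (⇑(rho3.comp φ) ∈ anosovLocus S ∧ ⇑(rho21.comp φ) ∈ anosovLocus S) ∧
    ⇑(rho21.comp φ) ∉ connectedComponentIn (anosovLocus S) ⇑(rho3.comp φ) := by
  obtain ⟨A, hA⟩ := wordLen_le_disp hS φ hinj (isCocompact_range φ)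
  have m3 : ⇑(rho3.comp φ) ∈ anosovLocus S := ⟨_, rho3_anosov φ hA, rfl⟩
  have m21 : ⇑(rho21.comp φ) ∈ anosovLocus S := ⟨_, rho21_anosov φ hA, rfl⟩
  refine ⟨⟨m3, m21⟩, fun hmem => ?_⟩
  obtain ⟨B, hcov⟩ := exists_cover φ
  have hfin := finite_disp_le φ hinj
  set s := mkSetup φ hfin B hcov with hs
  -- the invariant
  set Q : (Γ → SpecialLinearGroup (Fin 3) ℂ) → Prop := fun f =>
    ∃ ρ : Γ →* SpecialLinearGroup (Fin 3) ℂ, f = ρ ∧ ∃ E : EData s (toE.comp ρ),
      HasSec s (-1) (toE.comp ρ) E.P with hQ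
  have hloc : ∀ f ∈ anosovLocus S, ∃ N : Set (Γ → SpecialLinearGroup (Fin 3) ℂ), IsOpen N ∧ f ∈ N ∧
      ∀ f' ∈ N, f' ∈ anosovLocus S → (Q f' ↔ Q f) := by
    rintro f ⟨ρ, hρ, rfl⟩
    obtain ⟨E⟩ := exists_EData_of_anosov φ hfin B hcov hSfin hS ρ hρ
    obtain ⟨R, ε, hε, H⟩ := hasSec_locally E (isCompact_disp s.B) (z := -1) neg_one_central
      disp_neg_one_mul
    set F := hfin R with hF
    refine ⟨⋂ γ ∈ {γ : Γ | disp (φ γ) ≤ R}, {f' | ‖toE (f' γ) - toE (ρ γ)‖ < ε}, ?_, ?_, ?_⟩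
    · refine Set.Finite.isOpen_biInter F fun γ _ => ?_
      have hc : Continuous fun f' : Γ → SpecialLinearGroup (Fin 3) ℂ =>
          ‖toE (f' γ) - toE (ρ γ)‖ :=
        ((continuous_toE.comp (continuous_apply γ)).sub continuous_const).norm
      exact isOpen_lt hc continuous_const
    · refine Set.mem_iInter₂.2 fun γ _ => ?_
      simp [hε]
    · rintro f' hf' ⟨ρ', hρ', rfl⟩
      have hclose : ∀ γ, s.L (s.φ γ) ≤ R →
          ‖(toE.comp ρ') γ - (toE.comp ρ) γ‖ ≤ ε := fun γ hγ =>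
        (Set.mem_iInter₂.1 hf' γ hγ).le
      have key := H (toE.comp ρ') hclose
      constructor
      · rintro ⟨ρ'', h1, E'', h2⟩
        have : ρ' = ρ'' := MonoidHom.ext fun γ => congrFun h1 γ
        subst this
        exact ⟨ρ, rfl, E, (key E'').1 h2⟩
      · rintro ⟨ρ'', h1, E'', h2⟩
        have : ρ = ρ'' := MonoidHom.ext fun γ => congrFun h1 γ
        subst this
        obtain ⟨E'⟩ := exists_EData_of_anosov φ hfin B hcov hSfin hS ρ' hρ'
        refine ⟨ρ', rfl, E', (key E').2 ?_⟩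
        rw [E.unique E'']
        exact h2
  choose! N hNo hNm hNq using hloc
  have hQ3 : Q ⇑(rho3.comp φ) := by
    obtain ⟨E⟩ := exists_EData_of_anosov φ hfin B hcov hSfin hS _ (rho3_anosov φ hA)
    exact ⟨_, rfl, E, hasSec_rho3 φ hfin B hcov E⟩
  have hQ21 : ¬ Q ⇑(rho21.comp φ) := by
    rintro ⟨ρ, h1, E, h2⟩
    have : rho21.comp φ = ρ := MonoidHom.ext fun γ => congrFun h1 γ
    subst this
    exact not_hasSec_rho21 φ hfin B hcov E h2
  set X := connectedComponentIn (anosovLocus S) ⇑(rho3.comp φ) with hX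
  have hXs : X ⊆ anosovLocus S := connectedComponentIn_subset _ _
  have hpre : IsPreconnected X := isPreconnected_connectedComponentIn
  set U := ⋃ f ∈ {f | f ∈ anosovLocus S ∧ Q f}, N f with hU
  set W := ⋃ f ∈ {f | f ∈ anosovLocus S ∧ ¬ Q f}, N f with hW
  have hUo : IsOpen U := isOpen_biUnion fun f hf => hNo f hf.1
  have hWo : IsOpen W := isOpen_biUnion fun f hf => hNo f hf.1
  have hsub : X ⊆ U ∪ W := by
    intro f hf
    by_cases hq : Q f
    · exact Or.inl (Set.mem_biUnion (show f ∈ {f | f ∈ anosovLocus S ∧ Q f} from ⟨hXs hf, hq⟩)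
        (hNm f (hXs hf)))
    · exact Or.inr (Set.mem_biUnion (show f ∈ {f | f ∈ anosovLocus S ∧ ¬ Q f} from ⟨hXs hf, hq⟩)
        (hNm f (hXs hf)))
  have hn1 : (X ∩ U).Nonempty := ⟨_, mem_connectedComponentIn m3,
    Set.mem_biUnion (show _ ∈ {f | f ∈ anosovLocus S ∧ Q f} from ⟨m3, hQ3⟩) (hNm _ m3)⟩
  have hn2 : (X ∩ W).Nonempty := ⟨_, hmem,
    Set.mem_biUnion (show _ ∈ {f | f ∈ anosovLocus S ∧ ¬ Q f} from ⟨m21, hQ21⟩) (hNm _ m21)⟩
  obtain ⟨f, hfX, hfU, hfW⟩ := hpre U W hUo hWo hsub hn1 hn2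
  simp only [hU, hW, Set.mem_iUnion] at hfU hfW
  obtain ⟨f₁, ⟨h1, h1'⟩, h1''⟩ := hfU
  obtain ⟨f₂, ⟨h2, h2'⟩, h2''⟩ := hfW
  have a1 := (hNq f₁ h1 f h1'' (hXs hfX)).2 h1'
  exact h2' ((hNq f₂ h2 f h2'' (hXs hfX)).1 a1)

end Pool.Agent.W2helper8.AN
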