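import Pool.Agent.W2helper8.AN.Haar

/-!
# There is no odd nowhere zero function on the quotient
-/

set_option autoImplicit false

open MeasureTheory Filter Topology Function

namespace Pool.Agent.W2helper8.AN

variable {Γ G : Type*} [Group Γ] [Group G] [TopologicalSpace G] {s : Setup Γ G}

/-- `f` varies little along right multiplication by `h` -/
def small (f : G → ℂ) (h : G) : Prop := ∀ g, ‖f (g * h) / f g - 1‖ < 1 / 2

/-- the variation of the phase -/
noncomputable def ph (f : G → ℂ) (h g : G) : ℝ := Complex.arg (f (g * h) / f g)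

lemma re_pos_of {z : ℂ} (h : ‖z - 1‖ < 1 / 2) : 0 < z.re := by
  have h1 := Complex.abs_re_le_norm (z - 1)
  rw [Complex.sub_re, Complex.one_re] at h1
  have h2 := abs_lt.1 (lt_of_le_of_lt h1 h)
  linarith [h2.1]

lemma small_eventually [IsTopologicalGroup G] (hcpt : ∀ R, IsCompact {g | s.L g ≤ R}) {f : G → ℂ}
    (hf : Continuous f) (hf0 : ∀ g, f g ≠ 0) (hfi : ∀ δ g, f (s.φ δ * g) = f g) :
    ∀ᶠ h in 𝓝 (1 : G), small f h := by
  have h1 : ∀ᶠ h in 𝓝 (1 : G), ∀ g ∈ {g | s.L g ≤ s.B}, ‖f (g * h) / f g - 1‖ < 1 / 2 := by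
    refine IsCompact.eventually_forall_of_forall_eventually (hcpt s.B)
      (P := fun h g => ‖f (g * h) / f g - 1‖ < 1 / 2) fun g _ => ?_
    have hc : Continuous fun p : G × G => ‖f (p.2 * p.1) / f p.2 - 1‖ := by
      refine Continuous.norm (Continuous.sub (Continuous.div ?_ ?_ fun p => hf0 _) continuous_const)
      · exact hf.comp (by fun_prop)
      · exact hf.comp (by fun_prop)
    refine (hc.tendsto (1, g)).eventually_lt_const ?_
    simp [hf0 g]
  filter_upwards [h1] with h hh g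
  obtain ⟨γ, hγ⟩ := s.cov g
  have := hh ((s.φ γ)⁻¹ * g) (by
    change s.L ((s.φ γ)⁻¹ * g) ≤ s.B
    linarith)
  rw [mul_assoc, ← map_inv s.φ, hfi, hfi] at this
  exact this

lemma ph_cont [IsTopologicalGroup G] {f : G → ℂ} (hf : Continuous f) (hf0 : ∀ g, f g ≠ 0) {h : G}
    (hh : small f h) : Continuous (ph f h) := by
  rw [continuous_iff_continuousAt]
  intro g
  have hc : Continuous fun g => f (g * h) / f g :=
    Continuous.div (hf.comp (by fun_prop)) hf hf0
  refine ContinuousAt.comp (f := fun g => f (g * h) / f g) ?_ hc.continuousAt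
  refine Complex.continuousAt_arg ?_
  rw [Complex.mem_slitPlane_iff]
  exact Or.inl (re_pos_of (hh g))

lemma ph_mul {f : G → ℂ} (hf0 : ∀ g, f g ≠ 0) {h k : G} (hh : small f h)
    (hk : small f k) (g : G) : ph f (h * k) g = ph f h g + ph f k (g * h) := by
  unfold ph
  have e : f (g * (h * k)) / f g = (f (g * h) / f g) * (f (g * h * k) / f (g * h)) := by
    rw [mul_assoc]
    have := hf0 g
    have := hf0 (g * h)
    field_simp
  have h1 := re_pos_of (hh g)
  have h2 := re_pos_of (hk (g * h))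
  have a1 := abs_lt.1 ((Complex.abs_arg_lt_pi_div_two_iff).2 (Or.inl h1))
  have a2 := abs_lt.1 ((Complex.abs_arg_lt_pi_div_two_iff).2 (Or.inl h2))
  rw [e, Complex.arg_mul (div_ne_zero (hf0 _) (hf0 _)) (div_ne_zero (hf0 _) (hf0 _))]
  constructor <;> linarith [a1.1, a1.2, a2.1, a2.2]

section
variable [IsTopologicalGroup G] [LocallyCompactSpace G] [MeasurableSpace G] [BorelSpace G]
  (μ : Measure G) [μ.IsHaarMeasure]

/-- the average variation of the phase -/
noncomputable def rot (s : Setup Γ G) (μ : Measure G) (f : G → ℂ) (h : G) : ℝ := avg s μ (ph f h)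

lemma rot_mul (hcpt : ∀ R, IsCompact {g | s.L g ≤ R}) {f : G → ℂ}
    (hf : Continuous f) (hf0 : ∀ g, f g ≠ 0) (hfi : ∀ δ g, f (s.φ δ * g) = f g) {h k : G}
    (hh : small f h) (hk : small f k) : rot s μ f (h * k) = rot s μ f h + rot s μ f k := by
  unfold rot
  have e : ph f (h * k) = fun g => ph f h g + ph f k (g * h) := funext (ph_mul hf0 hh hk)
  have hc : Continuous fun g => ph f k (g * h) := (ph_cont hf hf0 hk).comp (by fun_prop)
  rw [e, avg_add μ hcpt (ph_cont hf hf0 hh) hc, avg_right_inv μ hcpt h (ph_cont hf hf0 hk)]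
  intro δ g
  unfold ph
  rw [mul_assoc, hfi, hfi]

lemma small_one {f : G → ℂ} (hf0 : ∀ g, f g ≠ 0) : small f 1 := by
  intro g
  rw [mul_one, div_self (hf0 g)]
  norm_num

lemma rot_one {f : G → ℂ} (hf0 : ∀ g, f g ≠ 0) : rot s μ f 1 = 0 := by
  have : ph f 1 = fun _ => 0 := by
    funext g
    unfold ph
    rw [mul_one, div_self (hf0 g), Complex.arg_one]
  unfold rot avg
  rw [this]
  simp

lemma rot_inv (hcpt : ∀ R, IsCompact {g | s.L g ≤ R}) {f : G → ℂ}
    (hf : Continuous f) (hf0 : ∀ g, f g ≠ 0) (hfi : ∀ δ g, f (s.φ δ * g) = f g) {h : G}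
    (hh : small f h) (hh' : small f h⁻¹) : rot s μ f h⁻¹ = -rot s μ f h := by
  have := rot_mul μ hcpt hf hf0 hfi hh hh'
  rw [mul_inv_cancel, rot_one μ hf0] at this
  linarith

/-- small commutators do not contribute -/
lemma rot_commutator (hcpt : ∀ R, IsCompact {g | s.L g ≤ R}) {f : G → ℂ}
    (hf : Continuous f) (hf0 : ∀ g, f g ≠ 0) (hfi : ∀ δ g, f (s.φ δ * g) = f g) :
    ∃ U ∈ 𝓝 (1 : G), ∀ a ∈ U, ∀ b ∈ U, small f (a * b * a⁻¹ * b⁻¹) ∧
      rot s μ f (a * b * a⁻¹ * b⁻¹) = 0 := by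
  have hs := small_eventually hcpt hf hf0 hfi
  have key : ∀ F : G × G → G, Continuous F → F (1, 1) = 1 →
      ∀ᶠ p in 𝓝 ((1 : G), (1 : G)), small f (F p) := by
    intro F hF h1
    have := hF.tendsto (1, 1)
    rw [h1] at this
    exact this.eventually hs
  have all := ((key (fun p => p.1) (by fun_prop) rfl).and
    ((key (fun p => p.2) (by fun_prop) rfl).and
    ((key (fun p => p.1⁻¹) (by fun_prop) (by simp)).and
    ((key (fun p => p.2⁻¹) (by fun_prop) (by simp)).and
    ((key (fun p => p.1 * p.2) (by fun_prop) (by simp)).and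
    ((key (fun p => p.1 * p.2 * p.1⁻¹) (by fun_prop) (by simp)).and
    (key (fun p => p.1 * p.2 * p.1⁻¹ * p.2⁻¹) (by fun_prop) (by simp))))))))
  rw [nhds_prod_eq] at all
  obtain ⟨U₁, h₁, U₂, h₂, hU⟩ := Filter.eventually_prod_iff.1 all
  refine ⟨{a | U₁ a} ∩ {b | U₂ b}, inter_mem h₁ h₂, ?_⟩
  rintro a ⟨ha, -⟩ b ⟨-, hb⟩
  obtain ⟨q1, q2, q3, q4, q5, q6, q7⟩ := hU ha hb
  refine ⟨q7, ?_⟩
  rw [rot_mul μ hcpt hf hf0 hfi q6 q4, rot_mul μ hcpt hf hf0 hfi q5 q3,
    rot_mul μ hcpt hf hf0 hfi q1 q2, rot_inv μ hcpt hf hf0 hfi q1 q3,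
    rot_inv μ hcpt hf hf0 hfi q2 q4]
  ring

end

/-- a group with the following property has no odd nowhere zero invariant function: `z` has roots
which are products of three small commutators -/
theorem no_odd [IsTopologicalGroup G] [LocallyCompactSpace G] [PreconnectedSpace G]
    (hcpt : ∀ R, IsCompact {g | s.L g ≤ R}) {z : G} (hz : ∀ g, z * g = g * z)
    (hroot : ∀ U ∈ 𝓝 (1 : G), ∃ (n : ℕ) (a b c d e k : G), a ∈ U ∧ b ∈ U ∧ c ∈ U ∧ d ∈ U ∧ e ∈ U ∧
      k ∈ U ∧ ((a * b * a⁻¹ * b⁻¹) * (c * d * c⁻¹ * d⁻¹) * (e * k * e⁻¹ * k⁻¹)) ^ n = z ∧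
      (a * b * a⁻¹ * b⁻¹) * (c * d * c⁻¹ * d⁻¹) ∈ U ∧
      (a * b * a⁻¹ * b⁻¹) * (c * d * c⁻¹ * d⁻¹) * (e * k * e⁻¹ * k⁻¹) ∈ U)
    {f : G → ℂ} (hf : Continuous f) (hf0 : ∀ g, f g ≠ 0) (hfi : ∀ δ g, f (s.φ δ * g) = f g)
    (hodd : ∀ g, f (z * g) = -f g) : False := by
  borelize G
  set μ : Measure G := Measure.haar with hμ
  obtain ⟨U, hU, hcomm⟩ := rot_commutator μ hcpt hf hf0 hfi
  have hs := small_eventually hcpt hf hf0 hfi
  obtain ⟨n, a, b, c, d, e, k, ha, hb, hc, hd, he, hk, hpow, hab, habc⟩ :=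
    hroot (U ∩ {h | small f h}) (inter_mem hU hs)
  obtain ⟨s1, r1⟩ := hcomm a ha.1 b hb.1
  obtain ⟨s2, r2⟩ := hcomm c hc.1 d hd.1
  obtain ⟨s3, r3⟩ := hcomm e he.1 k hk.1
  set x := (a * b * a⁻¹ * b⁻¹) * (c * d * c⁻¹ * d⁻¹) * (e * k * e⁻¹ * k⁻¹) with hx
  have hxs : small f x := habc.2
  have hrx : rot s μ f x = 0 := by
    rw [hx, rot_mul μ hcpt hf hf0 hfi hab.2 s3, rot_mul μ hcpt hf hf0 hfi s1 s2, r1, r2, r3]
    ring
  -- the total variation
  set T : ℕ → G → ℝ := fun m g => ∑ j ∈ Finset.range m, ph f x (g * x ^ j) with hT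
  have hTc : ∀ m, Continuous (T m) := by
    intro m
    refine continuous_finset_sum _ fun j _ => (ph_cont hf hf0 hxs).comp (by fun_prop)
  have hphi : ∀ δ g, ph f x (s.φ δ * g) = ph f x g := by
    intro δ g
    unfold ph
    rw [mul_assoc, hfi, hfi]
  have hTi : ∀ m, avg s μ (T m) = 0 := by
    intro m
    induction m with
    | zero => simp [hT, avg]
    | succ m ih =>
      have e1 : T (m + 1) = fun g => T m g + ph f x (g * x ^ m) := by
        funext g
        simp only [hT]
        rw [Finset.sum_range_succ]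
      have hc : Continuous fun g => ph f x (g * x ^ m) := (ph_cont hf hf0 hxs).comp (by fun_prop)
      rw [e1, avg_add μ hcpt (hTc m) hc, ih,
        avg_right_inv μ hcpt (x ^ m) (ph_cont hf hf0 hxs) hphi]
      rw [zero_add]
      exact hrx
  have hTe : ∀ m g, ∃ r : ℝ, 0 < r ∧ f (g * x ^ m) = (r : ℂ) * Complex.exp (T m g * Complex.I) * f g := by
    intro m g
    induction m with
    | zero => exact ⟨1, one_pos, by simp [hT]⟩
    | succ m ih =>
      obtain ⟨r, hr, h1⟩ := ih
      set w := f (g * x ^ m * x) / f (g * x ^ m) with hw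
      have hw0 : w ≠ 0 := div_ne_zero (hf0 _) (hf0 _)
      refine ⟨‖w‖ * r, mul_pos (norm_pos_iff.2 hw0) hr, ?_⟩
      have e1 : T (m + 1) g = T m g + Complex.arg w := by
        simp only [hT]
        rw [Finset.sum_range_succ]
        rfl
      have e2 : f (g * x ^ (m + 1)) = w * f (g * x ^ m) := by
        rw [pow_succ, ← mul_assoc, hw, div_mul_cancel₀ _ (hf0 _)]
      rw [e2, h1, e1]
      have e3 : w = (‖w‖ : ℂ) * Complex.exp (Complex.arg w * Complex.I) :=
        (Complex.norm_mul_exp_arg_mul_I w).symm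
      conv_lhs => rw [e3]
      push_cast
      rw [add_mul, Complex.exp_add]
      ring
  have hexp : ∀ g, Complex.exp (T n g * Complex.I) = -1 := by
    intro g
    obtain ⟨r, hr, h1⟩ := hTe n g
    rw [hpow, ← hz, hodd] at h1
    have h2 : (r : ℂ) * Complex.exp (T n g * Complex.I) = -1 := by
      have := hf0 g
      have h3 : ((r : ℂ) * Complex.exp (T n g * Complex.I) + 1) * f g = 0 := by
        linear_combination -h1
      rcases mul_eq_zero.1 h3 with h | h
      · linear_combination h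
      · exact absurd h this
    have h3 : r = 1 := by
      have := congrArg norm h2
      rw [norm_mul, Complex.norm_exp_ofReal_mul_I, mul_one, norm_neg, norm_one, Complex.norm_real,
        Real.norm_of_nonneg hr.le] at this
      exact this
    rw [h3] at h2
    simpa using h2
  have hloc : IsLocallyConstant (T n) := by
    rw [IsLocallyConstant.iff_eventually_eq]
    intro g
    have : ∀ᶠ g' in 𝓝 g, |T n g' - T n g| < 2 * Real.pi := by
      have hc : Continuous fun g' => |T n g' - T n g| := ((hTc n).sub continuous_const).abs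
      refine (hc.tendsto g).eventually_lt_const ?_
      simp [Real.pi_pos]
    filter_upwards [this] with g' hg'
    have h1 : Complex.exp (((T n g' - T n g : ℝ) : ℂ) * Complex.I) = 1 := by
      push_cast
      rw [sub_mul, Complex.exp_sub, hexp, hexp]; norm_num
    obtain ⟨m, hm⟩ := Complex.exp_eq_one_iff.1 h1
    have h2 : T n g' - T n g = m * (2 * Real.pi) := by
      have h3 : ((T n g' - T n g : ℝ) : ℂ) = ((m * (2 * Real.pi) : ℝ) : ℂ) := by
        have hI := Complex.I_ne_zero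
        apply mul_right_cancel₀ hI
        rw [hm]; push_cast; ring
      exact_mod_cast h3
    rw [h2, abs_mul, abs_of_pos (by positivity : 0 < 2 * Real.pi)] at hg'
    have h3 : |(m : ℝ)| < 1 := by
      have := Real.pi_pos
      nlinarith
    have h4 : m = 0 := by
      have : |m| < 1 := by exact_mod_cast h3
      exact Int.abs_lt_one_iff.1 this
    rw [h4] at h2
    simp at h2
    linarith
  have hconst : ∀ g, T n g = T n 1 := fun g => hloc.apply_eq_of_preconnectedSpace g 1
  have h1 : avg s μ (T n) = T n 1 * avg s μ fun _ => 1 := by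
    unfold avg
    rw [← integral_const_mul]
    congr 1
    funext g
    rw [hconst g]; ring
  rw [hTi n] at h1
  have h2 := avg_one_pos μ hcpt (s := s)
  have h3 : T n 1 = 0 := by
    rcases mul_eq_zero.1 h1.symm with h | h
    · exact h
    · exact absurd h h2.ne'
  have h4 := hexp 1
  rw [h3] at h4
  simp at h4
  norm_num [Complex.ext_iff] at h4

end Pool.Agent.W2helper8.AN
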