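import Pool.Agent.W2helper8.AN.Obs
import Pool.Agent.R787.OpGeo

/-!
# The group `SL(2, ℝ)`: the setup, connectedness, and roots of `-1`
-/

set_option autoImplicit false

open Filter Topology Function UpperHalfPlane Matrix MatrixGroups

namespace Pool.Agent.W2helper8.AN

open Pool.Agent.R787.Oper (dg up cosh_disp compact_bounded exists_kak fix_I dg_smul dist_up up_zero)

/-- rotation -/
noncomputable abbrev kr (θ : ℝ) : SL(2, ℝ) := Pool.Agent.R787.Oper.rot θ

/-- upper unipotent -/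
def uu (x : ℝ) : SL(2, ℝ) := ⟨!![1, x; 0, 1], by simp [Matrix.det_fin_two_of]⟩

/-- lower unipotent -/
def ll (y : ℝ) : SL(2, ℝ) := ⟨!![1, 0; y, 1], by simp [Matrix.det_fin_two_of]⟩

lemma continuous_SL {X : Type*} [TopologicalSpace X] {n : Type*} [Fintype n] [DecidableEq n]
    {R : Type*} [CommRing R] [TopologicalSpace R] {F : X → SpecialLinearGroup n R}
    (h : ∀ i j, Continuous fun x => F x i j) : Continuous F :=
  continuous_induced_rng.2 (continuous_matrix h)

lemma continuous_uu : Continuous uu := by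
  refine continuous_SL fun i j => ?_
  fin_cases i <;> fin_cases j <;> simp [uu] <;> fun_prop

lemma continuous_ll : Continuous ll := by
  refine continuous_SL fun i j => ?_
  fin_cases i <;> fin_cases j <;> simp [ll] <;> fun_prop

lemma continuous_dg : Continuous dg := by
  refine continuous_SL fun i j => ?_
  fin_cases i <;> fin_cases j <;> simp [dg] <;> fun_prop

lemma continuous_kr : Continuous kr := by
  refine continuous_SL fun i j => ?_
  fin_cases i <;> fin_cases j <;> simp [kr, Pool.Agent.R787.Oper.rot] <;> fun_prop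

lemma uu_zero : uu 0 = 1 := by
  ext i j; fin_cases i <;> fin_cases j <;> simp [uu]

lemma ll_zero : ll 0 = 1 := by
  ext i j; fin_cases i <;> fin_cases j <;> simp [ll]

lemma dg_zero : dg 0 = 1 := by
  ext i j; fin_cases i <;> fin_cases j <;> simp [dg]

lemma kr_zero : kr 0 = 1 := by
  ext i j; fin_cases i <;> fin_cases j <;> simp [kr, Pool.Agent.R787.Oper.rot]

lemma dg_add (t t' : ℝ) : dg (t + t') = dg t * dg t' := by
  ext i j
  fin_cases i <;> fin_cases j <;> simp [dg, Matrix.mul_apply, Fin.sum_univ_two, ← Real.exp_add] <;>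
    ring_nf

lemma dg_neg (t : ℝ) : dg (-t) = (dg t)⁻¹ := by
  rw [eq_inv_iff_mul_eq_one, ← dg_add, neg_add_cancel, dg_zero]

lemma dg_nat (n : ℕ) : dg 1 ^ n = dg n := by
  induction n with
  | zero => rw [pow_zero, Nat.cast_zero, dg_zero]
  | succ n ih => rw [pow_succ, ih, ← dg_add]; push_cast; rfl

lemma kr_add (t t' : ℝ) : kr (t + t') = kr t * kr t' := by
  ext i j
  fin_cases i <;> fin_cases j <;> simp [kr, Pool.Agent.R787.Oper.rot, Matrix.mul_apply,
    Fin.sum_univ_two, Real.sin_add, Real.cos_add] <;> ring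

lemma kr_nsmul (n : ℕ) (t : ℝ) : kr t ^ n = kr (n * t) := by
  induction n with
  | zero => simp [kr_zero]
  | succ n ih => rw [pow_succ, ih, ← kr_add]; congr 1; push_cast; ring

lemma kr_pi : kr Real.pi = -1 := by
  ext i j; fin_cases i <;> fin_cases j <;> simp [kr, Pool.Agent.R787.Oper.rot]

lemma uu_comm {t : ℝ} (x : ℝ) : dg t * uu x * (dg t)⁻¹ * (uu x)⁻¹ = uu ((Real.exp t - 1) * x) := by
  rw [mul_inv_eq_iff_eq_mul, mul_inv_eq_iff_eq_mul]
  have h : Real.exp t = Real.exp (t / 2) * Real.exp (t / 2) := by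
    rw [← Real.exp_add]; congr 1; ring
  have h2 : Real.exp (t / 2) * Real.exp (-(t / 2)) = 1 := by
    rw [← Real.exp_add]; simp
  ext i j
  fin_cases i <;> fin_cases j <;> simp [dg, uu, Matrix.mul_apply, Fin.sum_univ_two]
  rw [h]
  linear_combination (-(x * Real.exp (t / 2))) * h2

lemma ll_comm {t : ℝ} (y : ℝ) :
    dg (-t) * ll y * (dg (-t))⁻¹ * (ll y)⁻¹ = ll ((Real.exp t - 1) * y) := by
  rw [mul_inv_eq_iff_eq_mul, mul_inv_eq_iff_eq_mul]
  have h : Real.exp t = Real.exp (t / 2) * Real.exp (t / 2) := by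
    rw [← Real.exp_add]; congr 1; ring
  have h2 : Real.exp (t / 2) * Real.exp (-t / 2) = 1 := by
    rw [← Real.exp_add, ← Real.exp_zero]; congr 1; ring
  ext i j
  fin_cases i <;> fin_cases j <;> simp [dg, ll, Matrix.mul_apply, Fin.sum_univ_two]
  have e1 : Real.exp (-(-t / 2)) = Real.exp (t / 2) := by congr 1; ring
  rw [e1, h]
  linear_combination (-(y * Real.exp (t / 2))) * h2

lemma kr_eq {θ : ℝ} (h : 1 + Real.cos θ ≠ 0) :
    uu (-Real.sin θ / (1 + Real.cos θ)) * ll (Real.sin θ) * uu (-Real.sin θ / (1 + Real.cos θ)) =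
      kr θ := by
  have h1 := Real.sin_sq_add_cos_sq θ
  ext i j
  fin_cases i <;> fin_cases j <;>
    simp [kr, Pool.Agent.R787.Oper.rot, uu, ll, Matrix.mul_apply, Fin.sum_univ_two] <;>
    field_simp <;>
    first | nlinarith | linear_combination (Real.sin θ) * h1 | linear_combination (-Real.sin θ) * h1

/-- roots of `-1` which are products of small commutators -/
lemma root_neg_one (U : Set SL(2, ℝ)) (hU : U ∈ 𝓝 (1 : SL(2, ℝ))) :
    ∃ (n : ℕ) (a b c d e k : SL(2, ℝ)), a ∈ U ∧ b ∈ U ∧ c ∈ U ∧ d ∈ U ∧ e ∈ U ∧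
      k ∈ U ∧ ((a * b * a⁻¹ * b⁻¹) * (c * d * c⁻¹ * d⁻¹) * (e * k * e⁻¹ * k⁻¹)) ^ n = -1 ∧
      (a * b * a⁻¹ * b⁻¹) * (c * d * c⁻¹ * d⁻¹) ∈ U ∧
      (a * b * a⁻¹ * b⁻¹) * (c * d * c⁻¹ * d⁻¹) * (e * k * e⁻¹ * k⁻¹) ∈ U := by
  -- choose `t`
  have h1 : ∀ᶠ t in 𝓝 (0 : ℝ), dg t ∈ U ∧ dg (-t) ∈ U := by
    have e1 : Tendsto dg (𝓝 0) (𝓝 1) := by
      have := continuous_dg.tendsto 0; rwa [dg_zero] at this
    have e2 : Tendsto (fun t => dg (-t)) (𝓝 0) (𝓝 1) := by
      have := (continuous_dg.comp continuous_neg).tendsto 0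
      simp only [Function.comp, neg_zero, dg_zero] at this
      exact this
    exact (e1.eventually hU).and (e2.eventually hU)
  have h2 : ∀ᶠ t in 𝓝[>] (0 : ℝ), (dg t ∈ U ∧ dg (-t) ∈ U) ∧ 0 < t :=
    (h1.filter_mono nhdsWithin_le_nhds).and self_mem_nhdsWithin
  obtain ⟨t, ⟨ht1, ht2⟩, ht0⟩ := h2.exists
  have het : Real.exp t - 1 ≠ 0 := by
    have : 1 < Real.exp t := Real.one_lt_exp_iff.2 ht0
    linarith
  set X : ℝ → ℝ := fun θ => -Real.sin θ / (1 + Real.cos θ) with hX
  have hXc : ContinuousAt X 0 := by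
    refine ContinuousAt.div (by fun_prop) (by fun_prop) ?_
    norm_num
  have hX0 : X 0 = 0 := by simp [hX]
  have t1 : Tendsto (fun θ => uu (X θ / (Real.exp t - 1))) (𝓝 0) (𝓝 1) := by
    have := (continuous_uu.continuousAt (x := X 0 / (Real.exp t - 1))).tendsto.comp
      (hXc.div_const (Real.exp t - 1)).tendsto
    rw [hX0, zero_div, uu_zero] at this
    exact this
  have t2 : Tendsto (fun θ => ll (Real.sin θ / (Real.exp t - 1))) (𝓝 0) (𝓝 1) := by
    have := (continuous_ll.comp (Real.continuous_sin.div_const (Real.exp t - 1))).tendsto 0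
    simp only [Function.comp, Real.sin_zero, zero_div, ll_zero] at this
    exact this
  have t3 : Tendsto (fun θ => uu (X θ) * ll (Real.sin θ)) (𝓝 0) (𝓝 1) := by
    have a1 : Tendsto (fun θ => uu (X θ)) (𝓝 0) (𝓝 1) := by
      have := (continuous_uu.continuousAt (x := X 0)).tendsto.comp hXc.tendsto
      rw [hX0, uu_zero] at this
      exact this
    have a2 : Tendsto (fun θ => ll (Real.sin θ)) (𝓝 0) (𝓝 1) := by
      have := (continuous_ll.comp Real.continuous_sin).tendsto 0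
      simp only [Function.comp, Real.sin_zero, ll_zero] at this
      exact this
    have := a1.mul a2
    rwa [mul_one] at this
  have t4 : Tendsto kr (𝓝 0) (𝓝 1) := by
    have := continuous_kr.tendsto 0; rwa [kr_zero] at this
  have t5 : ∀ᶠ θ in 𝓝 (0 : ℝ), 1 + Real.cos θ ≠ 0 := by
    have hc : Continuous fun θ : ℝ => 1 + Real.cos θ := by fun_prop
    refine (hc.tendsto 0).eventually_ne ?_
    norm_num
  have lim : Tendsto (fun n : ℕ => Real.pi / (n : ℝ)) atTop (𝓝 0) :=
    tendsto_const_div_atTop_nhds_zero_nat Real.pi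
  obtain ⟨n, ⟨⟨q1, q2⟩, ⟨q3, q4⟩⟩, q5, q6⟩ := ((lim.eventually (((t1.eventually hU).and
    (t2.eventually hU)).and ((t3.eventually hU).and (t4.eventually hU)))).and
    ((lim.eventually t5).and (eventually_gt_atTop 0))).exists
  set θ := Real.pi / (n : ℝ) with hθ
  have k1 : dg t * uu (X θ / (Real.exp t - 1)) * (dg t)⁻¹ * (uu (X θ / (Real.exp t - 1)))⁻¹ =
      uu (X θ) := by
    rw [uu_comm]; congr 1; field_simp
  have k2 : dg (-t) * ll (Real.sin θ / (Real.exp t - 1)) * (dg (-t))⁻¹ *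
      (ll (Real.sin θ / (Real.exp t - 1)))⁻¹ = ll (Real.sin θ) := by
    rw [ll_comm]; congr 1; field_simp
  refine ⟨n, dg t, uu (X θ / (Real.exp t - 1)), dg (-t), ll (Real.sin θ / (Real.exp t - 1)), dg t,
    uu (X θ / (Real.exp t - 1)), ht1, q1, ht2, q2, ht1, q1, ?_, ?_, ?_⟩
  · rw [k1, k2, kr_eq q5, kr_nsmul, hθ]
    have : (n : ℝ) ≠ 0 := by exact_mod_cast q6.ne'
    rw [mul_div_cancel₀ _ this, kr_pi]
  · rw [k1, k2]; exact q3
  · rw [k1, k2, kr_eq q5]; exact q4

lemma exists_kr {k : SL(2, ℝ)} (hk : k • UpperHalfPlane.I = UpperHalfPlane.I) :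
    ∃ θ, k = kr θ := by
  obtain ⟨h1, h2⟩ := fix_I hk
  have hd := Matrix.SpecialLinearGroup.det_coe k
  rw [Matrix.det_fin_two, ← h1, h2] at hd
  set w : ℂ := ⟨k 0 0, k 1 0⟩ with hw
  have hn : ‖w‖ = 1 := by
    rw [← sq_eq_sq₀ (norm_nonneg _) zero_le_one, ← Complex.normSq_eq_norm_sq, Complex.normSq_apply]
    simp only [hw]
    nlinarith
  have he := Complex.norm_mul_exp_arg_mul_I w
  rw [hn, Complex.ofReal_one, one_mul, Complex.exp_mul_I] at he
  have hre : Real.cos w.arg = k 0 0 := by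
    have := congrArg Complex.re he
    simpa [hw, Complex.cos_ofReal_re] using this
  have him : Real.sin w.arg = k 1 0 := by
    have := congrArg Complex.im he
    simpa [hw, Complex.sin_ofReal_re] using this
  refine ⟨w.arg, ?_⟩
  ext i j
  fin_cases i <;> fin_cases j <;> simp [kr, Pool.Agent.R787.Oper.rot, hre, him, ← h1, h2]

lemma exists_krk (g : SL(2, ℝ)) : ∃ (θ t ψ : ℝ), 0 ≤ t ∧ g = kr θ * dg t * kr ψ ∧
    t = dist UpperHalfPlane.I (g • UpperHalfPlane.I) := by
  obtain ⟨θ, t, k, ht, hg, hk, hd⟩ := exists_kak g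
  obtain ⟨ψ, rfl⟩ := exists_kr hk
  exact ⟨θ, t, ψ, ht, hg, hd⟩

theorem preconnectedSL : PreconnectedSpace SL(2, ℝ) := by
  have hc : Continuous fun p : ℝ × ℝ × ℝ => kr p.1 * dg p.2.1 * kr p.2.2 :=
    ((continuous_kr.comp continuous_fst).mul (continuous_dg.comp
      (continuous_fst.comp continuous_snd))).mul (continuous_kr.comp
      (continuous_snd.comp continuous_snd))
  have hs : Function.Surjective fun p : ℝ × ℝ × ℝ => kr p.1 * dg p.2.1 * kr p.2.2 := by
    intro g
    obtain ⟨θ, t, ψ, -, hg, -⟩ := exists_krk g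
    exact ⟨(θ, t, ψ), hg.symm⟩
  exact hs.denseRange.preconnectedSpace hc

theorem locallyCompactSL : LocallyCompactSpace SL(2, ℝ) :=
  haveI : LocallyCompactSpace (Matrix (Fin 2) (Fin 2) ℝ) :=
    inferInstanceAs (LocallyCompactSpace (Fin 2 → Fin 2 → ℝ))
  (Matrix.SpecialLinearGroup.isClosedEmbedding_val (n := Fin 2) (R := ℝ)).locallyCompactSpace

/-- displacement of `i` -/
noncomputable def disp (g : SL(2, ℝ)) : ℝ := dist UpperHalfPlane.I (g • UpperHalfPlane.I)

lemma disp_mul (g h : SL(2, ℝ)) : disp (g * h) ≤ disp g + disp h := by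
  unfold disp
  refine (dist_triangle _ (g • UpperHalfPlane.I) _).trans ?_
  rw [mul_smul, dist_smul]

lemma disp_inv (g : SL(2, ℝ)) : disp g⁻¹ = disp g := by
  unfold disp
  rw [← dist_smul g, smul_inv_smul, dist_comm]

lemma continuous_disp : Continuous disp := by
  unfold disp
  exact continuous_const.dist (continuous_id.smul continuous_const)

lemma disp_dg (t : ℝ) : disp (dg t) = |t| := by
  unfold disp
  rw [← up_zero, dg_smul, dist_up]; simp

lemma disp_neg_one_mul (g : SL(2, ℝ)) : disp (-1 * g) = disp g := by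
  unfold disp
  congr 1
  apply UpperHalfPlane.ext
  rw [Pool.Agent.R787.Oper.coe_smul_SL, Pool.Agent.R787.Oper.coe_smul_SL]
  simp only [neg_mul, one_mul, SpecialLinearGroup.coe_neg, Matrix.neg_apply, Complex.ofReal_neg]
  rw [← neg_div_neg_eq]
  congr 1 <;> ring

lemma isCompact_disp (R : ℝ) : IsCompact {g : SL(2, ℝ) | disp g ≤ R} := by
  refine (compact_bounded (2 * Real.cosh R)).of_isClosed_subset
    (isClosed_le continuous_disp continuous_const) ?_
  intro g hg i j
  simp only [Set.mem_ofPred_eq] at hg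
  have h0 : 0 ≤ disp g := dist_nonneg
  have h1 := cosh_disp g
  change Real.cosh (disp g) = _ at h1
  have h2 : Real.cosh (disp g) ≤ Real.cosh R := by
    rw [Real.cosh_le_cosh, abs_of_nonneg h0, abs_of_nonneg (h0.trans hg)]
    exact hg
  have h3 : (1 : ℝ) ≤ Real.cosh R := Real.one_le_cosh R
  have h4 : (g i j) ^ 2 ≤ 2 * Real.cosh R := by
    fin_cases i <;> fin_cases j <;> simp only [Fin.zero_eta, Fin.mk_one, Fin.isValue] <;>
      nlinarith [sq_nonneg (g 0 0), sq_nonneg (g 0 1), sq_nonneg (g 1 0), sq_nonneg (g 1 1)]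
  apply abs_le_of_sq_le_sq _ (by positivity)
  nlinarith

/-- the setup attached to a Fuchsian representation -/
noncomputable def mkSetup {Γ : Type*} [Group Γ] (φ : Γ →* SL(2, ℝ))
    (hfin : ∀ R : ℝ, {γ : Γ | disp (φ γ) ≤ R}.Finite) (B : ℝ)
    (hcov : ∀ g, ∃ γ, disp ((φ γ)⁻¹ * g) ≤ B - 1) : Setup Γ SL(2, ℝ) where
  φ := φ
  L := disp
  a := dg 1
  L_nonneg := fun _ => dist_nonneg
  L_mul := disp_mul
  L_inv := disp_inv
  L_cont := continuous_disp
  fin := hfin
  B := B
  cov := hcov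
  a_len := fun n => by
    rw [dg_nat, disp_dg]; exact le_abs_self _

end Pool.Agent.W2helper8.AN
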