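import Pool.Agent.W2helper8.AN.Lin

/-!
# Singular values
-/

set_option autoImplicit false

open InnerProductSpace ContinuousLinearMap Module

namespace Pool.Agent.W2helper8.AN

variable {V : Type*} [NormedAddCommGroup V] [InnerProductSpace ℂ V] [FiniteDimensional ℂ V]

/-- the right singular basis -/
lemma exists_svd (T : V →ₗ[ℂ] V) {n : ℕ} (hn : finrank ℂ V = n) :
    ∃ b : OrthonormalBasis (Fin n) ℂ V, ∀ x,
      ‖T x‖ ^ 2 = ∑ i : Fin n, T.singularValues i ^ 2 * ‖inner ℂ (b i) x‖ ^ 2 := by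
  set hT := T.isSymmetric_adjoint_comp_self with hTdef
  refine ⟨hT.eigenvectorBasis hn, fun x => ?_⟩
  set b := hT.eigenvectorBasis hn with hb
  have h1 : ‖T x‖ ^ 2 = RCLike.re (inner ℂ ((LinearMap.adjoint T ∘ₗ T) x) x) := by
    rw [LinearMap.comp_apply, LinearMap.adjoint_inner_left, inner_self_eq_norm_sq]
  have h2 : inner ℂ ((LinearMap.adjoint T ∘ₗ T) x) x =
      ∑ i : Fin n, ((T.singularValues i ^ 2 * ‖inner ℂ (b i) x‖ ^ 2 : ℝ) : ℂ) := by
    rw [← b.sum_inner_mul_inner]
    refine Finset.sum_congr rfl fun i _ => ?_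
    have h3 : inner ℂ ((LinearMap.adjoint T ∘ₗ T) x) (b i) =
        (T.singularValues i ^ 2 : ℝ) * inner ℂ x (b i) := by
      rw [hT x (b i), hb, hT.apply_eigenvectorBasis hn i, inner_smul_right,
        T.sq_singularValues_fin hn i]
      rfl
    rw [h3, mul_assoc, ← inner_conj_symm x (b i)]
    have h4 : (starRingEnd ℂ) (inner ℂ (b i) x) * inner ℂ (b i) x =
        ((‖inner ℂ (b i) x‖ ^ 2 : ℝ) : ℂ) := by
      rw [mul_comm, Complex.mul_conj, Complex.normSq_eq_norm_sq]
    rw [h4]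
    push_cast
    ring
  rw [h1, h2, ← Complex.ofReal_sum]
  exact Complex.ofReal_re _

lemma norm_sq_basis {n : ℕ} (b : OrthonormalBasis (Fin n) ℂ V) (x : V) :
    ‖x‖ ^ 2 = ∑ i, ‖inner ℂ (b i) x‖ ^ 2 := (b.sum_sq_norm_inner_right x).symm

/-- the operator norm is the top singular value, and the ratio of the first two controls the
distance to the operators of rank one -/
lemma gap_of_singularValues (T : V →L[ℂ] V) {n : ℕ} (hn : finrank ℂ V = n) (h2 : 2 ≤ n)
    (hpos : 0 < (T : V →ₗ[ℂ] V).singularValues 0) :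
    ‖T‖ = (T : V →ₗ[ℂ] V).singularValues 0 ∧ ∃ u v, Gap T
      ((T : V →ₗ[ℂ] V).singularValues 1 / (T : V →ₗ[ℂ] V).singularValues 0) u v := by
  obtain ⟨b, hb⟩ := exists_svd (T : V →ₗ[ℂ] V) hn
  set σ := (T : V →ₗ[ℂ] V).singularValues with hσ
  have hanti := (T : V →ₗ[ℂ] V).singularValues_antitone
  have hnn := (T : V →ₗ[ℂ] V).singularValues_nonneg
  rw [← hσ] at hanti hnn
  set i0 : Fin n := ⟨0, by omega⟩ with hi0
  have hb0 : ‖T (b i0)‖ ^ 2 = σ 0 ^ 2 := by
    have := hb (b i0)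
    rw [Finset.sum_eq_single i0] at this
    · rw [inner_self_eq_norm_sq_to_K, b.norm_eq_one] at this
      simpa using this
    · intro i _ hi
      rw [b.inner_eq_zero hi]; simp
    · simp
  have hb0' : ‖T (b i0)‖ = σ 0 := by
    rw [sq_eq_sq₀ (norm_nonneg _) (hnn 0)] at hb0; exact hb0
  have hle : ∀ x, ‖T x‖ ≤ σ 0 * ‖x‖ := by
    intro x
    have h1 : ‖T x‖ ^ 2 ≤ (σ 0 * ‖x‖) ^ 2 := by
      have := hb x
      change ‖T x‖ ^ 2 = _ at this
      rw [this, mul_pow, norm_sq_basis b x, Finset.mul_sum]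
      refine Finset.sum_le_sum fun i _ => ?_
      refine mul_le_mul_of_nonneg_right ?_ (by positivity)
      exact pow_le_pow_left₀ (hnn _) (hanti (Nat.zero_le _)) 2
    exact le_of_sq_le_sq h1 (mul_nonneg (hnn 0) (norm_nonneg _))
  have hnorm : ‖T‖ = σ 0 := by
    refine le_antisymm (T.opNorm_le_bound (hnn 0) hle) ?_
    have := T.le_opNorm (b i0)
    rwa [hb0', b.norm_eq_one, mul_one] at this
  refine ⟨hnorm, ((σ 0 : ℂ)⁻¹) • T (b i0), b i0, ?_, b.norm_eq_one _, ?_⟩
  · rw [norm_smul, norm_inv, Complex.norm_real, Real.norm_of_nonneg hpos.le, hb0',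
      inv_mul_cancel₀ hpos.ne']
  · rw [hnorm, div_mul_cancel₀ _ hpos.ne']
    refine ContinuousLinearMap.opNorm_le_bound _ (hnn 1) fun x => ?_
    have e1 : (T - (σ 0 : ℂ) • rankOne ℂ ((σ 0 : ℂ)⁻¹ • T (b i0)) (b i0)) x =
        T (x - inner ℂ (b i0) x • b i0) := by
      rw [_root_.sub_apply, _root_.smul_apply, rankOne_apply, smul_smul, smul_smul, map_sub,
        map_smul]
      congr 2
      have : (σ 0 : ℂ) ≠ 0 := by exact_mod_cast hpos.ne'
      field_simp
    rw [e1]
    set y := x - inner ℂ (b i0) x • b i0 with hy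
    have hy0 : inner ℂ (b i0) y = 0 := by
      rw [hy, inner_sub_right, inner_smul_right, inner_self_eq_norm_sq_to_K, b.norm_eq_one]; simp
    have hyi : ∀ i, i ≠ i0 → inner ℂ (b i) y = inner ℂ (b i) x := by
      intro i hi
      rw [hy, inner_sub_right, inner_smul_right, b.inner_eq_zero hi]; simp
    have h1 : ‖T y‖ ^ 2 ≤ (σ 1 * ‖x‖) ^ 2 := by
      have := hb y
      change ‖T y‖ ^ 2 = _ at this
      rw [this, mul_pow, norm_sq_basis b x, Finset.mul_sum]
      refine Finset.sum_le_sum fun i _ => ?_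
      by_cases hi : i = i0
      · rw [hi, hy0]
        simp only [norm_zero]
        have : 0 ≤ σ 1 ^ 2 * ‖inner ℂ (b i0) x‖ ^ 2 := by positivity
        simpa using this
      · rw [hyi i hi]
        refine mul_le_mul_of_nonneg_right ?_ (by positivity)
        refine pow_le_pow_left₀ (hnn _) (hanti ?_) 2
        by_contra hcon
        exact hi (Fin.ext (by simp only [hi0]; omega))
    exact le_of_sq_le_sq h1 (mul_nonneg (hnn 1) (norm_nonneg _))

/-- there are nonzero vectors in the span of more than `m` vectors orthogonal to `m` vectors -/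
lemma exists_orthogonal {m p : ℕ} (h : m < p) (b' : Fin p → V) (hb' : LinearIndependent ℂ b')
    (c : Fin m → V) : ∃ a : Fin p → ℂ, (∑ i, a i • b' i) ≠ 0 ∧
      ∀ j, inner ℂ (c j) (∑ i, a i • b' i) = 0 := by
  set F : (Fin p → ℂ) →ₗ[ℂ] (Fin m → ℂ) :=
    LinearMap.pi fun j => (innerSL ℂ (c j)).toLinearMap ∘ₗ (Fintype.linearCombination ℂ b') with hF
  have h1 : LinearMap.ker F ≠ ⊥ := by
    refine LinearMap.ker_ne_bot_of_finrank_lt ?_
    simpa using h
  obtain ⟨a, ha, ha0⟩ := (Submodule.ne_bot_iff _).1 h1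
  refine ⟨a, ?_, fun j => ?_⟩
  · intro h0
    have := Fintype.linearIndependent_iff.1 hb' a h0
    exact ha0 (funext this)
  · have := congrFun (LinearMap.mem_ker.1 ha) j
    have e : F a j = inner ℂ (c j) (∑ i, a i • b' i) := by
      simp only [hF, LinearMap.pi_apply, LinearMap.comp_apply, Fintype.linearCombination_apply]
      rfl
    rw [← e, this]; rfl

/-- computation of the singular values from an orthonormal basis -/
lemma singularValues_eq (T : V →ₗ[ℂ] V) {n : ℕ} (hn : finrank ℂ V = n)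
    (b' : OrthonormalBasis (Fin n) ℂ V) (d : Fin n → ℝ) (hd : Antitone d) (hd0 : ∀ i, 0 ≤ d i)
    (hT : ∀ x, ‖T x‖ ^ 2 = ∑ i, d i ^ 2 * ‖inner ℂ (b' i) x‖ ^ 2) (k : Fin n) :
    T.singularValues k = d k := by
  obtain ⟨b, hb⟩ := exists_svd T hn
  set σ := T.singularValues with hσ
  have hanti := T.singularValues_antitone
  have hnn := T.singularValues_nonneg
  rw [← hσ] at hanti hnn
  -- a comparison which is symmetric in the two bases
  have cmp : ∀ (e e' : Fin n → ℝ) (β β' : OrthonormalBasis (Fin n) ℂ V), Antitone e → Antitone e' →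
      (∀ i, 0 ≤ e i) → (∀ i, 0 ≤ e' i) →
      (∀ x, ∑ i, e i ^ 2 * ‖inner ℂ (β i) x‖ ^ 2 = ∑ i, e' i ^ 2 * ‖inner ℂ (β' i) x‖ ^ 2) →
      e k ≤ e' k := by
    intro e e' β β' he he' he0 he'0 heq
    have hlin : LinearIndependent ℂ fun i : Fin (k + 1) => β ⟨i, by omega⟩ := by
      have := β.orthonormal.linearIndependent
      exact this.comp (fun i : Fin (k + 1) => (⟨i, by omega⟩ : Fin n)) fun i j hij => by
        simpa [Fin.ext_iff] using hij
    obtain ⟨a, ha0, ha⟩ := exists_orthogonal (Nat.lt_succ_self (k : ℕ)) _ hlin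
      (fun j : Fin (k : ℕ) => β' ⟨j, by omega⟩)
    set x := ∑ i : Fin (k + 1), a i • β ⟨i, by omega⟩ with hx
    have h1 : ∀ i : Fin n, k < i → inner ℂ (β i) x = 0 := by
      intro i hi
      rw [hx, inner_sum]
      refine Finset.sum_eq_zero fun j _ => ?_
      rw [inner_smul_right, β.inner_eq_zero, mul_zero]
      intro h
      have h2 := congrArg Fin.val h
      have h3 : (k : ℕ) < i := hi
      simp only at h2
      omega
    have h2 : ∀ i : Fin n, i < k → inner ℂ (β' i) x = 0 := by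
      intro i hi
      have h3 : (i : ℕ) < k := hi
      have := ha ⟨i, h3⟩
      simpa using this
    have h3 : e k ^ 2 * ‖x‖ ^ 2 ≤ ∑ i, e i ^ 2 * ‖inner ℂ (β i) x‖ ^ 2 := by
      rw [norm_sq_basis β x, Finset.mul_sum]
      refine Finset.sum_le_sum fun i _ => ?_
      by_cases hi : k < i
      · rw [h1 i hi]; simp
      · refine mul_le_mul_of_nonneg_right ?_ (by positivity)
        exact pow_le_pow_left₀ (he0 _) (he (not_lt.1 hi)) 2
    have h4 : ∑ i, e' i ^ 2 * ‖inner ℂ (β' i) x‖ ^ 2 ≤ e' k ^ 2 * ‖x‖ ^ 2 := by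
      rw [norm_sq_basis β' x, Finset.mul_sum]
      refine Finset.sum_le_sum fun i _ => ?_
      by_cases hi : i < k
      · rw [h2 i hi]; simp
      · refine mul_le_mul_of_nonneg_right ?_ (by positivity)
        exact pow_le_pow_left₀ (he'0 _) (he' (not_lt.1 hi)) 2
    have h5 : 0 < ‖x‖ := norm_pos_iff.2 ha0
    have h6 : e k ^ 2 * ‖x‖ ^ 2 ≤ e' k ^ 2 * ‖x‖ ^ 2 := by
      refine h3.trans ?_
      rw [heq]; exact h4
    have h7 : e k ^ 2 ≤ e' k ^ 2 := le_of_mul_le_mul_right h6 (by positivity)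
    exact le_of_sq_le_sq h7 (he'0 k)
  have hσa : Antitone fun i : Fin n => σ i := fun i j hij => hanti (by exact_mod_cast hij)
  refine le_antisymm ?_ ?_
  · exact cmp (fun i => σ i) d b b' hσa hd (fun i => hnn _) hd0
      (fun x => by rw [← hT x]; exact (hb x).symm)
  · exact cmp d (fun i => σ i) b' b hd hσa hd0 (fun i => hnn _)
      (fun x => by rw [← hT x]; exact hb x)

end Pool.Agent.W2helper8.AN
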