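import Pool.Agent.W2helper8.AN.Defs
import Pool.Agent.W2helper8.AN.SLTwo
import Pool.Agent.W2helper8.AN.Sing

/-!
# The two representations
-/

set_option autoImplicit false

open Filter Topology Function Matrix MatrixGroups InnerProductSpace

namespace Pool.Agent.W2helper8.AN

open Pool.Agent.R787.Oper (dg)

/-- the standard three-dimensional Hermitian space -/
abbrev E3 := EuclideanSpace ℂ (Fin 3)

/-- matrices as operators -/
noncomputable def toE : SpecialLinearGroup (Fin 3) ℂ →* (E3 →L[ℂ] E3) where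
  toFun A := Matrix.toEuclideanCLM (n := Fin 3) (𝕜 := ℂ) (A : Matrix (Fin 3) (Fin 3) ℂ)
  map_one' := by rw [Matrix.SpecialLinearGroup.coe_one, map_one]
  map_mul' A B := by rw [Matrix.SpecialLinearGroup.coe_mul, map_mul]

lemma toE_apply (A : SpecialLinearGroup (Fin 3) ℂ) :
    toE A = Matrix.toEuclideanCLM (n := Fin 3) (𝕜 := ℂ) (A : Matrix (Fin 3) (Fin 3) ℂ) := rfl

lemma continuous_toE : Continuous toE := by
  have h1 : Continuous fun A : Matrix (Fin 3) (Fin 3) ℂ =>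
      Matrix.toEuclideanCLM (n := Fin 3) (𝕜 := ℂ) A :=
    ((Matrix.toEuclideanCLM (n := Fin 3) (𝕜 := ℂ)).toAlgEquiv.toLinearMap :
      Matrix (Fin 3) (Fin 3) ℂ →ₗ[ℂ] (E3 →L[ℂ] E3)).continuous_of_finiteDimensional
  exact h1.comp continuous_induced_dom

lemma continuous_rho3 : Continuous rho3 := by
  refine continuous_SL fun i j => ?_
  fin_cases i <;> fin_cases j <;> simp [rho3] <;> fun_prop

lemma continuous_rho21 : Continuous rho21 := by
  refine continuous_SL fun i j => ?_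
  fin_cases i <;> fin_cases j <;> simp [rho21] <;> fun_prop

lemma star_rho3_kr (θ : ℝ) : star (rho3 (kr θ) : Matrix (Fin 3) (Fin 3) ℂ) = rho3 (kr (-θ)) := by
  ext i j
  fin_cases i <;> fin_cases j <;>
    simp [rho3, kr, Pool.Agent.R787.Oper.rot, Matrix.star_apply, ← Complex.ofReal_cos,
      ← Complex.ofReal_sin, -Complex.ofReal_cos, -Complex.ofReal_sin]

lemma star_rho21_kr (θ : ℝ) : star (rho21 (kr θ) : Matrix (Fin 3) (Fin 3) ℂ) =
    rho21 (kr (-θ)) := by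
  ext i j
  fin_cases i <;> fin_cases j <;>
    simp [rho21, kr, Pool.Agent.R787.Oper.rot, Matrix.star_apply, ← Complex.ofReal_cos,
      ← Complex.ofReal_sin, -Complex.ofReal_cos, -Complex.ofReal_sin]

lemma kr_neg_mul (θ : ℝ) : kr (-θ) * kr θ = 1 := by
  rw [← kr_add, neg_add_cancel, kr_zero]

lemma unitary_rho3 (θ : ℝ) : star (rho3 (kr θ) : Matrix (Fin 3) (Fin 3) ℂ) *
    (rho3 (kr θ) : Matrix (Fin 3) (Fin 3) ℂ) = 1 := by
  rw [star_rho3_kr, ← Matrix.SpecialLinearGroup.coe_mul, ← map_mul, kr_neg_mul, map_one,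
    Matrix.SpecialLinearGroup.coe_one]

lemma unitary_rho21 (θ : ℝ) : star (rho21 (kr θ) : Matrix (Fin 3) (Fin 3) ℂ) *
    (rho21 (kr θ) : Matrix (Fin 3) (Fin 3) ℂ) = 1 := by
  rw [star_rho21_kr, ← Matrix.SpecialLinearGroup.coe_mul, ← map_mul, kr_neg_mul, map_one,
    Matrix.SpecialLinearGroup.coe_one]

lemma rho3_dg (t : ℝ) : (rho3 (dg t) : Matrix (Fin 3) (Fin 3) ℂ) =
    Matrix.diagonal ![((Real.exp t : ℝ) : ℂ), ((1 : ℝ) : ℂ), ((Real.exp (-t) : ℝ) : ℂ)] := by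
  have e1 : Real.exp t = Real.exp (t / 2) ^ 2 := by rw [← Real.exp_nat_mul]; congr 1; push_cast; ring
  have e2 : Real.exp (-t) = Real.exp (-(t / 2)) ^ 2 := by
    rw [← Real.exp_nat_mul]; congr 1; push_cast; ring
  have e3 : Real.exp (t / 2) * Real.exp (-(t / 2)) = 1 := by rw [← Real.exp_add]; simp
  have e3' : ((Real.exp (t / 2) : ℝ) : ℂ) * ((Real.exp (-(t / 2)) : ℝ) : ℂ) = 1 := by
    exact_mod_cast e3
  rw [e1, e2]
  ext i j
  fin_cases i <;> fin_cases j <;>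
    simp [rho3, dg, Matrix.diagonal, -Complex.ofReal_exp]
  exact e3'

lemma rho21_dg (t : ℝ) : (rho21 (dg t) : Matrix (Fin 3) (Fin 3) ℂ) =
    Matrix.diagonal ![((Real.exp (t / 2) : ℝ) : ℂ), ((Real.exp (-(t / 2)) : ℝ) : ℂ),
      ((1 : ℝ) : ℂ)] := by
  ext i j
  fin_cases i <;> fin_cases j <;>
    simp [rho21, dg, Matrix.diagonal, -Complex.ofReal_exp]

/-- the operator of a unitary matrix as an isometry -/
lemma exists_isometry {U : Matrix (Fin 3) (Fin 3) ℂ} (hU : star U * U = 1) :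
    ∃ Φ : E3 ≃ₗᵢ[ℂ] E3, ∀ x, Φ x = Matrix.toEuclideanCLM (n := Fin 3) (𝕜 := ℂ) U x := by
  have h1 : ∀ x, ‖Matrix.toEuclideanCLM (n := Fin 3) (𝕜 := ℂ) U x‖ = ‖x‖ := by
    intro x
    have e : ContinuousLinearMap.adjoint (Matrix.toEuclideanCLM (n := Fin 3) (𝕜 := ℂ) U) *
        Matrix.toEuclideanCLM (n := Fin 3) (𝕜 := ℂ) U = 1 := by
      have := map_mul (Matrix.toEuclideanCLM (n := Fin 3) (𝕜 := ℂ)) (star U) U
      rw [hU, map_one, map_star] at this
      exact this.symm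
    have h2 : ‖Matrix.toEuclideanCLM (n := Fin 3) (𝕜 := ℂ) U x‖ ^ 2 = ‖x‖ ^ 2 := by
      rw [ContinuousLinearMap.apply_norm_sq_eq_inner_adjoint_left]
      change RCLike.re (inner ℂ ((ContinuousLinearMap.adjoint (Matrix.toEuclideanCLM (n := Fin 3)
        (𝕜 := ℂ) U) * Matrix.toEuclideanCLM (n := Fin 3) (𝕜 := ℂ) U) x) x) = _
      rw [e, one_apply_eq_self, inner_self_eq_norm_sq]
    rwa [sq_eq_sq₀ (norm_nonneg _) (norm_nonneg _)] at h2
  let F : E3 →ₗᵢ[ℂ] E3 := ⟨(Matrix.toEuclideanCLM (n := Fin 3) (𝕜 := ℂ) U : E3 →ₗ[ℂ] E3), h1⟩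
  exact ⟨F.toLinearIsometryEquiv rfl, fun x => rfl⟩

lemma diag_apply (d : Fin 3 → ℝ) (x : E3) (i : Fin 3) :
    (Matrix.toEuclideanCLM (n := Fin 3) (𝕜 := ℂ) (Matrix.diagonal fun j => (d j : ℂ)) x) i =
      (d i : ℂ) * x i := by
  simp [Matrix.mulVec_diagonal]

lemma norm_sq_diag (d : Fin 3 → ℝ) (x : E3) :
    ‖Matrix.toEuclideanCLM (n := Fin 3) (𝕜 := ℂ) (Matrix.diagonal fun j => (d j : ℂ)) x‖ ^ 2 =
      ∑ i, d i ^ 2 * ‖x i‖ ^ 2 := by
  rw [EuclideanSpace.norm_sq_eq]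
  refine Finset.sum_congr rfl fun i _ => ?_
  rw [diag_apply, norm_mul, Complex.norm_real, mul_pow, Real.norm_eq_abs, sq_abs]

/-- the singular values of `U D U'` -/
lemma singularValues_udu {U U' : Matrix (Fin 3) (Fin 3) ℂ} (hU : star U * U = 1)
    (hU' : star U' * U' = 1) (d : Fin 3 → ℝ) (τ : Equiv.Perm (Fin 3)) (hd : Antitone (d ∘ τ))
    (hd0 : ∀ i, 0 ≤ d i) (k : Fin 3) :
    (Matrix.toEuclideanLin (U * Matrix.diagonal (fun j => (d j : ℂ)) * U')).singularValues k =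
      d (τ k) := by
  obtain ⟨Φ, hΦ⟩ := exists_isometry hU
  obtain ⟨Ψ, hΨ⟩ := exists_isometry hU'
  set b₀ : OrthonormalBasis (Fin 3) ℂ E3 := (EuclideanSpace.basisFun (Fin 3) ℂ).reindex τ.symm
    with hb₀
  set b' : OrthonormalBasis (Fin 3) ℂ E3 := b₀.map Ψ.symm with hb'
  have h1 : ∀ x i, inner ℂ (b' i) x = (Ψ x) (τ i) := by
    intro x i
    have : b' i = Ψ.symm (b₀ i) := by rw [hb', OrthonormalBasis.map_apply]
    rw [this, ← Ψ.inner_map_map, Ψ.apply_symm_apply, hb₀, OrthonormalBasis.reindex_apply,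
      Equiv.symm_symm, EuclideanSpace.basisFun_apply, EuclideanSpace.inner_single_left]
    simp
  refine singularValues_eq _ (by simp) b' (d ∘ τ) hd (fun i => hd0 _) (fun x => ?_) k
  have e1 : Matrix.toEuclideanLin (U * Matrix.diagonal (fun j => (d j : ℂ)) * U') x =
      Φ (Matrix.toEuclideanCLM (n := Fin 3) (𝕜 := ℂ) (Matrix.diagonal fun j => (d j : ℂ)) (Ψ x)) := by
    rw [hΦ, hΨ, ← mul_apply_eq_comp, ← mul_apply_eq_comp, ← map_mul, ← map_mul]
    rfl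
  rw [e1, Φ.norm_map, norm_sq_diag, ← Equiv.sum_comp τ]
  simp only [h1, Function.comp]

lemma diag_eq (x y z : ℝ) : Matrix.diagonal ![(x : ℂ), (y : ℂ), (z : ℂ)] =
    Matrix.diagonal fun j => ((![x, y, z] j : ℝ) : ℂ) := by
  congr 1
  funext j
  fin_cases j <;> rfl

/-- the singular values of `ρ₃ g` -/
lemma sing_rho3 (g : SL(2, ℝ)) (k : Fin 3) :
    (Matrix.toEuclideanLin (rho3 g : Matrix (Fin 3) (Fin 3) ℂ)).singularValues k =
      Real.exp ((1 - (k : ℝ)) * disp g) := by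
  obtain ⟨θ, t, ψ, ht, hg, hd⟩ := exists_krk g
  have e : (rho3 g : Matrix (Fin 3) (Fin 3) ℂ) = (rho3 (kr θ) : Matrix (Fin 3) (Fin 3) ℂ) *
      Matrix.diagonal (fun j => ((![Real.exp t, 1, Real.exp (-t)] j : ℝ) : ℂ)) *
      (rho3 (kr ψ) : Matrix (Fin 3) (Fin 3) ℂ) := by
    rw [← diag_eq, ← rho3_dg, ← Matrix.SpecialLinearGroup.coe_mul, ← Matrix.SpecialLinearGroup.coe_mul,
      ← map_mul, ← map_mul, ← hg]
  have hd' : disp g = t := hd.symm
  have h1 : 1 ≤ Real.exp t := Real.one_le_exp ht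
  have h2 : Real.exp (-t) ≤ 1 := Real.exp_le_one_iff.2 (by linarith)
  rw [e, singularValues_udu (unitary_rho3 θ) (unitary_rho3 ψ) _ (Equiv.refl _), hd']
  · fin_cases k <;> simp <;> norm_num
  · intro i j hij
    fin_cases i <;> fin_cases j <;> simp at hij ⊢ <;> linarith
  · intro i
    fin_cases i <;> simp <;> positivity

/-- the singular values of `(ρ₂ ⊕ ρ₁) g` -/
lemma sing_rho21 (g : SL(2, ℝ)) (k : Fin 3) :
    (Matrix.toEuclideanLin (rho21 g : Matrix (Fin 3) (Fin 3) ℂ)).singularValues k =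
      Real.exp ((1 - (k : ℝ)) * (disp g / 2)) := by
  obtain ⟨θ, t, ψ, ht, hg, hd⟩ := exists_krk g
  have e : (rho21 g : Matrix (Fin 3) (Fin 3) ℂ) = (rho21 (kr θ) : Matrix (Fin 3) (Fin 3) ℂ) *
      Matrix.diagonal (fun j => ((![Real.exp (t / 2), Real.exp (-(t / 2)), 1] j : ℝ) : ℂ)) *
      (rho21 (kr ψ) : Matrix (Fin 3) (Fin 3) ℂ) := by
    rw [← diag_eq, ← rho21_dg, ← Matrix.SpecialLinearGroup.coe_mul, ← Matrix.SpecialLinearGroup.coe_mul,
      ← map_mul, ← map_mul, ← hg]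
  have hd' : disp g = t := hd.symm
  have h1 : 1 ≤ Real.exp (t / 2) := Real.one_le_exp (by linarith)
  have h2 : Real.exp (-(t / 2)) ≤ 1 := Real.exp_le_one_iff.2 (by linarith)
  rw [e, singularValues_udu (unitary_rho21 θ) (unitary_rho21 ψ) _ (Equiv.swap 1 2), hd']
  · fin_cases k
    · simp [Equiv.swap_apply_def]
    · simp [Equiv.swap_apply_def]
    · simp [Equiv.swap_apply_def]; norm_num
  · intro i j hij
    fin_cases i <;> fin_cases j <;> simp [Equiv.swap_apply_def] at hij ⊢ <;> linarith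
  · intro i
    fin_cases i <;> simp <;> positivity

end Pool.Agent.W2helper8.AN
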