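import Pool.Agent.W2helper8.AN.Cone

/-!
# Equivariant sections: a locally constant property
-/

set_option autoImplicit false

open InnerProductSpace ContinuousLinearMap Filter Topology Function

namespace Pool.Agent.W2helper8.AN

variable {Γ G : Type*} [Group Γ] [Group G] [TopologicalSpace G] {s : Setup Γ G}
variable {V : Type*} [NormedAddCommGroup V] [InnerProductSpace ℂ V]

/-- there is a continuous equivariant section of the dual bundle, invariant under `z`, which does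
not vanish on the limit lines -/
def HasSec [CompleteSpace V] (s : Setup Γ G) (z : G) (ρ : Γ →* (V →L[ℂ] V))
    (P : G → V →L[ℂ] V) : Prop :=
  ∃ σ : G → V, Continuous σ ∧ (∀ δ g, σ (s.φ δ * g) = dual ρ δ (σ g)) ∧ (∀ g, σ (z * g) = σ g) ∧
    ∀ g, P g (σ g) ≠ 0

/-- the bump function -/
noncomputable def bump (s : Setup Γ G) (g : G) : ℝ := max 0 (s.B - s.L g)

lemma bump_nonneg (g : G) : 0 ≤ bump s g := le_max_left _ _

lemma bump_cont : Continuous (bump s) := continuous_const.max (continuous_const.sub s.L_cont)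

lemma bump_ne {g : G} (h : bump s g ≠ 0) : s.L g < s.B := by
  by_contra hcon
  exact h (max_eq_left (by linarith))

lemma bump_pos {g : G} (h : s.L g < s.B) : 0 < bump s g :=
  lt_of_lt_of_le (by linarith) (le_max_right _ _)

lemma len_of_bump {g : G} {γ : Γ} (h : bump s ((s.φ γ)⁻¹ * g) ≠ 0) :
    s.L (s.φ γ) ≤ s.L g + s.B := by
  have h1 := bump_ne h
  have h2 := s.L_mul g ((s.φ γ)⁻¹ * g)⁻¹
  rw [s.L_inv, mul_inv_rev, inv_inv, mul_inv_cancel_left] at h2
  linarith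

lemma pr_apply_ne_zero {x y : V} (hx : x ≠ 0) : pr x y ≠ 0 ↔ inner ℂ x y ≠ 0 := by
  rw [pr_apply, Ne, smul_eq_zero, mul_eq_zero]
  have : (((‖x‖ ^ 2)⁻¹ : ℝ) : ℂ) ≠ 0 := by
    have : 0 < ‖x‖ := norm_pos_iff.2 hx
    exact_mod_cast (by positivity : (0 : ℝ) < (‖x‖ ^ 2)⁻¹).ne'
  tauto

lemma rho_ne_zero (ρ : Γ →* (V →L[ℂ] V)) (γ : Γ) {x : V} (hx : x ≠ 0) : ρ γ x ≠ 0 := by
  intro h0
  have : (ρ γ⁻¹ * ρ γ) x = x := by rw [rho_inv_mul]; rfl
  rw [mul_apply_eq_comp, h0, map_zero] at this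
  exact hx this.symm

theorem transfer [FiniteDimensional ℂ V] [CompleteSpace V] [IsTopologicalGroup G]
    {ρ ρ' : Γ →* (V →L[ℂ] V)} (E : EData s ρ) (E' : EData s ρ') {z : G}
    (hz : ∀ g, z * g = g * z) (hzL : ∀ g, s.L (z * g) = s.L g) {K η : ℝ} (hK : 1 ≤ K)
    (hη : 0 ≤ η) (hη' : 4 * K * (1 + K) * η ≤ 1)
    (hρK : ∀ γ, s.L (s.φ γ) ≤ 2 * s.B → ‖ρ' γ‖ ≤ K)
    (hρ : ∀ γ, s.L (s.φ γ) ≤ 2 * s.B → ‖ρ γ - ρ' γ‖ ≤ η)
    (hP : ∀ g, s.L g ≤ s.B → ‖E.P g - E'.P g‖ ≤ η) (h : HasSec s z ρ' E'.P) :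
    HasSec s z ρ E.P := by
  obtain ⟨σ', hσ'c, hσ'e, hσ'z, hσ'0⟩ := h
  set y : G → V := fun g => E'.P g (σ' g) with hy
  have hyc : Continuous y := E'.continuous.clm_apply hσ'c
  set t : Γ → G → V := fun γ g => ((bump s ((s.φ γ)⁻¹ * g) : ℝ) : ℂ) •
    dual ρ γ (y ((s.φ γ)⁻¹ * g)) with ht
  have htc : ∀ γ, Continuous (t γ) := by
    intro γ
    have h1 : Continuous fun g : G => (s.φ γ)⁻¹ * g := by fun_prop
    exact (Complex.continuous_ofReal.comp (bump_cont.comp h1)).smul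
      ((dual ρ γ).continuous.comp (hyc.comp h1))
  have htne : ∀ γ g, t γ g ≠ 0 → s.L (s.φ γ) ≤ s.L g + s.B := by
    intro γ g h
    refine len_of_bump fun h0 => h ?_
    simp [ht, h0]
  have hlf : LocallyFinite fun γ => support (t γ) := by
    intro g
    refine ⟨{g' | s.L g' < s.L g + 1}, ?_, ?_⟩
    · exact (s.L_cont.tendsto g).eventually_lt_const (by linarith)
    · refine (s.fin (s.L g + 1 + s.B)).subset ?_
      rintro γ ⟨g', h1, h2⟩
      have := htne γ g' h1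
      simp only [Set.mem_ofPred_eq] at h2 ⊢
      linarith
  have hfin : ∀ g, (support fun γ => t γ g).Finite := fun g =>
    (s.fin (s.L g + s.B)).subset fun γ hγ => htne γ g hγ
  set σ : G → V := fun g => ∑ᶠ γ, t γ g with hσ
  have hσc : Continuous σ := continuous_finsum htc hlf
  have hσe : ∀ δ g, σ (s.φ δ * g) = dual ρ δ (σ g) := by
    intro δ g
    have e1 : ∀ γ, t (δ * γ) (s.φ δ * g) = dual ρ δ (t γ g) := by
      intro γ
      have e : (s.φ (δ * γ))⁻¹ * (s.φ δ * g) = (s.φ γ)⁻¹ * g := by rw [map_mul]; group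
      change ((bump s ((s.φ (δ * γ))⁻¹ * (s.φ δ * g)) : ℝ) : ℂ) •
        dual ρ (δ * γ) (y ((s.φ (δ * γ))⁻¹ * (s.φ δ * g))) = dual ρ δ (_ • _)
      rw [e, map_mul (dual ρ), mul_apply_eq_comp, map_smul]
    have e2 := finsum_comp_equiv (Equiv.mulLeft δ) (f := fun γ => t γ (s.φ δ * g))
    simp only [Equiv.coe_mulLeft, e1] at e2
    simp only [hσ]
    rw [← e2]
    exact ((dual ρ δ : V →L[ℂ] V).toLinearMap.toAddMonoidHom.map_finsum (hfin g)).symm
  have hσz : ∀ g, σ (z * g) = σ g := by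
    intro g
    have : ∀ γ, t γ (z * g) = t γ g := by
      intro γ
      have e : (s.φ γ)⁻¹ * (z * g) = z * ((s.φ γ)⁻¹ * g) := by
        rw [← mul_assoc, ← hz, mul_assoc]
      simp only [ht, e, hy, bump]
      rw [hzL, hσ'z, E'.central_inv hz hzL]
    simp only [hσ, this]
  refine ⟨σ, hσc, hσe, hσz, ?_⟩
  -- it suffices to consider a compact set
  have main : ∀ g, s.L g ≤ s.B → E.P g (σ g) ≠ 0 := by
    intro g hg
    obtain ⟨e, he, hPe⟩ := E.exists_unit g
    obtain ⟨e₁, he₁, hPe₁⟩ := E'.exists_unit g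
    have he0 : e ≠ 0 := by intro h0; rw [h0, norm_zero] at he; exact zero_ne_one he
    have he₁0 : e₁ ≠ 0 := by intro h0; rw [h0, norm_zero] at he₁; exact zero_ne_one he₁
    rw [hPe, pr_apply_ne_zero he0]
    set e' : V := E'.P g e with he'
    have h1 : ‖e - e'‖ ≤ η := by
      have h2 : e - e' = (E.P g - E'.P g) e := by
        rw [_root_.sub_apply, hPe, pr_self, he']
      rw [h2]
      refine (ContinuousLinearMap.le_opNorm _ _).trans ?_
      rw [he, mul_one]; exact hP g hg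
    have hη2 : η ≤ 1 / 2 := by
      have : 8 * η ≤ 4 * K * (1 + K) * η := mul_le_mul_of_nonneg_right (by nlinarith) hη
      linarith
    have h2 : 1 / 2 ≤ ‖e'‖ := by
      have := norm_sub_norm_le e (e - e')
      rw [sub_sub_cancel, he] at this
      linarith
    set b : ℂ := inner ℂ e₁ e with hb
    have he'b : e' = b • e₁ := by rw [he', hPe₁, pr_unit_apply he₁]
    have hb0 : b ≠ 0 := by
      intro h0
      rw [he'b, h0, zero_smul, norm_zero] at h2
      linarith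
    set q : ℂ := inner ℂ e' (σ' g) with hq
    have hq0 : q ≠ 0 := by
      have := hσ'0 g
      rw [hPe₁, pr_apply_ne_zero he₁0] at this
      rw [hq, he'b, inner_smul_left]
      exact mul_ne_zero (by simpa using hb0) this
    have hqpos : 0 < ‖q‖ := norm_pos_iff.2 hq0
    have term : ∀ γ, bump s ((s.φ γ)⁻¹ * g) ≠ 0 →
        ‖inner ℂ e (dual ρ γ (y ((s.φ γ)⁻¹ * g))) - q‖ ≤ ‖q‖ / 2 := by
      intro γ hγ
      have hγ2 : s.L (s.φ γ) ≤ 2 * s.B := by
        have := len_of_bump hγ; linarith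
      have hγ3 : s.L (s.φ γ⁻¹) ≤ 2 * s.B := by rwa [map_inv, s.L_inv]
      set f : V := ρ' γ⁻¹ e' with hf
      have hPh : E'.P ((s.φ γ)⁻¹ * g) = pr f := by
        have := E'.equivariant g γ⁻¹ he₁ hPe₁
        rw [map_inv s.φ] at this
        rw [this, hf, he'b, map_smul, pr_smul hb0]
      have hf0 : f ≠ 0 := rho_ne_zero ρ' _ (by
        intro h0; rw [h0, norm_zero] at h2; linarith)
      have hfpos : 0 < ‖f‖ := norm_pos_iff.2 hf0
      have hσh : σ' ((s.φ γ)⁻¹ * g) = dual ρ' γ⁻¹ (σ' g) := by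
        rw [← hσ'e, map_inv s.φ]
      have hfq : inner ℂ f (σ' ((s.φ γ)⁻¹ * g)) = q := by
        rw [hσh, hf, inner_dual]
      have hyf : y ((s.φ γ)⁻¹ * g) = ((((‖f‖ ^ 2)⁻¹ : ℝ) : ℂ) * q) • f := by
        rw [hy]; simp only
        rw [hPh, pr_apply, hfq]
      have hfy : inner ℂ f (y ((s.φ γ)⁻¹ * g)) = q := by
        rw [hyf, inner_smul_right, inner_self_eq_norm_sq_to_K]
        have : (‖f‖ : ℂ) ≠ 0 := by exact_mod_cast hfpos.ne'
        push_cast
        simp only [Complex.coe_algebraMap]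
        field_simp
      have hynorm : ‖y ((s.φ γ)⁻¹ * g)‖ = ‖q‖ / ‖f‖ := by
        rw [hyf, norm_smul, norm_mul, Complex.norm_real, Real.norm_of_nonneg (by positivity)]
        field_simp
      have e1 : inner ℂ e (dual ρ γ (y ((s.φ γ)⁻¹ * g))) =
          inner ℂ (ρ γ⁻¹ e) (y ((s.φ γ)⁻¹ * g)) := by
        rw [dual_apply, adjoint_inner_right]
      rw [e1, ← hfy, ← inner_sub_left]
      refine (norm_inner_le_norm _ _).trans ?_
      rw [hynorm, hfy]
      have h3 : ‖ρ γ⁻¹ e - f‖ ≤ (1 + K) * η := by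
        have e2 : ρ γ⁻¹ e - f = (ρ γ⁻¹ - ρ' γ⁻¹) e + ρ' γ⁻¹ (e - e') := by
          rw [_root_.sub_apply, map_sub, hf]; abel
        rw [e2]
        refine (norm_add_le_of_le (r₁ := η) (r₂ := K * η) ?_ ?_).trans (le_of_eq (by ring))
        · refine (ContinuousLinearMap.le_opNorm _ _).trans ?_
          rw [he, mul_one]; exact hρ _ hγ3
        · refine (ContinuousLinearMap.le_opNorm _ _).trans ?_
          exact mul_le_mul (hρK _ hγ3) h1 (norm_nonneg _) (by linarith)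
      have h4 : 1 / (2 * K) ≤ ‖f‖ := by
        have e3 : e' = ρ' γ f := by
          rw [hf, ← mul_apply_eq_comp, rho_mul_inv]; rfl
        have h5 : ‖e'‖ ≤ K * ‖f‖ := by
          rw [e3]
          refine (ContinuousLinearMap.le_opNorm _ _).trans ?_
          exact mul_le_mul_of_nonneg_right (hρK _ hγ2) (norm_nonneg _)
        rw [div_le_iff₀ (by positivity)]
        linarith
      have h6 : (1 + K) * η ≤ ‖f‖ / 2 := by
        refine le_trans ?_ (div_le_div_of_nonneg_right h4 (by norm_num : (0 : ℝ) ≤ 2))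
        rw [div_div, le_div_iff₀ (by positivity)]
        linarith
      calc ‖ρ γ⁻¹ e - f‖ * (‖q‖ / ‖f‖) ≤ ‖f‖ / 2 * (‖q‖ / ‖f‖) := by
            gcongr; exact h3.trans h6
        _ = ‖q‖ / 2 := by field_simp
    -- the sum
    set S : Finset Γ := (s.fin (2 * s.B)).toFinset with hS
    have hsum : σ g = ∑ γ ∈ S, t γ g := by
      refine finsum_eq_sum_of_support_subset _ ?_
      intro γ hγ
      rw [Finset.mem_coe, hS, Set.Finite.mem_toFinset]
      have := htne γ g hγ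
      simp only [Set.mem_ofPred_eq]
      linarith
    set X : ℝ := ∑ γ ∈ S, bump s ((s.φ γ)⁻¹ * g) with hX
    have hXpos : 0 < X := by
      obtain ⟨γ, hγ⟩ := s.cov g
      have h3 : 0 < bump s ((s.φ γ)⁻¹ * g) := bump_pos (by linarith)
      refine Finset.sum_pos' (fun γ _ => bump_nonneg _) ⟨γ, ?_, h3⟩
      rw [hS, Set.Finite.mem_toFinset]
      have := len_of_bump h3.ne'
      simp only [Set.mem_ofPred_eq]
      linarith
    intro hzero
    rw [hsum, inner_sum] at hzero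
    have h7 : ∀ γ ∈ S, ‖inner ℂ e (t γ g) - (bump s ((s.φ γ)⁻¹ * g) : ℂ) * q‖ ≤
        bump s ((s.φ γ)⁻¹ * g) * (‖q‖ / 2) := by
      intro γ _
      simp only [ht]
      rw [inner_smul_right, ← mul_sub, norm_mul, Complex.norm_real,
        Real.norm_of_nonneg (bump_nonneg _)]
      by_cases h0 : bump s ((s.φ γ)⁻¹ * g) = 0
      · rw [h0]; simp
      · exact mul_le_mul_of_nonneg_left (term γ h0) (bump_nonneg _)
    have h8 : ‖∑ γ ∈ S, (inner ℂ e (t γ g) - (bump s ((s.φ γ)⁻¹ * g) : ℂ) * q)‖ ≤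
        X * (‖q‖ / 2) := by
      rw [hX, Finset.sum_mul]
      exact norm_sum_le_of_le _ h7
    rw [Finset.sum_sub_distrib, hzero, ← Finset.sum_mul, zero_sub, norm_neg, norm_mul] at h8
    have h9 : ‖∑ γ ∈ S, ((bump s ((s.φ γ)⁻¹ * g) : ℝ) : ℂ)‖ = X := by
      rw [← Complex.ofReal_sum, Complex.norm_real, Real.norm_of_nonneg hXpos.le]
    rw [h9] at h8
    nlinarith
  intro g
  obtain ⟨γ, hγ⟩ := s.cov g
  have h1 := main _ (by linarith : s.L ((s.φ γ)⁻¹ * g) ≤ s.B)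
  obtain ⟨e, he, hPe⟩ := E.exists_unit ((s.φ γ)⁻¹ * g)
  have he0 : e ≠ 0 := by intro h0; rw [h0, norm_zero] at he; exact zero_ne_one he
  have h2 := E.equivariant _ γ he hPe
  have h3 := hσe γ ((s.φ γ)⁻¹ * g)
  rw [mul_inv_cancel_left] at h2 h3
  rw [hPe, pr_apply_ne_zero he0] at h1
  rw [h2, h3, pr_apply_ne_zero (rho_ne_zero ρ _ he0), inner_dual]
  exact h1

/-- the existence of a section is locally constant -/
theorem hasSec_locally [FiniteDimensional ℂ V] [CompleteSpace V] [IsTopologicalGroup G]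
    {ρ : Γ →* (V →L[ℂ] V)} (E : EData s ρ) (hcpt : IsCompact {g | s.L g ≤ s.B}) {z : G}
    (hz : ∀ g, z * g = g * z) (hzL : ∀ g, s.L (z * g) = s.L g) :
    ∃ R ε : ℝ, 0 < ε ∧ ∀ ρ' : Γ →* (V →L[ℂ] V),
      (∀ γ, s.L (s.φ γ) ≤ R → ‖ρ' γ - ρ γ‖ ≤ ε) → ∀ E' : EData s ρ',
        (HasSec s z ρ' E'.P ↔ HasSec s z ρ E.P) := by
  obtain ⟨K, hK1, hK⟩ := exists_bound s ρ (2 * s.B)
  set K' := K + 1 with hK'
  set η : ℝ := (4 * K' * (1 + K'))⁻¹ with hη
  have hηpos : 0 < η := by positivity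
  have hη' : 4 * K' * (1 + K') * η ≤ 1 := by
    rw [hη, mul_inv_cancel₀ (by positivity)]
  obtain ⟨R, ε, hε, H⟩ := close E hcpt hηpos
  refine ⟨max R (2 * s.B), min ε (min η 1), by positivity, ?_⟩
  intro ρ' hρ' E'
  have h1 : ∀ γ, s.L (s.φ γ) ≤ 2 * s.B → ‖ρ' γ - ρ γ‖ ≤ min η 1 := fun γ hγ =>
    (hρ' γ (hγ.trans (le_max_right _ _))).trans (min_le_right _ _)
  have h2 : ∀ g, s.L g ≤ s.B → ‖E'.P g - E.P g‖ ≤ η :=
    H ρ' (fun γ hγ => (hρ' γ (hγ.trans (le_max_left _ _))).trans (min_le_left _ _)) E'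
  have h3 : ∀ γ, s.L (s.φ γ) ≤ 2 * s.B → ‖ρ' γ‖ ≤ K' := by
    intro γ hγ
    have e := (h1 γ hγ).trans (min_le_right _ _)
    have e2 := (hK γ hγ).1
    have := norm_sub_norm_le (ρ' γ) (ρ γ)
    linarith
  constructor
  · exact transfer E E' hz hzL (by linarith) hηpos.le hη' h3
      (fun γ hγ => by rw [norm_sub_rev]; exact (h1 γ hγ).trans (min_le_left _ _))
      (fun g hg => by rw [norm_sub_rev]; exact h2 g hg)
  · exact transfer E' E hz hzL (by linarith) hηpos.le hη'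
      (fun γ hγ => ((hK γ hγ).1).trans (by linarith))
      (fun γ hγ => (h1 γ hγ).trans (min_le_left _ _)) h2

end Pool.Agent.W2helper8.AN
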