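import Pool.Agent.W2helper8.AN.Flow

/-!
# The dual representation and transversality
-/

set_option autoImplicit false

open InnerProductSpace ContinuousLinearMap Filter Topology

namespace Pool.Agent.W2helper8.AN

variable {Γ G : Type*} [Group Γ] [Group G] [TopologicalSpace G] {s : Setup Γ G}
variable {V : Type*} [NormedAddCommGroup V] [InnerProductSpace ℂ V]

/-- the contragredient representation -/
noncomputable def dual [CompleteSpace V] (ρ : Γ →* (V →L[ℂ] V)) : Γ →* (V →L[ℂ] V) where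
  toFun γ := ContinuousLinearMap.adjoint (ρ γ⁻¹)
  map_one' := by rw [inv_one, map_one]; exact ContinuousLinearMap.adjoint_one
  map_mul' γ δ := by
    rw [mul_inv_rev, map_mul]
    exact ContinuousLinearMap.adjoint_comp _ _

lemma dual_apply [CompleteSpace V] (ρ : Γ →* (V →L[ℂ] V)) (γ : Γ) :
    dual ρ γ = ContinuousLinearMap.adjoint (ρ γ⁻¹) := rfl

lemma inner_dual [CompleteSpace V] (ρ : Γ →* (V →L[ℂ] V)) (γ : Γ) (x y : V) :
    inner ℂ (ρ γ x) (dual ρ γ y) = inner ℂ x y := by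
  rw [dual_apply, adjoint_inner_right, ← mul_apply_eq_comp, rho_inv_mul]; rfl

lemma inner_dual' [CompleteSpace V] (ρ : Γ →* (V →L[ℂ] V)) (γ : Γ) (x y : V) :
    inner ℂ (dual ρ γ y) (ρ γ x) = inner ℂ y x := by
  rw [← inner_conj_symm, inner_dual, inner_conj_symm]

lemma norm_dual [CompleteSpace V] (ρ : Γ →* (V →L[ℂ] V)) (γ : Γ) : ‖dual ρ γ‖ = ‖ρ γ⁻¹‖ := by
  rw [dual_apply, LinearIsometryEquiv.norm_map]

lemma EData.exists_dual [CompleteSpace V] {ρ : Γ →* (V →L[ℂ] V)} (E : EData s ρ) :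
    ∃ D : EData s.rev (dual ρ), (∀ γ, D.u γ = E.v γ⁻¹) ∧ D.c = E.c := by
  obtain ⟨D, h1, -, -, h4⟩ := exists_EData' s.rev (dual ρ) E.hC E.hc
    (fun γ => by rw [norm_dual]; exact E.one_le _) (fun γ => E.v γ⁻¹) (fun γ => E.u γ⁻¹)
    (fun γ => by
      have := (E.gap γ⁻¹).adjoint
      rw [map_inv s.φ, s.L_inv] at this
      exact this)
  exact ⟨D, fun γ => by rw [h1], h4⟩

lemma gap_mul_norm {A A' : V →L[ℂ] V} {κ κ' : ℝ} {u v u' v' : V} (h : Gap A κ u v)
    (h' : Gap A' κ' u' v') : ‖A * A'‖ ≤ ‖A‖ * ‖A'‖ * (‖inner ℂ v u'‖ + κ + κ') := by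
  have e : A * A' = (A - (‖A‖ : ℂ) • rankOne ℂ u v) * A' +
      ((‖A‖ : ℂ) • rankOne ℂ u v) * (A' - (‖A'‖ : ℂ) • rankOne ℂ u' v') +
      ((‖A‖ : ℂ) • rankOne ℂ u v) * ((‖A'‖ : ℂ) • rankOne ℂ u' v') := by
    noncomm_ring
  have e1 : ‖(A - (‖A‖ : ℂ) • rankOne ℂ u v) * A'‖ ≤ κ * ‖A‖ * ‖A'‖ :=
    (norm_mul_le _ _).trans (mul_le_mul_of_nonneg_right h.bd (norm_nonneg _))
  have n1 : ‖(‖A‖ : ℂ) • rankOne ℂ u v‖ = ‖A‖ := by
    rw [norm_smul, norm_rankOne, h.hu, h.hv, Complex.norm_real, norm_norm]; ring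
  have e2 : ‖((‖A‖ : ℂ) • rankOne ℂ u v) * (A' - (‖A'‖ : ℂ) • rankOne ℂ u' v')‖ ≤
      ‖A‖ * (κ' * ‖A'‖) := by
    refine (norm_mul_le _ _).trans ?_
    rw [n1]
    exact mul_le_mul_of_nonneg_left h'.bd (norm_nonneg _)
  have e3 : ‖((‖A‖ : ℂ) • rankOne ℂ u v) * ((‖A'‖ : ℂ) • rankOne ℂ u' v')‖ =
      ‖A‖ * ‖A'‖ * ‖inner ℂ v u'‖ := by
    have : ((‖A‖ : ℂ) • rankOne ℂ u v) * ((‖A'‖ : ℂ) • rankOne ℂ u' v') =
        ((‖A‖ : ℂ) * (‖A'‖ : ℂ) * inner ℂ v u') • rankOne ℂ u v' := by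
      ext w
      simp only [mul_apply_eq_comp, _root_.smul_apply, rankOne_apply, inner_smul_right, smul_smul]
      congr 1
      ring
    rw [this, norm_smul, norm_rankOne, h.hu, h'.hv, norm_mul, norm_mul, Complex.norm_real,
      Complex.norm_real, norm_norm, norm_norm]
    ring
  rw [e]
  refine (norm_add_le_of_le (norm_add_le_of_le e1 e2) e3.le).trans (le_of_eq ?_)
  ring

lemma EData.norm_P_le [FiniteDimensional ℂ V] {ρ : Γ →* (V →L[ℂ] V)} (E : EData s ρ) (g : G) :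
    ‖E.P g‖ = 1 := by
  obtain ⟨x, hx, h⟩ := E.exists_unit g
  rw [h, pr_norm hx]

/-- the pairing of the line and the dual line at `g` is invariant -/
lemma pair_zero_equiv [FiniteDimensional ℂ V] [CompleteSpace V] {ρ : Γ →* (V →L[ℂ] V)}
    (E : EData s ρ) (D : EData s.rev (dual ρ)) (g : G) (δ : Γ) (h : D.P g * E.P g = 0) :
    D.P (s.φ δ * g) * E.P (s.φ δ * g) = 0 := by
  obtain ⟨x, hx, hEx⟩ := E.exists_unit g
  obtain ⟨y, hy, hDy⟩ := D.exists_unit g
  have h1 : inner ℂ y x = 0 := by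
    have := pr_mul_pr_norm hy hx
    rw [← hDy, ← hEx, h, norm_zero] at this
    exact norm_eq_zero.1 this.symm
  have e1 := E.equivariant g δ hx hEx
  have e2 : D.P (s.φ δ * g) = pr (dual ρ δ y) := D.equivariant g δ hy hDy
  rw [e1, e2]
  ext w
  have := inner_dual' ρ δ x y
  rw [mul_apply_eq_comp, pr_apply (ρ δ x), map_smul, pr_apply, this, h1]
  simp

/-- the numerical contradiction -/
lemma doubling_absurd {c K C : ℝ} (hc : 0 < c) (hK : 1 ≤ K) (hC : 1 ≤ C) (M : ℕ → ℕ → ℝ)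
    (h1 : ∀ i n, 1 ≤ M i n) (h0 : ∀ i, M i 1 ≤ K)
    (h2 : ∀ i n, M i (n + n) ≤ M i n * M (i + n) n * (C * Real.exp (-(c * n)))) : False := by
  set l := Real.log C with hl
  set k := Real.log K with hk
  have hl0 : 0 ≤ l := Real.log_nonneg hC
  have hk0 : 0 ≤ k := Real.log_nonneg hK
  have key : ∀ j i : ℕ, M i (2 ^ j) ≤ Real.exp (2 ^ j * (k + l) - l - c / 2 * j * 2 ^ j) := by
    intro j
    induction j with
    | zero =>
      intro i
      simp only [pow_zero, one_mul, Nat.cast_zero, mul_zero, zero_mul, sub_zero]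
      rw [add_sub_cancel_right, hk, Real.exp_log (by linarith)]
      exact h0 i
    | succ j ih =>
      intro i
      have e : 2 ^ (j + 1) = 2 ^ j + 2 ^ j := by ring
      rw [e]
      refine (h2 i (2 ^ j)).trans ?_
      have e1 := ih i
      have e2 := ih (i + 2 ^ j)
      have e3 : C = Real.exp l := by rw [hl, Real.exp_log (by linarith)]
      calc M i (2 ^ j) * M (i + 2 ^ j) (2 ^ j) * (C * Real.exp (-(c * ((2 ^ j : ℕ) : ℝ))))
          ≤ Real.exp (2 ^ j * (k + l) - l - c / 2 * j * 2 ^ j) *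
            Real.exp (2 ^ j * (k + l) - l - c / 2 * j * 2 ^ j) *
            (C * Real.exp (-(c * ((2 ^ j : ℕ) : ℝ)))) := by
            have a1 := h1 i (2 ^ j)
            have a2 := h1 (i + 2 ^ j) (2 ^ j)
            gcongr
        _ = Real.exp (2 ^ (j + 1) * (k + l) - l - c / 2 * ((j + 1 : ℕ) : ℝ) * 2 ^ (j + 1)) := by
            rw [e3, ← Real.exp_add, ← Real.exp_add, ← Real.exp_add]
            congr 1
            push_cast
            ring
  obtain ⟨j, hj⟩ := exists_nat_gt (2 * (k + l) / c)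
  have h3 := (h1 0 (2 ^ j)).trans (key j 0)
  rw [Real.one_le_exp_iff] at h3
  rw [div_lt_iff₀ hc] at hj
  have h4 : (0 : ℝ) < 2 ^ j := by positivity
  nlinarith

theorem transverse [FiniteDimensional ℂ V] [CompleteSpace V] {ρ : Γ →* (V →L[ℂ] V)}
    (E : EData s ρ) (D : EData s.rev (dual ρ)) (hu : ∀ γ, D.u γ = E.v γ⁻¹) (hc : D.c = E.c)
    (g : G) : D.P g * E.P g ≠ 0 := by
  intro hzero
  choose w hw using s.exists_good' g
  set h : ℕ → G := fun i => s.φ (w i)⁻¹ * (g * s.a ^ i) with hh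
  have hL : ∀ i, s.L (h i) ≤ s.B := by
    intro i
    have := hw i
    unfold Setup.good at this
    rw [mul_assoc] at this
    rw [hh]; simpa using this
  have hzero' : ∀ i, D.P (h i) * E.P (h i) = 0 := by
    intro i
    refine pair_zero_equiv E D _ _ ?_
    rw [E.flow_inv]
    have := D.flow_inv (g * s.a ^ i) i
    have e : g * s.a ^ i * s.rev.a ^ i = g := by
      simp [Setup.rev]
    rw [e] at this
    rw [← this]
    exact hzero
  -- good elements between the frames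
  have good1 : ∀ i n, s.good (h i) n ((w i)⁻¹ * w (i + n)) := by
    intro i n
    have := hw (i + n)
    unfold Setup.good at *
    have e : (s.φ ((w i)⁻¹ * w (i + n)))⁻¹ * h i * s.a ^ n = (s.φ (w (i + n)))⁻¹ * g * s.a ^ (i + n) := by
      simp only [hh, pow_add, map_mul, map_inv]; group
    rw [e]; exact this
  have good2 : ∀ i n, s.rev.good (h (i + n)) n ((w (i + n))⁻¹ * w i) := by
    intro i n
    have := hw i
    unfold Setup.good at *
    have e : (s.rev.φ ((w (i + n))⁻¹ * w i))⁻¹ * h (i + n) * s.rev.a ^ n =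
        (s.φ (w i))⁻¹ * g * s.a ^ i := by
      change (s.φ ((w (i + n))⁻¹ * w i))⁻¹ * (s.φ (w (i + n))⁻¹ * (g * s.a ^ (i + n))) * s.a⁻¹ ^ n = _
      simp only [pow_add, map_mul, map_inv]; group
    rw [e]; exact this
  obtain ⟨K, hK1, hK⟩ := exists_bound s ρ (2 * s.B + s.L (s.a ^ 1))
  have hBp := s.B_pos
  set C₃ : ℝ := D.C' * Real.exp (E.c * s.B) + E.C' * Real.exp (E.c * s.B) +
    2 * (E.C * Real.exp (2 * (E.c * s.B))) + 1 with hC₃
  have hC₃1 : 1 ≤ C₃ := by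
    have := E.hC'; have := D.hC'; have := E.hC
    have : 0 ≤ D.C' * Real.exp (E.c * s.B) + E.C' * Real.exp (E.c * s.B) +
      2 * (E.C * Real.exp (2 * (E.c * s.B))) := by positivity
    linarith
  refine doubling_absurd E.hc hK1 hC₃1 (fun i n => ‖ρ ((w i)⁻¹ * w (i + n))‖)
    (fun i n => E.one_le _) (fun i => (hK _ (s.good_diff (hw i) (hw (i + 1)))).1) ?_
  intro i n
  have e0 : (w i)⁻¹ * w (i + (n + n)) = ((w i)⁻¹ * w (i + n)) * ((w (i + n))⁻¹ * w (i + n + n)) := by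
    rw [← add_assoc]; group
  rw [e0, map_mul]
  refine (gap_mul_norm (E.gap _) (E.gap _)).trans ?_
  refine mul_le_mul_of_nonneg_left ?_ (by positivity)
  have k1 : E.C * Real.exp (-(E.c * s.L (s.φ ((w i)⁻¹ * w (i + n))))) ≤
      E.C * Real.exp (2 * (E.c * s.B)) * Real.exp (-(E.c * n)) := by
    rw [mul_assoc, ← Real.exp_add]
    refine mul_le_mul_of_nonneg_left (Real.exp_le_exp.2 ?_) E.hC.le
    have := s.good_len (good1 i n)
    have := hL i
    have := E.hc
    nlinarith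
  have k2 : E.C * Real.exp (-(E.c * s.L (s.φ ((w (i + n))⁻¹ * w (i + n + n))))) ≤
      E.C * Real.exp (2 * (E.c * s.B)) * Real.exp (-(E.c * n)) := by
    rw [mul_assoc, ← Real.exp_add]
    refine mul_le_mul_of_nonneg_left (Real.exp_le_exp.2 ?_) E.hC.le
    have := s.good_len (good1 (i + n) n)
    have := hL (i + n)
    have := E.hc
    nlinarith
  set v₁ := E.v ((w i)⁻¹ * w (i + n)) with hv₁
  set u₂ := E.u ((w (i + n))⁻¹ * w (i + n + n)) with hu₂
  have hv₁1 : ‖v₁‖ = 1 := (E.gap _).hv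
  have hu₂1 : ‖u₂‖ = 1 := (E.gap _).hu
  have k3 : ‖pr v₁ - D.P (h (i + n))‖ ≤ D.C' * Real.exp (E.c * s.B) * Real.exp (-(E.c * n)) := by
    have := D.est (h (i + n)) n _ (good2 i n)
    rw [hu, mul_inv_rev, inv_inv, ← hv₁, hc] at this
    refine this.trans ?_
    have h1 : s.rev.L (h (i + n)) ≤ s.B := hL _
    have := D.hC'
    have := E.hc
    gcongr
  have k4 : ‖pr u₂ - E.P (h (i + n))‖ ≤ E.C' * Real.exp (E.c * s.B) * Real.exp (-(E.c * n)) := by
    have := E.est (h (i + n)) n _ (good1 (i + n) n)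
    refine this.trans ?_
    have h1 : s.L (h (i + n)) ≤ s.B := hL _
    have := E.hC'
    have := E.hc
    gcongr
  have k5 : ‖inner ℂ v₁ u₂‖ ≤ D.C' * Real.exp (E.c * s.B) * Real.exp (-(E.c * n)) +
      E.C' * Real.exp (E.c * s.B) * Real.exp (-(E.c * n)) := by
    rw [← pr_mul_pr_norm hv₁1 hu₂1]
    have e : pr v₁ * pr u₂ = (pr v₁ - D.P (h (i + n))) * pr u₂ +
        D.P (h (i + n)) * (pr u₂ - E.P (h (i + n))) := by
      have := hzero' (i + n)
      rw [sub_mul, mul_sub, this]; abel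
    rw [e]
    refine norm_add_le_of_le ?_ ?_
    · refine (norm_mul_le _ _).trans ?_
      rw [pr_norm hu₂1, mul_one]
      exact k3
    · refine (norm_mul_le _ _).trans ?_
      rw [D.norm_P_le, one_mul]
      exact k4
  refine (add_le_add (add_le_add k5 k1) k2).trans ?_
  rw [hC₃]
  have := Real.exp_pos (-(E.c * n))
  nlinarith

/-- a uniform lower bound for the pairing on a compact set -/
lemma transverse_uniform [FiniteDimensional ℂ V] [CompleteSpace V] [IsTopologicalGroup G]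
    {ρ : Γ →* (V →L[ℂ] V)}
    (E : EData s ρ) (D : EData s.rev (dual ρ)) (hu : ∀ γ, D.u γ = E.v γ⁻¹) (hc : D.c = E.c)
    {F : Set G} (hF : IsCompact F) : ∃ r : ℝ, 0 < r ∧ ∀ g ∈ F, r ≤ ‖D.P g * E.P g‖ := by
  have hcont : Continuous fun g => ‖D.P g * E.P g‖ := (D.continuous.mul E.continuous).norm
  rcases F.eq_empty_or_nonempty with rfl | hne
  · exact ⟨1, one_pos, by simp⟩
  obtain ⟨g, hg, hmin⟩ := hF.exists_isMinOn hne hcont.continuousOn
  exact ⟨_, norm_pos_iff.2 (transverse E D hu hc g), fun g' hg' => hmin hg'⟩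

end Pool.Agent.W2helper8.AN
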